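import Pool.Agent.MEN.Defs

set_option autoImplicit false

/-!
MEN-Mer. Mertens' second theorem up to a constant, from the products `SQ.mert_full`, `SQ.mert_prod`:
`1 / p ≤ log (1 - 1/p)⁻¹ ≤ 1 / p + 2 / p ^ 2`.
-/

namespace Pool.Agent.MEN

open Finset
open Helper52 (pr)

private theorem log_factor {q : ℕ} (hq : q.Prime) :
    0 < (1 - 1 / (q : ℝ)) ∧ 1 / (q : ℝ) ≤ Real.log (1 - 1 / (q : ℝ))⁻¹ ∧
      Real.log (1 - 1 / (q : ℝ))⁻¹ ≤ 1 / (q : ℝ) + 2 * ((q : ℝ) ^ 2)⁻¹ := by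
  have h2 : (2 : ℝ) ≤ q := by exact_mod_cast hq.two_le
  have h3 : 1 / (q : ℝ) ≤ 1 / 2 := one_div_le_one_div_of_le (by norm_num) h2
  have h4 : 0 < 1 / (q : ℝ) := by positivity
  have h5 : 0 < (1 - 1 / (q : ℝ)) := by linarith
  refine ⟨h5, ?_, ?_⟩
  · have h6 := Real.log_le_sub_one_of_pos h5
    rw [Real.log_inv]
    linarith
  · have h6 := Real.log_le_sub_one_of_pos (inv_pos.2 h5)
    refine h6.trans ?_
    have h7 : ((q : ℝ) ^ 2)⁻¹ = (1 / (q : ℝ)) ^ 2 := by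
      rw [one_div, inv_pow]
    rw [h7]
    set t := 1 / (q : ℝ) with ht
    rw [sub_le_iff_le_add, inv_le_comm₀ h5 (by positivity)]
    rw [inv_eq_one_div, div_le_iff₀ (by positivity)]
    nlinarith [mul_nonneg h4.le (sub_nonneg.2 h3), sq_nonneg t, mul_nonneg (sq_nonneg t)
      (sub_nonneg.2 h3)]

private theorem sum_sq_le (a b : ℕ) : ∑ q ∈ pr a b, ((q : ℝ) ^ 2)⁻¹ ≤ 1 := by
  have h1 : ∑ q ∈ pr a b, ((q : ℝ) ^ 2)⁻¹ ≤ ∑ q ∈ Ioc 1 (max b 1), ((q : ℝ) ^ 2)⁻¹ := by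
    refine Finset.sum_le_sum_of_subset_of_nonneg ?_ fun i _ _ => by positivity
    intro q hq
    rw [Helper52.mem_pr] at hq
    rw [mem_Ioc]
    exact ⟨hq.2.2.one_lt, hq.2.1.trans (le_max_left _ _)⟩
  have h2 := sum_Ioc_inv_sq_le_sub (α := ℝ) (k := 1) (n := max b 1) one_ne_zero (le_max_right _ _)
  have h3 : (0 : ℝ) ≤ ((max b 1 : ℕ) : ℝ)⁻¹ := by positivity
  refine h1.trans (h2.trans ?_)
  rw [Nat.cast_one, inv_one]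
  linarith

private theorem key (a b : ℕ) {C R : ℝ} (hC : 1 ≤ C) (hR : 0 < R)
    (h1 : ∏ q ∈ pr a b, (1 - 1 / (q : ℝ))⁻¹ ≤ C * R)
    (h2 : R ≤ C * ∏ q ∈ pr a b, (1 - 1 / (q : ℝ))⁻¹) :
    |∑ p ∈ pr a b, 1 / (p : ℝ) - Real.log R| ≤ Real.log C + 2 := by
  have hf : ∀ q ∈ pr a b, 0 < (1 - 1 / (q : ℝ)) ∧ 1 / (q : ℝ) ≤ Real.log (1 - 1 / (q : ℝ))⁻¹ ∧
      Real.log (1 - 1 / (q : ℝ))⁻¹ ≤ 1 / (q : ℝ) + 2 * ((q : ℝ) ^ 2)⁻¹ :=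
    fun q hq => log_factor (Helper52.mem_pr.1 hq).2.2
  have hP : 0 < ∏ q ∈ pr a b, (1 - 1 / (q : ℝ))⁻¹ :=
    Finset.prod_pos fun q hq => inv_pos.2 (hf q hq).1
  have hlog : Real.log (∏ q ∈ pr a b, (1 - 1 / (q : ℝ))⁻¹) =
      ∑ q ∈ pr a b, Real.log (1 - 1 / (q : ℝ))⁻¹ :=
    Real.log_prod fun q hq => (inv_pos.2 (hf q hq).1).ne'
  have hC0 : 0 < C := by linarith
  have h3 : ∑ q ∈ pr a b, Real.log (1 - 1 / (q : ℝ))⁻¹ ≤ Real.log C + Real.log R := by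
    rw [← hlog, ← Real.log_mul hC0.ne' hR.ne']
    exact Real.log_le_log hP h1
  have h4 : Real.log R ≤ Real.log C + ∑ q ∈ pr a b, Real.log (1 - 1 / (q : ℝ))⁻¹ := by
    rw [← hlog, ← Real.log_mul hC0.ne' hP.ne']
    exact Real.log_le_log hR h2
  have h5 : ∑ q ∈ pr a b, 1 / (q : ℝ) ≤ ∑ q ∈ pr a b, Real.log (1 - 1 / (q : ℝ))⁻¹ :=
    Finset.sum_le_sum fun q hq => (hf q hq).2.1
  have h6 : ∑ q ∈ pr a b, Real.log (1 - 1 / (q : ℝ))⁻¹ ≤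
      ∑ q ∈ pr a b, 1 / (q : ℝ) + 2 * ∑ q ∈ pr a b, ((q : ℝ) ^ 2)⁻¹ := by
    rw [Finset.mul_sum, ← Finset.sum_add_distrib]
    exact Finset.sum_le_sum fun q hq => (hf q hq).2.2
  have h7 := sum_sq_le a b
  rw [abs_le]
  constructor <;> linarith

theorem mert_sum : ∃ C : ℝ, 1 ≤ C ∧ ∀ w x : ℕ, 2 ≤ w → w ≤ x →
    |∑ p ∈ pr w x, 1 / (p : ℝ) - (Real.log (Real.log x) - Real.log (Real.log w))| ≤ C := by
  obtain ⟨C, hC, h⟩ := SQ.mert_prod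
  have hlC : 0 ≤ Real.log C := Real.log_nonneg hC
  refine ⟨Real.log C + 2, by linarith, fun w x hw hwx => ?_⟩
  have hlw : 0 < Real.log w := Real.log_pos (by exact_mod_cast hw)
  have hlx : 0 < Real.log x := Real.log_pos (by exact_mod_cast (hw.trans hwx))
  obtain ⟨h1, h2⟩ := h w x hw hwx
  have h3 := key w x hC (div_pos hlx hlw) h1 h2
  rwa [Real.log_div hlx.ne' hlw.ne'] at h3

theorem mert_sum0 : ∃ C : ℝ, 1 ≤ C ∧ ∀ x : ℕ, 2 ≤ x →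
    |∑ p ∈ pr 0 x, 1 / (p : ℝ) - Real.log (Real.log x)| ≤ C := by
  obtain ⟨C, hC, h⟩ := SQ.mert_full
  have hlC : 0 ≤ Real.log C := Real.log_nonneg hC
  refine ⟨Real.log C + 2, by linarith, fun x hx => ?_⟩
  have hlx : 0 < Real.log x := Real.log_pos (by exact_mod_cast hx)
  obtain ⟨h1, h2⟩ := h x hx
  exact key 0 x hC hlx h1 h2

end Pool.Agent.MEN
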