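import Pool.Agent.MEN.Defs

set_option autoImplicit false

/-!
MEN-Ana. Real analysis of the functions `A` and `S`: monotonicity, continuity, values, and the
crossing point `y0`.
-/

namespace Pool.Agent.MEN

open Set

private lemma Q_anti {s t : ℝ} (h0 : 0 < s) (h1 : s < t) (h2 : t ≤ 1) :
    t * Real.log t - t + 1 < s * Real.log s - s + 1 := by
  have ht : 0 < t := h0.trans h1
  have hx : 0 < t / s := div_pos ht h0
  have hx1 : t / s ≠ 1 := by
    intro h
    rw [div_eq_one_iff_eq h0.ne'] at h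
    exact h1.ne' h
  have h3 := Real.log_lt_sub_one_of_pos hx hx1
  rw [Real.log_div ht.ne' h0.ne'] at h3
  have h4 : s * (Real.log t - Real.log s) < s * (t / s - 1) := by
    exact mul_lt_mul_of_pos_left h3 h0
  have h5 : s * (t / s - 1) = t - s := by field_simp
  rw [h5] at h4
  have h6 : Real.log t ≤ 0 := Real.log_nonpos ht.le h2
  nlinarith [mul_nonneg (sub_nonneg.2 h1.le) (neg_nonneg.2 h6)]

theorem A_anti {s t : ℝ} (h0 : 0 < s) (h1 : s < t) (h2 : t + t ^ 2 ≤ 1) : A t < A s := by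
  unfold A
  exact Q_anti (by positivity) (by nlinarith) h2

theorem A_zero {y : ℝ} (h1 : y + y ^ 2 = 1) : A y = 0 := by
  unfold A
  rw [h1, Real.log_one]
  ring

theorem A_pos {y : ℝ} (h0 : 0 < y) (h1 : y + y ^ 2 < 1) : 0 < A y := by
  have h := Q_anti (s := y + y ^ 2) (t := 1) (by positivity) h1 le_rfl
  rw [Real.log_one] at h
  unfold A
  linarith

theorem A_lt_one {y : ℝ} (h0 : 0 < y) (h1 : y + y ^ 2 ≤ 1) : A y < 1 := by
  unfold A
  have hp : 0 < y + y ^ 2 := by positivity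
  have h2 : Real.log (y + y ^ 2) ≤ 0 := Real.log_nonpos hp.le h1
  nlinarith

private lemma A_continuous : Continuous A := by
  have h1 : Continuous fun y : ℝ => y + y ^ 2 := by fun_prop
  have h2 : Continuous fun y : ℝ => (y + y ^ 2) * Real.log (y + y ^ 2) :=
    Real.continuous_mul_log.comp h1
  exact (h2.sub h1).add continuous_const

theorem A_cont {y : ℝ} (h0 : 0 < y) : ContinuousAt A y := by
  have _ := h0
  exact A_continuous.continuousAt

theorem S_cont {y : ℝ} (h0 : 0 < y) : ContinuousAt S y := by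
  unfold S
  have h1 : (1 + y) ≠ 0 := by positivity
  have h2 : ContinuousAt (fun y : ℝ => Real.log (1 + y)) y :=
    ContinuousAt.log (by fun_prop) h1
  have h3 : ContinuousAt (fun y : ℝ => 2 * (y + y ^ 2)) y := by fun_prop
  have h4 : ContinuousAt (fun y : ℝ => y ^ 2) y := by fun_prop
  exact (h3.mul h2).sub h4

theorem A_surj {α : ℝ} (h0 : 0 < α) (h1 : α < 1) :
    ∃ y : ℝ, 0 < y ∧ y + y ^ 2 < 1 ∧ A y = α := by
  set y1 : ℝ := (Real.sqrt 5 - 1) / 2 with hy1
  have hs : Real.sqrt 5 ^ 2 = 5 := Real.sq_sqrt (by norm_num)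
  have hs1 : 1 < Real.sqrt 5 := by
    rw [Real.lt_sqrt (by norm_num)]
    norm_num
  have hy : y1 + y1 ^ 2 = 1 := by
    rw [hy1]
    nlinarith
  have hy0 : 0 < y1 := by
    rw [hy1]
    linarith
  have hA0 : A 0 = 1 := by
    unfold A
    norm_num
  have hA1 : A y1 = 0 := A_zero hy
  have hmem : α ∈ Icc (A y1) (A 0) := by
    rw [hA0, hA1]
    exact ⟨h0.le, h1.le⟩
  obtain ⟨y, hy2, hy3⟩ := intermediate_value_Icc' hy0.le A_continuous.continuousOn hmem
  have hne0 : y ≠ 0 := by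
    rintro rfl
    rw [hA0] at hy3
    exact h1.ne' hy3
  have hne1 : y ≠ y1 := by
    rintro rfl
    rw [hA1] at hy3
    exact h0.ne hy3
  have hyp : 0 < y := lt_of_le_of_ne hy2.1 (Ne.symm hne0)
  have hyl : y < y1 := lt_of_le_of_ne hy2.2 hne1
  exact ⟨y, hyp, by nlinarith, hy3⟩

theorem S_mono {s t : ℝ} (h0 : 0 < s) (h1 : s < t) : S s < S t := by
  have ht : 0 < t := h0.trans h1
  have hs1 : 0 < 1 + s := by linarith
  have ht1 : 0 < 1 + t := by linarith
  have h3 : Real.log ((1 + s) / (1 + t)) ≤ (1 + s) / (1 + t) - 1 :=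
    Real.log_le_sub_one_of_pos (div_pos hs1 ht1)
  rw [Real.log_div hs1.ne' ht1.ne'] at h3
  have h4 : (1 + t) * (Real.log (1 + s) - Real.log (1 + t)) ≤
      (1 + t) * ((1 + s) / (1 + t) - 1) := mul_le_mul_of_nonneg_left h3 ht1.le
  have h5 : (1 + t) * ((1 + s) / (1 + t) - 1) = s - t := by
    field_simp
    ring
  rw [h5] at h4
  have h6 : 0 < Real.log (1 + s) := Real.log_pos (by linarith)
  have h7 : 2 * t * ((1 + t) * (Real.log (1 + s) - Real.log (1 + t))) ≤ 2 * t * (s - t) :=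
    mul_le_mul_of_nonneg_left h4 (by linarith)
  have h8 : 0 < ((t + t ^ 2) - (s + s ^ 2)) * Real.log (1 + s) :=
    mul_pos (by nlinarith) h6
  unfold S
  nlinarith [sq_nonneg (t - s)]

private lemma log_split {y : ℝ} (h0 : 0 < y) :
    Real.log (y + y ^ 2) = Real.log y + Real.log (1 + y) := by
  rw [← Real.log_mul h0.ne' (by positivity)]
  congr 1
  ring

theorem S_sub {y : ℝ} (h0 : 0 < y) :
    S y - 2 * A y = y ^ 2 + 2 * y - 2 - 2 * (y + y ^ 2) * Real.log y := by
  unfold S A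
  rw [log_split h0]
  ring

private lemma S_sub_A {y : ℝ} (h0 : 0 < y) :
    S y - A y = (y + y ^ 2) * (Real.log (1 + y) - Real.log y) - (1 - y) := by
  unfold S A
  rw [log_split h0]
  ring

theorem y0_ex : ∃ y : ℝ, 1 / 4 < y ∧ y < 1 / 2 ∧ S y = A y ∧
    1 - y = y * (1 + y) * Real.log (1 + 1 / y) := by
  have hc : ContinuousOn (fun y => S y - A y) (Icc (1 / 4) (1 / 2)) := by
    intro y hy
    have hy0 : 0 < y := lt_of_lt_of_le (by norm_num) hy.1
    exact ((S_cont hy0).sub (A_cont hy0)).continuousWithinAt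
  have hl5 : Real.log 5 < 2.4 := by
    have h1 : Real.log 5 = Real.log 4 + Real.log (5 / 4) := by
      rw [← Real.log_mul (by norm_num) (by norm_num)]
      norm_num
    have h2 : Real.log 4 = 2 * Real.log 2 := by
      rw [show (4 : ℝ) = 2 ^ 2 by norm_num, Real.log_pow]
      norm_num
    have h3 : Real.log (5 / 4 : ℝ) ≤ 5 / 4 - 1 := Real.log_le_sub_one_of_pos (by norm_num)
    have h4 := Real.log_two_lt_d9
    rw [h1, h2]
    linarith
  have hl3 : 2 / 3 < Real.log 3 := by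
    have h1 : (1 : ℝ) < Real.log 3 := by
      rw [Real.lt_log_iff_exp_lt (by norm_num)]
      exact Real.exp_one_lt_d9.trans (by norm_num)
    linarith
  have e1 : S (1 / 4) - A (1 / 4) < 0 := by
    rw [S_sub_A (by norm_num), ← Real.log_div (by norm_num) (by norm_num)]
    have : (1 + 1 / 4 : ℝ) / (1 / 4) = 5 := by norm_num
    rw [this]
    linarith
  have e2 : 0 < S (1 / 2) - A (1 / 2) := by
    rw [S_sub_A (by norm_num), ← Real.log_div (by norm_num) (by norm_num)]
    have : (1 + 1 / 2 : ℝ) / (1 / 2) = 3 := by norm_num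
    rw [this]
    linarith
  obtain ⟨y, hy, hy0⟩ := intermediate_value_Icc (by norm_num) hc
    (show (0 : ℝ) ∈ Icc (S (1 / 4) - A (1 / 4)) (S (1 / 2) - A (1 / 2)) from ⟨e1.le, e2.le⟩)
  have hy0' : S y - A y = 0 := hy0
  have n1 : y ≠ 1 / 4 := by
    rintro rfl
    linarith
  have n2 : y ≠ 1 / 2 := by
    rintro rfl
    linarith
  have hyp : 0 < y := lt_of_lt_of_le (by norm_num) hy.1
  refine ⟨y, lt_of_le_of_ne hy.1 (Ne.symm n1), lt_of_le_of_ne hy.2 n2, by linarith, ?_⟩
  rw [S_sub_A hyp, ← Real.log_div (by positivity) hyp.ne'] at hy0'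
  have h3 : (1 + y) / y = 1 + 1 / y := by
    field_simp
    ring
  rw [h3] at hy0'
  linarith

theorem S_half : S (1 / 2) < 1 / 2 := by
  unfold S
  have h1 : Real.log (1 + 1 / 2 : ℝ) < (1 + 1 / 2) - 1 :=
    Real.log_lt_sub_one_of_pos (by norm_num) (by norm_num)
  nlinarith

end Pool.Agent.MEN
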