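import Pool.Agent.MEN.Bas

set_option autoImplicit false

/-!
MEN-Esy. Sums of `1 / n` over `n ≤ x` with a given number of odd prime factors.

Every `n` with `1 ≤ n ≤ x` is `2 ^ a * b ^ 2 * s` with `s` odd squarefree, and `om x n = om x s + 2 * om x b`.
The sum over the squarefree odd `s` with `om x s = k` is an elementary symmetric function of the
`κ / p`, at most `(κ * ∑ 1 / p) ^ k / k!`; the sums over `a` and `b` are at most `2` each.
-/

namespace Pool.Agent.MEN

open Finset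
open Helper52 (pr)

private theorem bern {S x : ℝ} (hS : 0 ≤ S) (hx : 0 ≤ x) (k : ℕ) :
    S ^ (k + 1) + ((k : ℝ) + 1) * (x * S ^ k) ≤ (x + S) ^ (k + 1) := by
  induction k with
  | zero => simp; linarith
  | succ k ih =>
    have h1 : (x + S) * (S ^ (k + 1) + ((k : ℝ) + 1) * (x * S ^ k)) ≤ (x + S) * (x + S) ^ (k + 1) :=
      mul_le_mul_of_nonneg_left ih (by positivity)
    have h2 : (x + S) * (x + S) ^ (k + 1) = (x + S) ^ (k + 1 + 1) := by ring
    have h3 : (x + S) * (S ^ (k + 1) + ((k : ℝ) + 1) * (x * S ^ k)) =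
        S ^ (k + 1 + 1) + ((k : ℝ) + 1 + 1) * (x * S ^ (k + 1)) +
          ((k : ℝ) + 1) * (x * x * S ^ k) := by ring
    have h4 : 0 ≤ ((k : ℝ) + 1) * (x * x * S ^ k) := by positivity
    push_cast
    linarith

private theorem esymm_le (P : Finset ℕ) (x : ℕ → ℝ) (hx : ∀ q ∈ P, 0 ≤ x q) :
    ∀ j : ℕ, ∑ T ∈ P.powersetCard j, ∏ q ∈ T, x q ≤ (∑ q ∈ P, x q) ^ j / (j.factorial : ℝ) := by
  induction P using Finset.induction_on with
  | empty =>
    intro j
    rcases j with _ | j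
    · simp
    · simp [Finset.powersetCard_eq_empty.2]
  | insert p P hp ih =>
    have hx' : ∀ q ∈ P, 0 ≤ x q := fun q hq => hx q (mem_insert_of_mem hq)
    have ih' := ih hx'
    have hxp : 0 ≤ x p := hx p (mem_insert_self _ _)
    have hs : 0 ≤ ∑ q ∈ P, x q := sum_nonneg hx'
    intro j
    rcases j with _ | j
    · simp
    · rw [Finset.powersetCard_succ_insert hp, sum_union, sum_image, sum_insert hp]
      · have h1 : ∑ T ∈ P.powersetCard j, ∏ q ∈ insert p T, x q
            = x p * ∑ T ∈ P.powersetCard j, ∏ q ∈ T, x q := by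
          rw [mul_sum]
          refine sum_congr rfl fun T hT => ?_
          rw [prod_insert]
          intro h
          exact hp ((mem_powersetCard.1 hT).1 h)
        rw [h1]
        have h2 := ih' (j + 1)
        have h3 := mul_le_mul_of_nonneg_left (ih' j) hxp
        have h4 := bern hs hxp j
        have hf : (0 : ℝ) < (j.factorial : ℝ) := by exact_mod_cast j.factorial_pos
        have hj1 : (0 : ℝ) < (j : ℝ) + 1 := by positivity
        have hf1 : ((j + 1).factorial : ℝ) = ((j : ℝ) + 1) * (j.factorial : ℝ) := by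
          rw [Nat.factorial_succ]; push_cast; ring
        have hf1' : (0 : ℝ) < ((j + 1).factorial : ℝ) := by exact_mod_cast (j + 1).factorial_pos
        refine (add_le_add h2 h3).trans ?_
        have h5 : x p * ((∑ q ∈ P, x q) ^ j / (j.factorial : ℝ)) =
            (((j : ℝ) + 1) * (x p * (∑ q ∈ P, x q) ^ j)) / ((j + 1).factorial : ℝ) := by
          rw [hf1]; field_simp
        rw [h5, ← add_div]
        exact div_le_div_of_nonneg_right h4 hf1'.le
      · intro A hA B hB hAB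
        have hA' : p ∉ A := fun h => hp ((mem_powersetCard.1 hA).1 h)
        have hB' : p ∉ B := fun h => hp ((mem_powersetCard.1 hB).1 h)
        have := congrArg (fun S => S.erase p) hAB
        simpa [erase_insert hA', erase_insert hB'] using this
      · rw [disjoint_left]
        intro A hA hA'
        obtain ⟨B, hB, rfl⟩ := mem_image.1 hA'
        exact hp ((mem_powersetCard.1 hA).1 (mem_insert_self _ _))

/-- the odd squarefree integers up to `x` -/
private def Sq (x : ℕ) : Finset ℕ := (Icc 1 x).filter (fun s => Squarefree s ∧ ¬ 2 ∣ s)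

private theorem om_sq {x s : ℕ} (hs : s ∈ Sq x) : om x s = s.primeFactors.card := by
  rw [Sq, mem_filter, mem_Icc] at hs
  obtain ⟨⟨h1, h2⟩, h3, h4⟩ := hs
  have hnd : s.primeFactorsList.Nodup :=
    (Nat.squarefree_iff_nodup_primeFactorsList (by omega)).1 h3
  have hfil : s.primeFactorsList.filter (fun p => p ≠ 2 ∧ p ≤ x) = s.primeFactorsList := by
    apply List.filter_eq_self.2
    intro p hp
    have hp1 := Nat.dvd_of_mem_primeFactorsList hp
    have hp2 := Nat.le_of_dvd (by omega) hp1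
    simp only [decide_eq_true_eq]
    refine ⟨fun h => h4 (h ▸ hp1), by omega⟩
  rw [om, hfil, ← List.toFinset_card_of_nodup hnd]
  rfl

private theorem inner {κ M : ℝ} (h0 : 0 ≤ κ) (x : ℕ)
    (hM : ∀ k : ℕ, (κ * ∑ p ∈ pr 0 x, 1 / (p : ℝ)) ^ k / (k.factorial : ℝ) ≤ M) (k : ℕ) :
    ∑ s ∈ (Sq x).filter (fun s => om x s = k), κ ^ k / (s : ℝ) ≤ M := by
  have hinj : Set.InjOn Nat.primeFactors ((Sq x).filter (fun s => om x s = k) : Finset ℕ) := by
    intro s hs t ht hst
    have hs' := (mem_filter.1 (mem_coe.1 hs)).1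
    have ht' := (mem_filter.1 (mem_coe.1 ht)).1
    rw [Sq, mem_filter] at hs' ht'
    rw [← Nat.prod_primeFactors_of_squarefree hs'.2.1, ← Nat.prod_primeFactors_of_squarefree ht'.2.1,
      hst]
  have h1 : ∑ s ∈ (Sq x).filter (fun s => om x s = k), κ ^ k / (s : ℝ) =
      ∑ T ∈ ((Sq x).filter (fun s => om x s = k)).image Nat.primeFactors,
        ∏ p ∈ T, κ / (p : ℝ) := by
    rw [sum_image hinj]
    refine sum_congr rfl fun s hs => ?_
    rw [mem_filter] at hs
    have hc : s.primeFactors.card = k := by rw [← om_sq hs.1]; exact hs.2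
    have hsf := (mem_filter.1 hs.1).2.1
    rw [prod_div_distrib, prod_const, hc]
    congr 1
    rw [← Nat.cast_prod, Nat.prod_primeFactors_of_squarefree hsf]
  rw [h1]
  have h2 : ((Sq x).filter (fun s => om x s = k)).image Nat.primeFactors ⊆
      (pr 0 x).powersetCard k := by
    intro T hT
    obtain ⟨s, hs, rfl⟩ := mem_image.1 hT
    rw [mem_filter] at hs
    have hc : s.primeFactors.card = k := by rw [← om_sq hs.1]; exact hs.2
    rw [mem_powersetCard]
    refine ⟨fun p hp => ?_, hc⟩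
    have hs1 := mem_Icc.1 (mem_filter.1 hs.1).1
    have hp1 := Nat.prime_of_mem_primeFactors hp
    have hp2 := Nat.le_of_dvd (by omega) (Nat.dvd_of_mem_primeFactors hp)
    exact Helper52.mem_pr.2 ⟨hp1.pos, by omega, hp1⟩
  refine (sum_le_sum_of_subset_of_nonneg h2 fun T _ _ =>
    prod_nonneg fun p _ => div_nonneg h0 (Nat.cast_nonneg p)).trans ?_
  refine (esymm_le (pr 0 x) (fun p => κ / (p : ℝ))
    (fun p _ => div_nonneg h0 (Nat.cast_nonneg p)) k).trans ?_
  refine le_trans (le_of_eq ?_) (hM k)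
  congr 2
  rw [mul_sum]
  refine sum_congr rfl fun p _ => ?_
  rw [mul_one_div]

private theorem sum_sq_le (x : ℕ) : ∑ b ∈ Icc 1 x, 1 / (b : ℝ) ^ 2 ≤ 2 - 1 / (x : ℝ) := by
  induction x with
  | zero => simp
  | succ x ih =>
    rw [Finset.sum_Icc_succ_top (by omega)]
    rcases Nat.eq_zero_or_pos x with rfl | hx
    · simp; norm_num
    · have hx' : (0 : ℝ) < x := by exact_mod_cast hx
      have h1 : 1 / ((x : ℝ) + 1) ^ 2 ≤ 1 / (x : ℝ) - 1 / ((x : ℝ) + 1) := by
        rw [div_sub_div _ _ hx'.ne' (by positivity), div_le_div_iff₀ (by positivity) (by positivity)]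
        nlinarith
      push_cast
      linarith

private theorem decomp {x n : ℕ} (h1 : 1 ≤ n) (h2 : n ≤ x) : ∃ t : (ℕ × ℕ) × ℕ,
    t ∈ (range (x + 1) ×ˢ Icc 1 x) ×ˢ Sq x ∧ om x t.2 + 2 * om x t.1.2 = om x n ∧
      2 ^ t.1.1 * t.1.2 ^ 2 * t.2 = n := by
  have hn : n ≠ 0 := by omega
  obtain ⟨a, m, hm, hnm⟩ := Nat.exists_eq_two_pow_mul_odd hn
  obtain ⟨s, b, hbs, hs⟩ := Nat.sq_mul_squarefree m
  have hm0 : m ≠ 0 := by rintro rfl; simp at hm
  have hb0 : b ≠ 0 := by rintro rfl; simp at hbs; omega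
  have hs0 : s ≠ 0 := by rintro rfl; simp at hbs; omega
  have hmn : m ≤ n := by
    rw [hnm]; exact Nat.le_mul_of_pos_left _ (by positivity)
  have han : a ≤ n := by
    have : 2 ^ a ≤ n := by rw [hnm]; exact Nat.le_mul_of_pos_right _ (by omega)
    exact (Nat.lt_two_pow_self).le.trans this
  have hbm : b ≤ m := by
    rw [← hbs]
    calc b ≤ b ^ 2 := by nlinarith [Nat.pos_of_ne_zero hb0]
      _ ≤ b ^ 2 * s := Nat.le_mul_of_pos_right _ (by omega)
  have hsm : s ≤ m := by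
    rw [← hbs]
    exact Nat.le_mul_of_pos_left _ (by positivity)
  have hs2 : ¬ 2 ∣ s := by
    intro h
    have : 2 ∣ m := by rw [← hbs]; exact h.mul_left _
    rw [Nat.odd_iff] at hm
    omega
  refine ⟨((a, b), s), ?_, ?_, ?_⟩
  · rw [mem_product, mem_product, mem_range, mem_Icc, Sq, mem_filter, mem_Icc]
    refine ⟨⟨?_, ?_, ?_⟩, ⟨?_, ?_⟩, hs, hs2⟩
    · show a < x + 1; omega
    · show 1 ≤ b; omega
    · show b ≤ x; omega
    · show 1 ≤ s; omega
    · show s ≤ x; omega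
  · show om x s + 2 * om x b = om x n
    rw [hnm, om_mul x (by positivity) hm0, ← hbs, om_mul x (by positivity) hs0, pow_two,
      om_mul x hb0 hb0, om_pow Nat.prime_two]
    simp
    ring
  · show 2 ^ a * b ^ 2 * s = n
    rw [hnm, ← hbs]
    ring

private theorem sum_le_of_section (S : Finset ℕ) (T : Finset ((ℕ × ℕ) × ℕ))
    (g : (ℕ × ℕ) × ℕ → ℕ) (f : ℕ → ℝ) (hf : ∀ n, 0 ≤ f n)
    (h : ∀ n ∈ S, ∃ t, t ∈ T ∧ g t = n) : ∑ n ∈ S, f n ≤ ∑ t ∈ T, f (g t) := by
  choose! φ hφ using h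
  have hinj : Set.InjOn φ (S : Set ℕ) := by
    intro a ha b hb hab
    rw [← (hφ a ha).2, ← (hφ b hb).2, hab]
  have h1 : ∑ n ∈ S, f n = ∑ t ∈ S.image φ, f (g t) := by
    rw [sum_image hinj]
    exact sum_congr rfl fun n hn => by rw [(hφ n hn).2]
  rw [h1]
  refine sum_le_sum_of_subset_of_nonneg ?_ fun t _ _ => hf _
  intro t ht
  obtain ⟨n, hn, rfl⟩ := mem_image.1 ht
  exact (hφ n hn).1

theorem level_log {κ M : ℝ} (h0 : 0 ≤ κ) (h1 : κ ≤ 1) (x : ℕ)
    (hM : ∀ k : ℕ, (κ * ∑ p ∈ pr 0 x, 1 / (p : ℝ)) ^ k / (k.factorial : ℝ) ≤ M) (i : ℕ) :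
    ∑ n ∈ (Icc 1 x).filter (fun n => om x n = i), κ ^ i / (n : ℝ) ≤ 4 * M := by
  have hM1 : (1 : ℝ) ≤ M := by simpa using hM 0
  set T : Finset ((ℕ × ℕ) × ℕ) := ((range (x + 1) ×ˢ Icc 1 x) ×ˢ Sq x).filter
    (fun t => om x t.2 + 2 * om x t.1.2 = i) with hT
  have hstep := sum_le_of_section ((Icc 1 x).filter (fun n => om x n = i)) T
    (fun t => 2 ^ t.1.1 * t.1.2 ^ 2 * t.2) (fun n => κ ^ i / (n : ℝ))
    (fun n => div_nonneg (pow_nonneg h0 i) (Nat.cast_nonneg n)) (by
      intro n hn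
      rw [mem_filter, mem_Icc] at hn
      obtain ⟨t, ht1, ht2, ht3⟩ := decomp hn.1.1 hn.1.2
      exact ⟨t, by rw [hT, mem_filter]; exact ⟨ht1, by rw [ht2]; exact hn.2⟩, ht3⟩)
  refine hstep.trans ?_
  rw [hT, sum_filter, sum_product]
  have hin : ∀ ab ∈ range (x + 1) ×ˢ Icc 1 x,
      ∑ s ∈ Sq x, (if om x s + 2 * om x ab.2 = i then
        κ ^ i / ((2 ^ ab.1 * ab.2 ^ 2 * s : ℕ) : ℝ) else 0) ≤
        (1 / (2 : ℝ)) ^ ab.1 * (1 / (ab.2 : ℝ) ^ 2) * M := by
    intro ab _
    rcases Nat.lt_or_ge i (2 * om x ab.2) with hlt | hge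
    · rw [sum_eq_zero]
      · positivity
      · intro s _
        rw [if_neg (by omega)]
    · have h3 := inner h0 x hM (i - 2 * om x ab.2)
      have h4 : ∑ s ∈ Sq x, (if om x s + 2 * om x ab.2 = i then
          κ ^ i / ((2 ^ ab.1 * ab.2 ^ 2 * s : ℕ) : ℝ) else 0) =
          (1 / (2 : ℝ)) ^ ab.1 * (1 / (ab.2 : ℝ) ^ 2) * (κ ^ (2 * om x ab.2) *
            ∑ s ∈ (Sq x).filter (fun s => om x s = i - 2 * om x ab.2),
              κ ^ (i - 2 * om x ab.2) / (s : ℝ)) := by
        rw [sum_filter, mul_sum, mul_sum]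
        refine sum_congr rfl fun s _ => ?_
        by_cases hc : om x s + 2 * om x ab.2 = i
        · rw [if_pos hc, if_pos (by omega)]
          have : κ ^ i = κ ^ (2 * om x ab.2) * κ ^ (i - 2 * om x ab.2) := by
            rw [← pow_add]; congr 1; omega
          rw [this]
          push_cast
          rw [one_div, inv_pow]
          simp only [div_eq_mul_inv, mul_inv, one_mul]
          ring
        · rw [if_neg hc, if_neg (by omega)]
          simp
      rw [h4]
      refine mul_le_mul_of_nonneg_left ?_ (by positivity)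
      have h5 : κ ^ (2 * om x ab.2) ≤ 1 := pow_le_one₀ h0 h1
      have h6 : 0 ≤ ∑ s ∈ (Sq x).filter (fun s => om x s = i - 2 * om x ab.2),
          κ ^ (i - 2 * om x ab.2) / (s : ℝ) :=
        sum_nonneg fun s _ => div_nonneg (pow_nonneg h0 _) (Nat.cast_nonneg s)
      calc κ ^ (2 * om x ab.2) * _ ≤ 1 * _ := mul_le_mul_of_nonneg_right h5 h6
        _ = _ := one_mul _
        _ ≤ M := h3
  refine (sum_le_sum hin).trans ?_
  rw [← sum_mul, sum_product]
  have hprod : ∑ a ∈ range (x + 1), ∑ b ∈ Icc 1 x,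
      (1 / (2 : ℝ)) ^ (a, b).1 * (1 / (((a, b).2 : ℕ) : ℝ) ^ 2) =
      (∑ a ∈ range (x + 1), (1 / (2 : ℝ)) ^ a) * ∑ b ∈ Icc 1 x, 1 / (b : ℝ) ^ 2 := by
    rw [sum_mul_sum]
  rw [hprod]
  have hA : ∑ a ∈ range (x + 1), (1 / (2 : ℝ)) ^ a ≤ 2 := sum_geometric_two_le _
  have hB : ∑ b ∈ Icc 1 x, 1 / (b : ℝ) ^ 2 ≤ 2 := by
    refine (sum_sq_le x).trans ?_
    have : (0 : ℝ) ≤ 1 / (x : ℝ) := by positivity
    linarith
  have hB0 : 0 ≤ ∑ b ∈ Icc 1 x, 1 / (b : ℝ) ^ 2 := sum_nonneg fun b _ => by positivity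
  refine mul_le_mul_of_nonneg_right ?_ (by linarith)
  calc _ ≤ 2 * 2 := mul_le_mul hA hB hB0 (by norm_num)
    _ = 4 := by norm_num

end Pool.Agent.MEN
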