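import Pool.Agent.MEN.Bas

set_option autoImplicit false

/-!
MEN-GenS. The passage from logarithmic sums to sums: `∑ f n * log n` is the sum of `log p * f (m * p ^ k)` over all
`m * p ^ k ≤ x`; the terms with `k = 1` and odd `p` are bounded by Chebyshev's theorem, the others trivially.
-/

namespace Pool.Agent.MEN

open Finset

private theorem gs_sum {x y : ℕ} {g : ℕ → ℝ} {D c : ℝ} (hg : ∀ n, 0 ≤ g n)
    (hD : ∑ n ∈ Icc 1 x, g n / (n : ℝ) ≤ D) (hy : y ≤ x) (hc : (y : ℝ) ≤ c) :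
    ∑ n ∈ Icc 1 y, g n ≤ c * D := by
  have hc0 : 0 ≤ c := (Nat.cast_nonneg y).trans hc
  have h1 : ∑ n ∈ Icc 1 y, g n ≤ ∑ n ∈ Icc 1 y, c * (g n / (n : ℝ)) := by
    refine sum_le_sum fun n hn => ?_
    obtain ⟨hn1, hn2⟩ := mem_Icc.1 hn
    have hn0 : (0 : ℝ) < n := Nat.cast_pos.2 hn1
    have hnc : (n : ℝ) ≤ c := (Nat.cast_le.2 hn2).trans hc
    have h2 : g n = n * (g n / n) := by field_simp
    calc g n = n * (g n / n) := h2
      _ ≤ c * (g n / n) := mul_le_mul_of_nonneg_right hnc (div_nonneg (hg n) hn0.le)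
  rw [← mul_sum] at h1
  refine h1.trans (mul_le_mul_of_nonneg_left (le_trans ?_ hD) hc0)
  exact sum_le_sum_of_subset_of_nonneg (Icc_subset_Icc_right hy)
    fun n _ _ => div_nonneg (hg n) (Nat.cast_nonneg n)

/-- the primes up to `x` -/
private def gp (x : ℕ) : Finset ℕ := (Icc 1 x).filter Nat.Prime

private theorem mem_gp {x p : ℕ} : p ∈ gp x ↔ p ≤ x ∧ p.Prime := by
  rw [gp, mem_filter, mem_Icc]
  exact ⟨fun h => ⟨h.1.2, h.2⟩, fun h => ⟨⟨h.2.one_lt.le, h.1⟩, h.2⟩⟩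

private theorem gs_log {x n : ℕ} (hn : 1 ≤ n) (hx : n ≤ x) : Real.log n =
    ∑ p ∈ gp x, ∑ k ∈ Icc 1 x, if p ^ k ∣ n then Real.log p else 0 := by
  rw [Real.log_nat_eq_sum_factorization]
  have hn0 : n ≠ 0 := by omega
  have h1 : (n.factorization.sum fun p t => (t : ℝ) * Real.log p) =
      ∑ p ∈ gp x, (n.factorization p : ℝ) * Real.log p := by
    refine Finsupp.sum_of_support_subset _ ?_ _ (fun p _ => by simp)
    intro p hp
    have hp' : p ∈ n.primeFactors := by rwa [Nat.support_factorization] at hp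
    exact mem_gp.2 ⟨(Nat.le_of_dvd hn (Nat.dvd_of_mem_primeFactors hp')).trans hx,
      Nat.prime_of_mem_primeFactors hp'⟩
  rw [h1]
  refine sum_congr rfl fun p hp => ?_
  obtain ⟨hp1, hp2⟩ := mem_gp.1 hp
  rw [← sum_filter, sum_const, nsmul_eq_mul]
  congr 2
  have h2 : (Icc 1 x).filter (fun k => p ^ k ∣ n) = Icc 1 (n.factorization p) := by
    ext k
    rw [mem_filter, mem_Icc, mem_Icc, hp2.pow_dvd_iff_le_factorization hn0]
    constructor
    · rintro ⟨⟨h3, _⟩, h4⟩; exact ⟨h3, h4⟩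
    · rintro ⟨h3, h4⟩
      refine ⟨⟨h3, ?_⟩, h4⟩
      have h5 : p ^ (n.factorization p) ≤ n := Nat.ordProj_le p hn0
      have h6 : n.factorization p < p ^ (n.factorization p) := Nat.lt_pow_self hp2.one_lt
      omega
  rw [h2, Nat.card_Icc]
  omega

private theorem gs_expand (x : ℕ) {f : ℕ → ℝ} (hf : ∀ n, 0 ≤ f n) :
    ∑ n ∈ Icc 1 x, f n * Real.log n ≤
      ∑ p ∈ gp x, Real.log p * ∑ k ∈ Icc 1 x, ∑ m ∈ Icc 1 (x / p ^ k), f (m * p ^ k) := by
  have h1 : ∑ n ∈ Icc 1 x, f n * Real.log n = ∑ p ∈ gp x, ∑ k ∈ Icc 1 x,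
      ∑ n ∈ Icc 1 x, f n * (if p ^ k ∣ n then Real.log p else 0) := by
    rw [sum_congr rfl fun n hn => by
      rw [gs_log (mem_Icc.1 hn).1 (mem_Icc.1 hn).2, mul_sum], sum_comm]
    refine sum_congr rfl fun p _ => ?_
    rw [sum_congr rfl fun n _ => mul_sum _ _ _, sum_comm]
  rw [h1]
  refine sum_le_sum fun p hp => ?_
  obtain ⟨_, hp2⟩ := mem_gp.1 hp
  rw [mul_sum]
  refine sum_le_sum fun k _ => ?_
  have hlog : 0 ≤ Real.log p := Real.log_natCast_nonneg p
  have hq : 0 < p ^ k := pow_pos hp2.pos k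
  have h2 : ∑ n ∈ Icc 1 x, f n * (if p ^ k ∣ n then Real.log p else 0) =
      Real.log p * ∑ n ∈ (Icc 1 x).filter (fun n => p ^ k ∣ n), f n := by
    rw [mul_sum, sum_filter]
    refine sum_congr rfl fun n _ => ?_
    split_ifs
    · ring
    · ring
  rw [h2]
  refine mul_le_mul_of_nonneg_left ?_ hlog
  have h3 : ∑ m ∈ Icc 1 (x / p ^ k), f (m * p ^ k) =
      ∑ n ∈ (Icc 1 (x / p ^ k)).image (fun m => m * p ^ k), f n := by
    rw [sum_image]
    intro a _ b _ hab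
    exact Nat.eq_of_mul_eq_mul_right hq hab
  rw [h3]
  refine sum_le_sum_of_subset_of_nonneg ?_ fun n _ _ => hf n
  intro n hn
  obtain ⟨hn1, c, hc⟩ := mem_filter.1 hn
  obtain ⟨hn2, hn3⟩ := mem_Icc.1 hn1
  refine mem_image.2 ⟨c, mem_Icc.2 ⟨?_, ?_⟩, ?_⟩
  · rcases Nat.eq_zero_or_pos c with rfl | h
    · rw [mul_zero] at hc; omega
    · exact h
  · rw [Nat.le_div_iff_mul_le hq, mul_comm, ← hc]
    exact hn3
  · rw [mul_comm]; exact hc.symm

private theorem gs_theta (n : ℕ) : ∑ p ∈ gp n, Real.log p ≤ Real.log 4 * n := by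
  have h1 := Chebyshev.theta_le_log4_mul_x (Nat.cast_nonneg (α := ℝ) n)
  refine le_trans (le_of_eq ?_) h1
  rw [Chebyshev.theta, Nat.floor_natCast]
  refine sum_congr ?_ fun _ _ => rfl
  ext p
  rw [mem_gp, mem_filter, mem_Ioc]
  exact ⟨fun h => ⟨⟨h.2.pos, h.1⟩, h.2⟩, fun h => ⟨h.1.2, h.2⟩⟩

/-- the terms with `k = 1` -/
private theorem gs_one {x : ℕ} {G : ℕ → ℝ} {D : ℝ} (hG : ∀ n, 0 ≤ G n)
    (hD : ∑ n ∈ Icc 1 x, G n / (n : ℝ) ≤ D) :
    ∑ p ∈ gp x, Real.log p * ∑ m ∈ Icc 1 (x / p), G m ≤ Real.log 4 * x * D := by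
  have h1 : ∑ p ∈ gp x, Real.log p * ∑ m ∈ Icc 1 (x / p), G m =
      ∑ m ∈ Icc 1 x, ∑ p ∈ gp (x / m), Real.log p * G m := by
    rw [sum_congr rfl fun p _ => mul_sum _ _ _]
    refine sum_comm' fun p m => ?_
    rw [mem_gp, mem_gp, mem_Icc, mem_Icc]
    constructor
    · rintro ⟨⟨h2, h3⟩, h4, h5⟩
      have h6 := (Nat.le_div_iff_mul_le h3.pos).1 h5
      refine ⟨⟨(Nat.le_div_iff_mul_le h4).2 (by rwa [mul_comm]), h3⟩, h4, ?_⟩
      exact (Nat.le_mul_of_pos_right m h3.pos).trans h6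
    · rintro ⟨⟨h2, h3⟩, h4, h5⟩
      have h6 := (Nat.le_div_iff_mul_le h4).1 h2
      refine ⟨⟨(Nat.le_mul_of_pos_right p h4).trans h6, h3⟩, h4, ?_⟩
      exact (Nat.le_div_iff_mul_le h3.pos).2 (by rwa [mul_comm])
  rw [h1]
  have hl4 : 0 ≤ Real.log 4 := Real.log_nonneg (by norm_num)
  calc ∑ m ∈ Icc 1 x, ∑ p ∈ gp (x / m), Real.log p * G m
      ≤ ∑ m ∈ Icc 1 x, Real.log 4 * x * (G m / m) := by
        refine sum_le_sum fun m hm => ?_
        have hm0 : (0 : ℝ) < m := Nat.cast_pos.2 (mem_Icc.1 hm).1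
        rw [← sum_mul]
        have h2 : ∑ p ∈ gp (x / m), Real.log p ≤ Real.log 4 * (x / m) := by
          refine (gs_theta (x / m)).trans (mul_le_mul_of_nonneg_left Nat.cast_div_le hl4)
        calc (∑ p ∈ gp (x / m), Real.log p) * G m ≤ Real.log 4 * (x / m) * G m :=
              mul_le_mul_of_nonneg_right h2 (hG m)
          _ = Real.log 4 * x * (G m / m) := by ring
    _ ≤ Real.log 4 * x * D := by
        rw [← mul_sum]
        exact mul_le_mul_of_nonneg_left hD (mul_nonneg hl4 (Nat.cast_nonneg x))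

private theorem gs_summable : Summable fun n : ℕ => Real.log n / (n : ℝ) ^ 2 := by
  have h1 : Summable fun n : ℕ => 2 * (1 / (n : ℝ) ^ (3 / 2 : ℝ)) :=
    (Real.summable_one_div_nat_rpow.2 (by norm_num)).mul_left 2
  refine Summable.of_nonneg_of_le (fun n => div_nonneg (Real.log_natCast_nonneg n)
    (by positivity)) (fun n => ?_) h1
  rcases Nat.eq_zero_or_pos n with rfl | hn
  · simp
  · have hn0 : (0 : ℝ) < n := Nat.cast_pos.2 hn
    have h2 : Real.log n ≤ (n : ℝ) ^ (1 / 2 : ℝ) / (1 / 2) :=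
      Real.log_le_rpow_div hn0.le (by norm_num)
    have h3 : (n : ℝ) ^ 2 = (n : ℝ) ^ (1 / 2 : ℝ) * (n : ℝ) ^ (3 / 2 : ℝ) := by
      rw [← Real.rpow_add hn0, ← Real.rpow_natCast]
      norm_num
    have h4 : (0 : ℝ) < (n : ℝ) ^ (1 / 2 : ℝ) := Real.rpow_pos_of_pos hn0 _
    have h5 : (0 : ℝ) < (n : ℝ) ^ (3 / 2 : ℝ) := Real.rpow_pos_of_pos hn0 _
    rw [h3, div_le_iff₀ (mul_pos h4 h5)]
    calc Real.log n ≤ (n : ℝ) ^ (1 / 2 : ℝ) / (1 / 2) := h2
      _ = 2 * (1 / (n : ℝ) ^ (3 / 2 : ℝ)) *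
          ((n : ℝ) ^ (1 / 2 : ℝ) * (n : ℝ) ^ (3 / 2 : ℝ)) := by
        field_simp

/-- a geometric sum -/
private theorem gs_geo {q r : ℝ} (hq : 0 ≤ q) (hqr : q ≤ r) (hr : r < 1) (x : ℕ) :
    ∑ k ∈ Icc 2 x, q ^ k ≤ q ^ 2 / (1 - r) := by
  have h0 : 0 < 1 - r := by linarith
  have h1 : ∑ k ∈ Icc 2 x, q ^ k ≤ q ^ 2 * ∑ k ∈ range x, r ^ k := by
    have h2 : ∑ k ∈ Icc 2 x, q ^ k = ∑ j ∈ range (x - 1), q ^ (j + 2) := by
      have h3 : Icc 2 x = Ico 2 (x + 1) := by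
        ext k
        rw [mem_Icc, mem_Ico]
        omega
      rw [h3, Finset.sum_Ico_eq_sum_range]
      have h4 : x + 1 - 2 = x - 1 := by omega
      rw [h4]
      exact sum_congr rfl fun j _ => by rw [add_comm]
    rw [h2, mul_sum]
    calc ∑ j ∈ range (x - 1), q ^ (j + 2) ≤ ∑ j ∈ range (x - 1), q ^ 2 * r ^ j := by
          refine sum_le_sum fun j _ => ?_
          rw [pow_add, mul_comm]
          exact mul_le_mul_of_nonneg_left (pow_le_pow_left₀ hq hqr j) (by positivity)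
      _ ≤ _ := sum_le_sum_of_subset_of_nonneg (range_subset_range.2 (Nat.sub_le x 1))
          fun j _ _ => mul_nonneg (by positivity) (pow_nonneg (hq.trans hqr) j)
  refine h1.trans ?_
  rw [div_eq_mul_inv]
  refine mul_le_mul_of_nonneg_left ?_ (by positivity)
  have h3 : Summable fun k : ℕ => r ^ k := summable_geometric_of_lt_one (hq.trans hqr) hr
  rw [← tsum_geometric_of_lt_one (hq.trans hqr) hr]
  exact h3.sum_le_tsum _ fun k _ => pow_nonneg (hq.trans hqr) k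

theorem gen_sum {z : ℝ} (hz0 : 0 ≤ z) (hz : z < 3) : ∃ C : ℝ, 1 ≤ C ∧
    ∀ (x : ℕ) (f : ℕ → ℝ) (G : ℕ → ℕ → ℝ) (D : ℝ), 2 ≤ x → 0 ≤ D → (∀ n, 0 ≤ f n) →
    (∀ k n, 0 ≤ G k n) →
    (∀ m k : ℕ, 1 ≤ m → f (m * 2 ^ k) ≤ G 0 m) →
    (∀ m p k : ℕ, 1 ≤ m → p.Prime → p ≠ 2 → 1 ≤ k → m * p ^ k ≤ x →
      f (m * p ^ k) ≤ z ^ k * G k m) →
    (∀ k, ∑ n ∈ Icc 1 x, G k n / (n : ℝ) ≤ D) →
    ∑ n ∈ Icc 1 x, f n ≤ C * (x / Real.log x * D) := by
  obtain ⟨K, hK⟩ : ∃ K : ℝ, K = ∑' n : ℕ, Real.log n / (n : ℝ) ^ 2 := ⟨_, rfl⟩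
  have hK0 : 0 ≤ K := by
    rw [hK]
    exact tsum_nonneg fun n => div_nonneg (Real.log_natCast_nonneg n) (by positivity)
  have hz3 : 0 < 1 - z / 3 := by linarith
  have hl4 : 0 ≤ Real.log 4 := Real.log_nonneg (by norm_num)
  have hl2 : 0 ≤ Real.log 2 := Real.log_nonneg (by norm_num)
  obtain ⟨C1, hC1⟩ : ∃ C1 : ℝ, C1 = z * Real.log 4 + z ^ 2 / (1 - z / 3) * K + Real.log 2 :=
    ⟨_, rfl⟩
  have hC10 : 0 ≤ C1 := by
    rw [hC1]
    positivity
  refine ⟨2 + 2 * C1, by linarith, fun x f G D hx hD hf hG h2 hp hGD => ?_⟩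
  have hx0 : (0 : ℝ) < x := Nat.cast_pos.2 (by omega)
  have hlx : 0 < Real.log x := Real.log_pos (by exact_mod_cast hx)
  have hdiv : ∀ q : ℕ, ((x / q : ℕ) : ℝ) ≤ (x : ℝ) / q := fun q => Nat.cast_div_le
  -- the sums over `m`
  have hT : ∀ p ∈ gp x, p ≠ 2 → ∀ k ∈ Icc 1 x,
      ∑ m ∈ Icc 1 (x / p ^ k), f (m * p ^ k) ≤ z ^ k * ∑ m ∈ Icc 1 (x / p ^ k), G k m := by
    intro p hpx hp2 k hk
    rw [mul_sum]
    refine sum_le_sum fun m hm => ?_
    obtain ⟨hm1, hm2⟩ := mem_Icc.1 hm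
    have hpp := (mem_gp.1 hpx).2
    exact hp m p k hm1 hpp hp2 (mem_Icc.1 hk).1
      ((Nat.le_div_iff_mul_le (pow_pos hpp.pos k)).1 hm2)
  have hbig : ∑ n ∈ Icc 1 x, f n * Real.log n ≤ C1 * (x * D) := by
    refine (gs_expand x hf).trans ?_
    have hterm : ∀ p ∈ gp x, Real.log p * ∑ k ∈ Icc 1 x, ∑ m ∈ Icc 1 (x / p ^ k),
        f (m * p ^ k) ≤ z * (Real.log p * ∑ m ∈ Icc 1 (x / p), G 1 m) +
          z ^ 2 / (1 - z / 3) * (x * D) * (Real.log p / (p : ℝ) ^ 2) +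
          (if p = 2 then Real.log 2 * (x * D) else 0) := by
      intro p hpx
      obtain ⟨hpx1, hpp⟩ := mem_gp.1 hpx
      have hlp : 0 ≤ Real.log p := Real.log_natCast_nonneg p
      have hp0 : (0 : ℝ) < p := Nat.cast_pos.2 hpp.pos
      have hA : 0 ≤ z * (Real.log p * ∑ m ∈ Icc 1 (x / p), G 1 m) :=
        mul_nonneg hz0 (mul_nonneg hlp (sum_nonneg fun m _ => hG 1 m))
      have hB : 0 ≤ z ^ 2 / (1 - z / 3) * (x * D) * (Real.log p / (p : ℝ) ^ 2) := by
        positivity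
      by_cases hp2 : p = 2
      · rw [if_pos hp2]
        have h3 : ∑ k ∈ Icc 1 x, ∑ m ∈ Icc 1 (x / p ^ k), f (m * p ^ k) ≤ x * D := by
          rw [hp2]
          have h4 : ∀ k ∈ Icc 1 x, ∑ m ∈ Icc 1 (x / 2 ^ k), f (m * 2 ^ k) ≤
              (x * D) * (1 / 2) ^ k := by
            intro k _
            have h5 : ∑ m ∈ Icc 1 (x / 2 ^ k), f (m * 2 ^ k) ≤
                ∑ m ∈ Icc 1 (x / 2 ^ k), G 0 m :=
              sum_le_sum fun m hm => h2 m k (mem_Icc.1 hm).1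
            have h6 := gs_sum (hG 0) (hGD 0) (Nat.div_le_self x (2 ^ k)) (hdiv (2 ^ k))
            refine h5.trans (h6.trans (le_of_eq ?_))
            push_cast
            rw [one_div, inv_pow]
            ring
          refine (sum_le_sum h4).trans ?_
          rw [← mul_sum]
          have h7 : ∑ k ∈ Icc 1 x, ((1 : ℝ) / 2) ^ k ≤ 1 := by
            have h8 : ∀ y : ℕ, ∑ k ∈ Icc 1 y, ((1 : ℝ) / 2) ^ k = 1 - (1 / 2) ^ y := by
              intro y
              induction y with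
              | zero => simp
              | succ y ih =>
                rw [sum_Icc_succ_top (by omega), ih, pow_succ]
                ring
            rw [h8]
            have : (0 : ℝ) ≤ (1 / 2) ^ x := by positivity
            linarith
          have h9 : 0 ≤ (x : ℝ) * D := by positivity
          nlinarith
        have h4 : Real.log p * ∑ k ∈ Icc 1 x, ∑ m ∈ Icc 1 (x / p ^ k), f (m * p ^ k) ≤
            Real.log 2 * (x * D) := by
          have e : Real.log p = Real.log 2 := by rw [hp2]; norm_num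
          rw [e]
          exact mul_le_mul_of_nonneg_left h3 hl2
        linarith
      · rw [if_neg hp2]
        have hp3 : 3 ≤ p := by
          have := hpp.two_le
          omega
        have hp3' : (3 : ℝ) ≤ p := by exact_mod_cast hp3
        have h1x : 1 ≤ x := by omega
        have h3 : ∑ k ∈ Icc 1 x, ∑ m ∈ Icc 1 (x / p ^ k), f (m * p ^ k) ≤
            z * ∑ m ∈ Icc 1 (x / p), G 1 m + (x * D) * ∑ k ∈ Icc 2 x, (z / p) ^ k := by
          rw [← Finset.insert_Icc_succ_left_eq_Icc h1x, sum_insert (by simp)]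
          refine add_le_add ?_ ?_
          · have h4 := hT p hpx hp2 1 (mem_Icc.2 ⟨le_rfl, h1x⟩)
            simpa using h4
          · rw [mul_sum]
            refine sum_le_sum fun k hk => ?_
            obtain ⟨hk1, hk2⟩ := mem_Icc.1 hk
            have h4 := hT p hpx hp2 k (mem_Icc.2 ⟨by
              have : 1 + 1 ≤ k := hk1
              omega, hk2⟩)
            have h6 := gs_sum (hG k) (hGD k) (Nat.div_le_self x (p ^ k)) (hdiv (p ^ k))
            refine h4.trans ((mul_le_mul_of_nonneg_left h6 (pow_nonneg hz0 k)).trans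
              (le_of_eq ?_))
            push_cast
            rw [div_pow]
            ring
        have hq : z / p ≤ z / 3 := div_le_div_of_nonneg_left hz0 (by norm_num) hp3'
        have h5 := gs_geo (div_nonneg hz0 hp0.le) hq (by linarith) x
        have h6 : 0 ≤ (x : ℝ) * D := by positivity
        have h7 := mul_le_mul_of_nonneg_left h5 h6
        have h8 := mul_le_mul_of_nonneg_left (h3.trans (add_le_add_right h7 _)) hlp
        refine h8.trans (le_of_eq ?_)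
        rw [div_pow]
        field_simp
        ring
    refine (sum_le_sum hterm).trans ?_
    rw [sum_add_distrib, sum_add_distrib, ← mul_sum, ← mul_sum]
    have e1 : ∑ p ∈ gp x, Real.log p * ∑ m ∈ Icc 1 (x / p), G 1 m ≤ Real.log 4 * x * D :=
      gs_one (hG 1) (hGD 1)
    have e2 : ∑ p ∈ gp x, Real.log p / (p : ℝ) ^ 2 ≤ K := by
      rw [hK]
      exact gs_summable.sum_le_tsum _ fun n _ =>
        div_nonneg (Real.log_natCast_nonneg n) (by positivity)
    have e3 : ∑ p ∈ gp x, (if p = 2 then Real.log 2 * (x * D) else 0) ≤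
        Real.log 2 * (x * D) := by
      rw [sum_ite_eq']
      split_ifs
      · exact le_rfl
      · positivity
    have h6 : 0 ≤ z ^ 2 / (1 - z / 3) * (x * D) := by positivity
    have e1' := mul_le_mul_of_nonneg_left e1 hz0
    have e2' := mul_le_mul_of_nonneg_left e2 h6
    rw [hC1]
    linarith
  -- small `n`
  have hsq : Real.sqrt x ≤ 2 * (x / Real.log x) := by
    have h3 : 0 < Real.sqrt x := Real.sqrt_pos.2 hx0
    have h4 : Real.log x = 2 * Real.log (Real.sqrt x) := by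
      rw [Real.log_sqrt hx0.le]
      ring
    have h5 := Real.log_le_sub_one_of_pos h3
    have h6 : Real.log x ≤ 2 * Real.sqrt x := by linarith
    rw [← mul_div_assoc, le_div_iff₀ hlx]
    have h7 : Real.sqrt x * Real.sqrt x = x := Real.mul_self_sqrt hx0.le
    nlinarith
  have hsplit := sum_filter_add_sum_filter_not (Icc 1 x) (fun n => n * n ≤ x) f
  have hs1 : ∑ n ∈ (Icc 1 x).filter (fun n => n * n ≤ x), f n ≤ Real.sqrt x * D := by
    have h3 : ∑ n ∈ (Icc 1 x).filter (fun n => n * n ≤ x), f n ≤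
        ∑ n ∈ Icc 1 (Nat.sqrt x), G 0 n := by
      refine le_trans (sum_le_sum fun n hn => ?_) (sum_le_sum_of_subset_of_nonneg
        (fun n hn => ?_) fun n _ _ => hG 0 n)
      · have h4 := h2 n 0 (mem_Icc.1 (mem_filter.1 hn).1).1
        rwa [pow_zero, mul_one] at h4
      · obtain ⟨h4, h5⟩ := mem_filter.1 hn
        exact mem_Icc.2 ⟨(mem_Icc.1 h4).1, Nat.le_sqrt.2 h5⟩
    exact h3.trans (gs_sum (hG 0) (hGD 0) (Nat.sqrt_le_self x) Real.nat_sqrt_le_real_sqrt)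
  have hs2 : ∑ n ∈ (Icc 1 x).filter (fun n => ¬ n * n ≤ x), f n ≤
      2 / Real.log x * (C1 * (x * D)) := by
    refine le_trans ?_ (mul_le_mul_of_nonneg_left hbig (by positivity))
    rw [mul_sum]
    refine le_trans (sum_le_sum (g := fun n => 2 / Real.log x * (f n * Real.log n))
      fun n hn => ?_) (sum_le_sum_of_subset_of_nonneg (filter_subset _ _) fun n _ _ =>
        mul_nonneg (by positivity) (mul_nonneg (hf n) (Real.log_natCast_nonneg n)))
    obtain ⟨h4, h5⟩ := mem_filter.1 hn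
    have hn1 := (mem_Icc.1 h4).1
    have hn0 : (0 : ℝ) < n := Nat.cast_pos.2 hn1
    have h6 : (x : ℝ) ≤ (n : ℝ) * n := by
      have : x ≤ n * n := by omega
      exact_mod_cast this
    have h7 : Real.log x ≤ 2 * Real.log n := by
      have h8 := Real.log_le_log hx0 h6
      rw [Real.log_mul hn0.ne' hn0.ne'] at h8
      linarith
    have h9 : 1 ≤ 2 / Real.log x * Real.log n := by
      rw [div_mul_eq_mul_div, le_div_iff₀ hlx]
      linarith
    calc f n = 1 * f n := (one_mul _).symm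
      _ ≤ 2 / Real.log x * Real.log n * f n := mul_le_mul_of_nonneg_right h9 (hf n)
      _ = 2 / Real.log x * (f n * Real.log n) := by ring
  have hs1' := hs1.trans (mul_le_mul_of_nonneg_right hsq hD)
  rw [← hsplit]
  refine (add_le_add hs1' hs2).trans (le_of_eq ?_)
  field_simp

end Pool.Agent.MEN
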