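import Pool.Agent.MEN.Poi
import Pool.Agent.MEN.Esy
import Pool.Agent.MEN.GenS
import Pool.Agent.MEN.Mer

set_option autoImplicit false

/-!
MEN-Ant. Few integers have `κ * log log N + O(1)` odd prime factors or less: the logarithmic sum over
the integers with exactly `i` odd prime factors is a small multiple of `κ ^ (-i) (log x) ^ κ` (Poisson
weights), `gen_sum` turns this into a count for every level, and the levels up to `κ * log log N + M`
form a geometric sum.
-/

namespace Pool.Agent.MEN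

open Finset
open Helper52 (pr)

private theorem lvl {κ : ℝ} (h0 : 0 < κ) (h1 : κ < 1) {δ : ℝ} (hδ : 0 < δ) :
    ∃ X : ℕ, 3 ≤ X ∧ ∀ x : ℕ, X ≤ x → ∀ i : ℕ,
      ∑ n ∈ (Icc 1 x).filter (fun n => om x n = i), κ ^ i / (n : ℝ) ≤ δ * Real.log x ^ κ := by
  obtain ⟨C, hC, hm⟩ := mert_sum0
  have hE : 0 < Real.exp (κ * C) := Real.exp_pos _
  obtain ⟨Λ, hΛ, hP⟩ := poisson_small (ε := δ / (4 * Real.exp (κ * C))) (by positivity)
  have htend : Filter.Tendsto (fun x : ℕ => Real.log (Real.log x)) Filter.atTop Filter.atTop :=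
    Real.tendsto_log_atTop.comp (Real.tendsto_log_atTop.comp tendsto_natCast_atTop_atTop)
  obtain ⟨X, hX⟩ := Filter.eventually_atTop.1 (htend.eventually_ge_atTop (Λ / κ + C))
  refine ⟨max X 3, le_max_right _ _, fun x hx i => ?_⟩
  have hx3 : 3 ≤ x := (le_max_right _ _).trans hx
  have hl : 0 < Real.log x := Real.log_pos (by exact_mod_cast (by omega : 1 < x))
  have h2 := hm x (by omega)
  rw [abs_le] at h2
  have h3 := hX x ((le_max_left _ _).trans hx)
  have h4 : Λ ≤ κ * ∑ p ∈ pr 0 x, 1 / (p : ℝ) := by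
    have h : Λ / κ ≤ ∑ p ∈ pr 0 x, 1 / (p : ℝ) := by linarith [h2.1]
    rw [div_le_iff₀ h0] at h
    linarith
  have h5 : Real.exp (κ * ∑ p ∈ pr 0 x, 1 / (p : ℝ)) ≤
      Real.exp (κ * C) * Real.log x ^ κ := by
    rw [Real.rpow_def_of_pos hl, ← Real.exp_add]
    apply Real.exp_le_exp.2
    have h := mul_le_mul_of_nonneg_left (show ∑ p ∈ pr 0 x, 1 / (p : ℝ) ≤
      C + Real.log (Real.log x) by linarith [h2.2]) h0.le
    linarith
  have h6 := level_log h0.le h1.le x (M := δ / 4 * Real.log x ^ κ) (fun k => by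
    refine (hP _ h4 k).trans ?_
    refine (mul_le_mul_of_nonneg_left h5 (by positivity)).trans (le_of_eq ?_)
    field_simp) i
  linarith [h6]

private theorem cnt {κ : ℝ} (h0 : 0 < κ) (h1 : κ < 1) :
    ∃ C : ℝ, 1 ≤ C ∧ ∀ δ : ℝ, 0 < δ → ∃ X : ℕ, 3 ≤ X ∧ ∀ x : ℕ, X ≤ x → ∀ j : ℕ,
      κ ^ j * (((Icc 1 x).filter (fun n => om x n = j)).card : ℝ) ≤
        C * (x / Real.log x * (δ * Real.log x ^ κ)) := by
  obtain ⟨C, hC, hgen⟩ := gen_sum (z := 1) zero_le_one (by norm_num)
  refine ⟨C, hC, fun δ hδ => ?_⟩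
  obtain ⟨X, hX3, hX⟩ := lvl h0 h1 hδ
  refine ⟨X, hX3, fun x hx j => ?_⟩
  have hx3 : 3 ≤ x := hX3.trans hx
  have hl : 0 < Real.log x := Real.log_pos (by exact_mod_cast (by omega : 1 < x))
  have hD : 0 ≤ δ * Real.log x ^ κ := by positivity
  have h := hgen x (fun n => if om x n = j then κ ^ j else 0)
    (fun k n => if om x n + k = j then κ ^ (om x n) else 0) (δ * Real.log x ^ κ) (by omega) hD
    (fun n => by split_ifs <;> positivity)
    (fun k n => by split_ifs <;> positivity)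
    (fun m k hm => by
      have e : om x (m * 2 ^ k) = om x m := by
        rw [om_mul x (by omega) (by positivity), om_pow Nat.prime_two]
        simp
      rw [e]
      by_cases hj : om x m = j
      · rw [if_pos hj, if_pos (by omega), hj]
      · rw [if_neg hj, if_neg (by omega)])
    (fun m p k hm hp hp2 hk hmx => by
      have hpx : p ≤ x := by
        have h2 : p ≤ p ^ k := Nat.le_self_pow (by omega) p
        have h3 : p ^ k ≤ m * p ^ k := Nat.le_mul_of_pos_left _ (by omega)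
        omega
      have e : om x (m * p ^ k) = om x m + k := by
        rw [om_mul x (by omega) (pow_ne_zero k hp.ne_zero), om_pow hp, if_pos ⟨hp2, hpx⟩]
      rw [e, one_pow, one_mul]
      by_cases hj : om x m + k = j
      · rw [if_pos hj, if_pos hj]
        exact pow_le_pow_of_le_one h0.le h1.le (by omega)
      · rw [if_neg hj, if_neg hj])
    (fun k => by
      have e : ∀ n ∈ Icc 1 x, (if om x n + k = j then κ ^ (om x n) else 0) / (n : ℝ) =
          if om x n + k = j then κ ^ (om x n) / (n : ℝ) else 0 := by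
        intro n _
        split_ifs <;> simp
      rw [sum_congr rfl e, ← sum_filter]
      by_cases hk : k ≤ j
      · refine le_trans (le_of_eq ?_) (hX x hx (j - k))
        refine sum_congr ?_ ?_
        · ext n
          simp only [mem_filter]
          constructor
          · rintro ⟨h2, h3⟩
            exact ⟨h2, by omega⟩
          · rintro ⟨h2, h3⟩
            exact ⟨h2, by omega⟩
        · intro n hn
          rw [(mem_filter.1 hn).2]
      · rw [filter_false_of_mem (fun n _ => by omega), sum_empty]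
        exact hD)
  refine le_trans (le_of_eq ?_) h
  rw [← sum_filter, sum_const, nsmul_eq_mul, mul_comm]

private theorem geo {κ : ℝ} (h0 : 0 < κ) (h1 : κ < 1) (J : ℕ) :
    ∑ j ∈ range (J + 1), (κ ^ j)⁻¹ ≤ (κ ^ J)⁻¹ / (1 - κ) := by
  have hk : 0 < 1 - κ := by linarith
  have h2 : ∀ J : ℕ, ∑ j ∈ range (J + 1), (κ ^ j)⁻¹ ≤ ((κ ^ J)⁻¹ - κ) / (1 - κ) := by
    intro J
    induction J with
    | zero =>
      rw [sum_range_one, pow_zero, inv_one, div_self hk.ne']
    | succ J ih =>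
      rw [sum_range_succ]
      refine (add_le_add_left ih _).trans (le_of_eq ?_)
      rw [pow_succ]
      field_simp
      ring
  refine (h2 J).trans ?_
  exact div_le_div_of_nonneg_right (by linarith) hk.le

theorem anti {κ : ℝ} (h0 : 0 < κ) (h1 : κ < 1) (M : ℝ) {ε : ℝ} (hε : 0 < ε) :
    ∃ N₀ : ℕ, ∀ N : ℕ, N₀ ≤ N →
    (((Icc 1 N).filter (fun n => (om N n : ℝ) ≤ κ * LL N + M)).card : ℝ) ≤
      ε * (N * Real.log N ^ (-(κ * Real.log κ - κ + 1))) := by
  classical
  obtain ⟨C, hC, hcnt⟩ := cnt h0 h1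
  have hk : 0 < 1 - κ := by linarith
  have hC0 : 0 < C := by linarith
  have hκM : 0 < κ ^ M := Real.rpow_pos_of_pos h0 M
  obtain ⟨δ, hδ⟩ : ∃ δ : ℝ, δ = ε * (1 - κ) * κ ^ M / C := ⟨_, rfl⟩
  have hδ0 : 0 < δ := by rw [hδ]; positivity
  obtain ⟨X, hX3, hX⟩ := hcnt δ hδ0
  have htend : Filter.Tendsto (fun x : ℕ => Real.log (Real.log x)) Filter.atTop Filter.atTop :=
    Real.tendsto_log_atTop.comp (Real.tendsto_log_atTop.comp tendsto_natCast_atTop_atTop)
  obtain ⟨Y, hY⟩ := Filter.eventually_atTop.1 (htend.eventually_ge_atTop (-M / κ))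
  refine ⟨max X Y, fun N hN => ?_⟩
  have hNX : X ≤ N := (le_max_left _ _).trans hN
  have hN3 : 3 ≤ N := hX3.trans hNX
  have hl : 0 < Real.log N := Real.log_pos (by exact_mod_cast (by omega : 1 < N))
  have hLL : 0 ≤ κ * LL N + M := by
    have h := hY N ((le_max_right _ _).trans hN)
    rw [div_le_iff₀ h0] at h
    rw [LL]
    linarith
  obtain ⟨J, hJ⟩ : ∃ J : ℕ, J = ⌊κ * LL N + M⌋₊ := ⟨_, rfl⟩
  have hJle : (J : ℝ) ≤ κ * LL N + M := by rw [hJ]; exact Nat.floor_le hLL
  have hsub : (Icc 1 N).filter (fun n => (om N n : ℝ) ≤ κ * LL N + M) ⊆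
      (range (J + 1)).biUnion (fun j => (Icc 1 N).filter (fun n => om N n = j)) := by
    intro n hn
    rw [mem_filter] at hn
    rw [mem_biUnion]
    refine ⟨om N n, ?_, mem_filter.2 ⟨hn.1, rfl⟩⟩
    rw [mem_range, hJ]
    exact Nat.lt_succ_of_le (Nat.le_floor hn.2)
  have hcard : (((Icc 1 N).filter (fun n => (om N n : ℝ) ≤ κ * LL N + M)).card : ℝ) ≤
      ∑ j ∈ range (J + 1), (((Icc 1 N).filter (fun n => om N n = j)).card : ℝ) := by
    have h := (card_le_card hsub).trans card_biUnion_le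
    exact_mod_cast h
  obtain ⟨B, hB⟩ : ∃ B : ℝ, B = C * (N / Real.log N * (δ * Real.log N ^ κ)) := ⟨_, rfl⟩
  have hB0 : 0 ≤ B := by rw [hB]; positivity
  have hterm : ∀ j ∈ range (J + 1),
      (((Icc 1 N).filter (fun n => om N n = j)).card : ℝ) ≤ B * (κ ^ j)⁻¹ := by
    intro j _
    have h := hX N hNX j
    rw [← hB] at h
    rw [← div_eq_mul_inv, le_div_iff₀ (pow_pos h0 j)]
    linarith
  refine hcard.trans ((sum_le_sum hterm).trans ?_)
  rw [← mul_sum]
  refine (mul_le_mul_of_nonneg_left (geo h0 h1 J) hB0).trans ?_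
  have hinv : (κ ^ J)⁻¹ ≤ κ ^ (-(κ * LL N + M)) := by
    rw [← Real.rpow_natCast, ← Real.rpow_neg h0.le]
    exact Real.rpow_le_rpow_of_exponent_ge h0 h1.le (by linarith)
  have hinv2 : κ ^ (-(κ * LL N + M)) = Real.log N ^ (-(κ * Real.log κ)) * (κ ^ M)⁻¹ := by
    rw [← Real.rpow_neg h0.le, Real.rpow_def_of_pos h0, Real.rpow_def_of_pos hl,
      Real.rpow_def_of_pos h0, ← Real.exp_add, LL]
    congr 1
    ring
  have hpow : Real.log N ^ (-(κ * Real.log κ - κ + 1)) =
      Real.log N ^ κ * Real.log N ^ (-(κ * Real.log κ)) * (Real.log N)⁻¹ := by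
    rw [← Real.rpow_neg_one, ← Real.rpow_add hl, ← Real.rpow_add hl]
    congr 1
    ring
  have h2 : B * ((κ ^ J)⁻¹ / (1 - κ)) ≤ B * (Real.log N ^ (-(κ * Real.log κ)) * (κ ^ M)⁻¹ / (1 - κ)) := by
    refine mul_le_mul_of_nonneg_left (div_le_div_of_nonneg_right ?_ hk.le) hB0
    rw [← hinv2]
    exact hinv
  refine h2.trans (le_of_eq ?_)
  rw [hpow, hB, hδ]
  have hl' := hl.ne'
  have hC' := hC0.ne'
  have hk' := hk.ne'
  have hκM' := hκM.ne'
  field_simp

end Pool.Agent.MEN
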