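import Pool.Agent.MEN.Thi

set_option autoImplicit false

/-!
MEN-Att. A family with enough elements and small energy gives an attained pair: thin the sets to
`⌊c N (log N) ^ (-α)⌋` elements.
-/

namespace Pool.Agent.MEN

open Finset

/-- `N (log N) ^ (-α)` tends to infinity -/
private theorem ev_big (α c : ℝ) (hc : 0 < c) : ∃ N₀ : ℕ, ∀ N : ℕ, N₀ ≤ N →
    1 ≤ Real.log N ∧ 2 ≤ c * (N * Real.log N ^ (-α)) := by
  have h1 : Filter.Tendsto (fun x : ℝ => x / Real.log x ^ α) Filter.atTop Filter.atTop := by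
    have h2 : (fun x : ℝ => Real.log x ^ α) =o[Filter.atTop] fun x => x := by
      have := isLittleO_log_rpow_rpow_atTop (s := 1) α one_pos
      simpa using this
    have h3 := h2.tendsto_div_nhds_zero
    have h4 : ∀ᶠ x : ℝ in Filter.atTop, 0 < Real.log x ^ α / x := by
      filter_upwards [Filter.eventually_gt_atTop 1] with x hx
      have : 0 < Real.log x := Real.log_pos hx
      positivity
    have h5 : Filter.Tendsto (fun x : ℝ => Real.log x ^ α / x) Filter.atTop
        (nhdsWithin 0 (Set.Ioi 0)) := tendsto_nhdsWithin_iff.2 ⟨h3, h4⟩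
    have h6 := h5.inv_tendsto_nhdsGT_zero
    refine h6.congr fun x => ?_
    simp
  have h2 := (h1.comp tendsto_natCast_atTop_atTop).eventually_ge_atTop (2 / c)
  have h3 := (Real.tendsto_log_atTop.comp tendsto_natCast_atTop_atTop).eventually_ge_atTop
    (1 : ℝ)
  obtain ⟨N₀, hN₀⟩ := Filter.eventually_atTop.1 (h2.and h3)
  refine ⟨N₀, fun N hN => ?_⟩
  obtain ⟨h4, h5⟩ := hN₀ N hN
  simp only [Function.comp] at h4 h5
  have hl0 : 0 < Real.log N := by linarith
  refine ⟨h5, ?_⟩
  rw [Real.rpow_neg hl0.le, ← div_eq_mul_inv]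
  rw [div_le_iff₀ hc] at h4
  linarith

theorem attained_of {α β c K : ℝ} (hβ : 0 ≤ β) (hc : 0 < c) (B : ℕ → Finset ℕ)
    (N₀ : ℕ) (h : ∀ N : ℕ, N₀ ≤ N → B N ⊆ Icc 1 N ∧
      c * (N * Real.log N ^ (-α)) ≤ ((B N).card : ℝ) ∧
      (energy (B N) N : ℝ) ≤ K * (((B N).card : ℝ) ^ 2 * Real.log N ^ (α + β))) :
    Attained α β := by
  obtain ⟨N₁, hN₁⟩ := ev_big α c hc
  have key : ∀ N : ℕ, max N₀ N₁ ≤ N → ∃ B' : Finset ℕ, B' ⊆ Icc 1 N ∧
      c / 2 * (N * Real.log N ^ (-α)) ≤ (B'.card : ℝ) ∧
      (B'.card : ℝ) ≤ c * (N * Real.log N ^ (-α)) ∧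
      (energy B' N : ℝ) ≤ (1 + |K| * c) * (N * B'.card * Real.log N ^ β) := by
    intro N hN
    obtain ⟨hB1, hB2, hB3⟩ := h N ((le_max_left _ _).trans hN)
    obtain ⟨hl, hbig⟩ := hN₁ N ((le_max_right _ _).trans hN)
    have hl0 : 0 < Real.log N := by linarith
    set T := c * (N * Real.log N ^ (-α)) with hT
    have hT0 : 0 ≤ T := by linarith
    set m := ⌊T⌋₊ with hm
    have hmT : (m : ℝ) ≤ T := Nat.floor_le hT0
    have hTm : T < m + 1 := Nat.lt_floor_add_one T
    have hmB : m ≤ (B N).card := by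
      have : (m : ℝ) ≤ ((B N).card : ℝ) := hmT.trans hB2
      exact_mod_cast this
    have hB0 : 0 < (B N).card := by
      have h1 : (1 : ℝ) ≤ m := by linarith
      have h2 : 1 ≤ m := by exact_mod_cast h1
      omega
    obtain ⟨B', hB'1, hB'2, hB'3⟩ := thin (B N) N hB1 m hmB hB0
    refine ⟨B', hB'1.trans hB1, ?_, ?_, ?_⟩
    · rw [hB'2]
      have : c / 2 * (N * Real.log N ^ (-α)) = T / 2 := by rw [hT]; ring
      rw [this]
      linarith
    · rw [hB'2]
      exact hmT
    · rw [hB'2]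
      have hb0 : (0 : ℝ) < ((B N).card : ℝ) := by exact_mod_cast hB0
      have h1 : ((m : ℝ) / (B N).card) ^ 2 * energy (B N) N ≤
          |K| * ((m : ℝ) ^ 2 * Real.log N ^ (α + β)) := by
        calc ((m : ℝ) / (B N).card) ^ 2 * energy (B N) N
            ≤ ((m : ℝ) / (B N).card) ^ 2 *
              (|K| * (((B N).card : ℝ) ^ 2 * Real.log N ^ (α + β))) := by
              apply mul_le_mul_of_nonneg_left _ (by positivity)
              refine hB3.trans ?_
              apply mul_le_mul_of_nonneg_right (le_abs_self K) (by positivity)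
          _ = _ := by
              field_simp
      have h2 : (m : ℝ) ^ 2 * Real.log N ^ (α + β) ≤ c * (N * m * Real.log N ^ β) := by
        calc (m : ℝ) ^ 2 * Real.log N ^ (α + β) = m * m * Real.log N ^ (α + β) := by ring
          _ ≤ T * m * Real.log N ^ (α + β) := by gcongr
          _ = c * (N * m * (Real.log N ^ (-α) * Real.log N ^ (α + β))) := by
              rw [hT]; ring
          _ = _ := by
              rw [← Real.rpow_add hl0]
              congr 3
              ring
      have h3 : (1 : ℝ) ≤ Real.log N ^ β := Real.one_le_rpow hl hβ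
      have h4 : (N : ℝ) * m ≤ N * m * Real.log N ^ β :=
        le_mul_of_one_le_right (by positivity) h3
      calc (energy B' N : ℝ) ≤ N * m + ((m : ℝ) / (B N).card) ^ 2 * energy (B N) N := hB'3
        _ ≤ N * m * Real.log N ^ β + |K| * (c * (N * m * Real.log N ^ β)) := by
            refine add_le_add h4 (h1.trans ?_)
            exact mul_le_mul_of_nonneg_left h2 (abs_nonneg K)
        _ = _ := by ring
  choose! B' hB' using key
  exact ⟨B', max N₀ N₁, c / 2, c, 1 + |K| * c, by positivity, fun N hN => hB' N hN⟩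

end Pool.Agent.MEN
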