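import Pool.Agent.MEN.Defs

set_option autoImplicit false

/-!
MEN-Bas. Algebra of `wt` and `om`: both are additive resp. multiplicative on products, and the
two-level weight `lv` is expressed by the number of prime factors.
-/

namespace Pool.Agent.MEN

open Finset

theorem wt_one (g : ℕ → ℝ) : wt g 1 = 1 := by
  simp [wt]

theorem wt_mul (g : ℕ → ℝ) {m n : ℕ} (hm : m ≠ 0) (hn : n ≠ 0) :
    wt g (m * n) = wt g m * wt g n := by
  rw [wt, wt, wt, ((Nat.perm_primeFactorsList_mul hm hn).map g).prod_eq, List.map_append,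
    List.prod_append]

theorem wt_prime (g : ℕ → ℝ) {p : ℕ} (hp : p.Prime) : wt g p = g p := by
  rw [wt, Nat.primeFactorsList_prime hp, List.map_singleton, List.prod_singleton]

theorem wt_pow (g : ℕ → ℝ) {p : ℕ} (hp : p.Prime) (k : ℕ) : wt g (p ^ k) = g p ^ k := by
  induction k with
  | zero => rw [pow_zero, pow_zero, wt_one]
  | succ k ih => rw [pow_succ, wt_mul g (pow_ne_zero k hp.ne_zero) hp.ne_zero, ih, wt_prime g hp,
      pow_succ]

theorem wt_nonneg {g : ℕ → ℝ} (hg : ∀ p, 0 ≤ g p) (n : ℕ) : 0 ≤ wt g n := by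
  rw [wt]
  apply List.prod_nonneg
  intro a ha
  obtain ⟨p, _, rfl⟩ := List.mem_map.1 ha
  exact hg p

theorem om_one (w : ℕ) : om w 1 = 0 := by
  simp [om]

theorem om_mul (w : ℕ) {m n : ℕ} (hm : m ≠ 0) (hn : n ≠ 0) :
    om w (m * n) = om w m + om w n := by
  rw [om, om, om, ((Nat.perm_primeFactorsList_mul hm hn).filter _).length_eq, List.filter_append,
    List.length_append]

theorem om_prime {w p : ℕ} (hp : p.Prime) : om w p = if p ≠ 2 ∧ p ≤ w then 1 else 0 := by
  rw [om, Nat.primeFactorsList_prime hp]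
  by_cases h : p ≠ 2 ∧ p ≤ w
  · rw [if_pos h, List.filter_cons_of_pos (by simpa using h)]
    simp
  · rw [if_neg h, List.filter_cons_of_neg (by simpa using h)]
    simp

theorem om_pow {w p : ℕ} (hp : p.Prime) (k : ℕ) :
    om w (p ^ k) = if p ≠ 2 ∧ p ≤ w then k else 0 := by
  induction k with
  | zero => rw [pow_zero, om_one]; simp
  | succ k ih =>
    rw [pow_succ, om_mul w (pow_ne_zero k hp.ne_zero) hp.ne_zero, ih, om_prime hp]
    split_ifs <;> rfl

private theorem filter_len_le (l : List ℕ) {w w' : ℕ} (h : w ≤ w') :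
    (l.filter (fun p => p ≠ 2 ∧ p ≤ w)).length ≤ (l.filter (fun p => p ≠ 2 ∧ p ≤ w')).length := by
  induction l with
  | nil => exact le_rfl
  | cons p l ih =>
    by_cases h1 : p ≠ 2 ∧ p ≤ w
    · rw [List.filter_cons_of_pos (by simpa using h1),
        List.filter_cons_of_pos (by simpa using ⟨h1.1, h1.2.trans h⟩), List.length_cons,
        List.length_cons]
      exact Nat.succ_le_succ ih
    · rw [List.filter_cons_of_neg (by simpa using h1)]
      refine ih.trans ?_
      by_cases h2 : p ≠ 2 ∧ p ≤ w'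
      · rw [List.filter_cons_of_pos (by simpa using h2), List.length_cons]
        exact Nat.le_succ _
      · rw [List.filter_cons_of_neg (by simpa using h2)]

theorem om_mono {w w' : ℕ} (h : w ≤ w') (n : ℕ) : om w n ≤ om w' n := by
  rw [om, om]
  exact filter_len_le _ h

theorem om_eq {w w' n : ℕ} (h : n ≤ w) (h' : n ≤ w') : om w n = om w' n := by
  rw [om, om]
  congr 1
  apply List.filter_congr
  intro p hp
  have hpn := Nat.le_of_mem_primeFactorsList hp
  have h1 : p ≤ w := hpn.trans h
  have h2 : p ≤ w' := hpn.trans h'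
  simp [h1, h2]

private theorem list_lv (a b : ℝ) {w N : ℕ} (hw : w ≤ N) (l : List ℕ) (hl : ∀ p ∈ l, p ≤ N) :
    (l.map (lv a b w)).prod = a ^ (l.filter (fun p => p ≠ 2 ∧ p ≤ w)).length *
      b ^ ((l.filter (fun p => p ≠ 2 ∧ p ≤ N)).length -
        (l.filter (fun p => p ≠ 2 ∧ p ≤ w)).length) := by
  induction l with
  | nil => simp
  | cons p l ih =>
    have ih' := ih (fun q hq => hl q (List.mem_cons_of_mem _ hq))
    have hle := filter_len_le l hw
    have hp : p ≤ N := hl p List.mem_cons_self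
    rw [List.map_cons, List.prod_cons, ih']
    by_cases h2 : p = 2
    · have h3 : ¬ (p ≠ 2 ∧ p ≤ w) := fun h => h.1 h2
      have h4 : ¬ (p ≠ 2 ∧ p ≤ N) := fun h => h.1 h2
      rw [List.filter_cons_of_neg (by simpa using h3), List.filter_cons_of_neg (by simpa using h4),
        lv, if_pos h2, one_mul]
    · by_cases h3 : p ≤ w
      · have h5 : p ≠ 2 ∧ p ≤ w := ⟨h2, h3⟩
        have h6 : p ≠ 2 ∧ p ≤ N := ⟨h2, hp⟩
        rw [List.filter_cons_of_pos (by simpa using h5),
          List.filter_cons_of_pos (by simpa using h6), lv, if_neg h2, if_pos h3, List.length_cons,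
          List.length_cons, Nat.add_sub_add_right, pow_succ]
        ring
      · have h5 : ¬ (p ≠ 2 ∧ p ≤ w) := fun h => h3 h.2
        have h6 : p ≠ 2 ∧ p ≤ N := ⟨h2, hp⟩
        rw [List.filter_cons_of_neg (by simpa using h5),
          List.filter_cons_of_pos (by simpa using h6), lv, if_neg h2, if_neg h3, List.length_cons,
          Nat.sub_add_comm hle, pow_succ]
        ring

theorem wt_lv (a b : ℝ) {w N n : ℕ} (hw : w ≤ N) (hn : n ≤ N) :
    wt (lv a b w) n = a ^ om w n * b ^ (om N n - om w n) := by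
  rw [wt, om, om]
  exact list_lv a b hw _ (fun p hp => (Nat.le_of_mem_primeFactorsList hp).trans hn)

end Pool.Agent.MEN
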