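import Pool.Agent.MEN.Bas

set_option autoImplicit false

/-!
MEN-Cnv. The product of two logarithmic sums is bounded by the one for `u + v`: even numbers cost
a factor `2` in both sums, and for odd `n` the sum of `u ^ om w a * v ^ om w b` over `a * b = n` is
at most `(u + v) ^ om w n` (induction on `n`, splitting off the smallest prime factor).
-/

namespace Pool.Agent.MEN

open Finset

/-- the even numbers contribute at most one half -/
private theorem odd_half {u : ℝ} (hu : 0 ≤ u) (w y : ℕ) :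
    ∑ n ∈ Icc 1 y, u ^ om w n / (n : ℝ) ≤
      2 * ∑ n ∈ (Icc 1 y).filter (fun n => ¬ 2 ∣ n), u ^ om w n / (n : ℝ) := by
  have h0 : ∀ n : ℕ, 0 ≤ u ^ om w n / (n : ℝ) := fun n => by positivity
  have h1 : ∑ n ∈ (Icc 1 y).filter (fun n => 2 ∣ n), u ^ om w n / (n : ℝ) ≤
      (1 / 2) * ∑ n ∈ Icc 1 y, u ^ om w n / (n : ℝ) := by
    have h2 : ∑ n ∈ (Icc 1 y).filter (fun n => 2 ∣ n), u ^ om w n / (n : ℝ) =
        ∑ n ∈ (Icc 1 y).filter (fun n => 2 ∣ n), (1 / 2) * (u ^ om w (n / 2) / ((n / 2 : ℕ) : ℝ)) := by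
      apply Finset.sum_congr rfl
      intro n hn
      rw [Finset.mem_filter, Finset.mem_Icc] at hn
      obtain ⟨⟨h3, -⟩, m, rfl⟩ := hn
      have hm : m ≠ 0 := by
        rintro rfl
        omega
      rw [Nat.mul_div_cancel_left m (by norm_num), om_mul w (by norm_num) hm,
        om_prime Nat.prime_two, if_neg (fun h => h.1 rfl), zero_add]
      have hm' : (m : ℝ) ≠ 0 := by exact_mod_cast hm
      push_cast
      field_simp
    rw [h2, ← Finset.mul_sum]
    apply mul_le_mul_of_nonneg_left _ (by norm_num)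
    have h4 : ∑ n ∈ (Icc 1 y).filter (fun n => 2 ∣ n), (u ^ om w (n / 2) / ((n / 2 : ℕ) : ℝ)) =
        ∑ m ∈ ((Icc 1 y).filter (fun n => 2 ∣ n)).image (fun n => n / 2),
          (u ^ om w m / (m : ℝ)) := by
      rw [Finset.sum_image]
      intro a ha b hb hab
      rw [Finset.mem_coe, Finset.mem_filter] at ha hb
      obtain ⟨c, rfl⟩ := ha.2
      obtain ⟨d, rfl⟩ := hb.2
      have hab' : 2 * c / 2 = 2 * d / 2 := hab
      omega
    rw [h4]
    apply Finset.sum_le_sum_of_subset_of_nonneg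
    · intro m hm
      rw [Finset.mem_image] at hm
      obtain ⟨n, hn, rfl⟩ := hm
      rw [Finset.mem_filter, Finset.mem_Icc] at hn
      rw [Finset.mem_Icc]
      omega
    · intro n _ _
      exact h0 n
  have h5 := Finset.sum_filter_add_sum_filter_not (Icc 1 y) (fun n => 2 ∣ n)
    (fun n => u ^ om w n / (n : ℝ))
  linarith

/-- the Dirichlet convolution at an odd number -/
private theorem conv_div {u v : ℝ} (hu : 0 ≤ u) (hv : 0 ≤ v) (w : ℕ) : ∀ n : ℕ, n ≠ 0 → ¬ 2 ∣ n →
    n ≤ w → ∑ q ∈ n.divisorsAntidiagonal, u ^ om w q.1 * v ^ om w q.2 ≤ (u + v) ^ om w n := by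
  intro n
  induction n using Nat.strong_induction_on with
  | _ n ih =>
    intro hn0 hn2 hnw
    by_cases hn1 : n = 1
    · rw [hn1, Nat.divisorsAntidiagonal_one, Finset.sum_singleton, om_one, pow_zero, pow_zero,
        pow_zero, mul_one]
    · obtain ⟨p, hp, m, rfl⟩ : ∃ p, p.Prime ∧ ∃ m, n = p * m := by
        obtain ⟨p, hp, hpn⟩ := Nat.exists_prime_and_dvd hn1
        exact ⟨p, hp, hpn⟩
      have hm0 : m ≠ 0 := right_ne_zero_of_mul hn0
      have hp2 : p ≠ 2 := by
        rintro rfl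
        exact hn2 (Dvd.intro _ rfl)
      have hpw : p ≤ w := (Nat.le_mul_of_pos_right p (Nat.pos_of_ne_zero hm0)).trans hnw
      have hmlt : m < p * m := by
        have := hp.two_le
        have hm1 : 0 < m := Nat.pos_of_ne_zero hm0
        nlinarith
      have hom : ∀ a : ℕ, a ≠ 0 → om w (p * a) = 1 + om w a := by
        intro a ha
        rw [om_mul w hp.ne_zero ha, om_prime hp, if_pos ⟨hp2, hpw⟩]
      have ihm := ih m hmlt hm0 (fun h => hn2 (h.mul_left p)) (hmlt.le.trans hnw)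
      have hsub : (p * m).divisorsAntidiagonal ⊆
          m.divisorsAntidiagonal.image (fun q => (p * q.1, q.2)) ∪
            m.divisorsAntidiagonal.image (fun q => (q.1, p * q.2)) := by
        rintro ⟨a, b⟩ hq
        rw [Nat.mem_divisorsAntidiagonal] at hq
        have hab : a * b = p * m := hq.1
        rw [Finset.mem_union, Finset.mem_image, Finset.mem_image]
        have hdvd : p ∣ a * b := ⟨m, hab⟩
        rcases (Nat.Prime.dvd_mul hp).1 hdvd with ⟨c, hc⟩ | ⟨c, hc⟩
        · left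
          refine ⟨(c, b), ?_, ?_⟩
          · rw [Nat.mem_divisorsAntidiagonal]
            refine ⟨?_, hm0⟩
            have : p * (c * b) = p * m := by rw [← mul_assoc, ← hc, hab]
            exact Nat.eq_of_mul_eq_mul_left hp.pos this
          · rw [hc]
        · right
          refine ⟨(a, c), ?_, ?_⟩
          · rw [Nat.mem_divisorsAntidiagonal]
            refine ⟨?_, hm0⟩
            have : p * (a * c) = p * m := by rw [mul_left_comm, ← hc, hab]
            exact Nat.eq_of_mul_eq_mul_left hp.pos this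
          · rw [hc]
      have hnn : ∀ q : ℕ × ℕ, 0 ≤ u ^ om w q.1 * v ^ om w q.2 := fun q => by positivity
      have hs1 : ∑ q ∈ m.divisorsAntidiagonal.image (fun q => (p * q.1, q.2)),
          u ^ om w q.1 * v ^ om w q.2 = u * ∑ q ∈ m.divisorsAntidiagonal,
            u ^ om w q.1 * v ^ om w q.2 := by
        rw [Finset.sum_image, Finset.mul_sum]
        · apply Finset.sum_congr rfl
          intro q hq
          rw [Nat.mem_divisorsAntidiagonal] at hq
          have hq0 : q.1 ≠ 0 := by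
            intro h
            rw [h, zero_mul] at hq
            exact hq.2 hq.1.symm
          change u ^ om w (p * q.1) * v ^ om w q.2 = _
          rw [hom _ hq0, pow_add, pow_one, mul_assoc]
        · rintro ⟨a, b⟩ _ ⟨c, d⟩ _ h
          have h1 : p * a = p * c := congrArg Prod.fst h
          have h2 : b = d := congrArg Prod.snd h
          rw [Nat.eq_of_mul_eq_mul_left hp.pos h1, h2]
      have hs2 : ∑ q ∈ m.divisorsAntidiagonal.image (fun q => (q.1, p * q.2)),
          u ^ om w q.1 * v ^ om w q.2 = v * ∑ q ∈ m.divisorsAntidiagonal,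
            u ^ om w q.1 * v ^ om w q.2 := by
        rw [Finset.sum_image, Finset.mul_sum]
        · apply Finset.sum_congr rfl
          intro q hq
          rw [Nat.mem_divisorsAntidiagonal] at hq
          have hq0 : q.2 ≠ 0 := by
            intro h
            rw [h, mul_zero] at hq
            exact hq.2 hq.1.symm
          change u ^ om w q.1 * v ^ om w (p * q.2) = _
          rw [hom _ hq0, pow_add, pow_one]
          ring
        · rintro ⟨a, b⟩ _ ⟨c, d⟩ _ h
          have h1 : p * b = p * d := congrArg Prod.snd h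
          have h2 : a = c := congrArg Prod.fst h
          rw [Nat.eq_of_mul_eq_mul_left hp.pos h1, h2]
      calc ∑ q ∈ (p * m).divisorsAntidiagonal, u ^ om w q.1 * v ^ om w q.2
          ≤ ∑ q ∈ m.divisorsAntidiagonal.image (fun q => (p * q.1, q.2)) ∪
            m.divisorsAntidiagonal.image (fun q => (q.1, p * q.2)),
              u ^ om w q.1 * v ^ om w q.2 :=
            Finset.sum_le_sum_of_subset_of_nonneg hsub (fun q _ _ => hnn q)
        _ ≤ ∑ q ∈ m.divisorsAntidiagonal.image (fun q => (p * q.1, q.2)),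
              u ^ om w q.1 * v ^ om w q.2 +
            ∑ q ∈ m.divisorsAntidiagonal.image (fun q => (q.1, p * q.2)),
              u ^ om w q.1 * v ^ om w q.2 := by
            rw [← Finset.sum_union_inter]
            exact le_add_of_nonneg_right (Finset.sum_nonneg fun q _ => hnn q)
        _ = (u + v) * ∑ q ∈ m.divisorsAntidiagonal, u ^ om w q.1 * v ^ om w q.2 := by
            rw [hs1, hs2, add_mul]
        _ ≤ (u + v) * (u + v) ^ om w m := mul_le_mul_of_nonneg_left ihm (add_nonneg hu hv)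
        _ = (u + v) ^ om w (p * m) := by rw [hom m hm0, pow_add, pow_one]

theorem conv_le {u v : ℝ} (hu : 0 ≤ u) (hv : 0 ≤ v) (y : ℕ) :
    (∑ n ∈ Icc 1 y, u ^ om y n / (n : ℝ)) * (∑ n ∈ Icc 1 y, v ^ om y n / (n : ℝ)) ≤
      4 * ∑ n ∈ Icc 1 (y ^ 2), (u + v) ^ om (y ^ 2) n / (n : ℝ) := by
  have hyy : ∀ n : ℕ, n ∈ Icc 1 y → om y n = om (y ^ 2) n := by
    intro n hn
    rw [Finset.mem_Icc] at hn
    exact om_eq hn.2 (hn.2.trans (Nat.le_self_pow (by norm_num) y))
  rw [Finset.sum_congr rfl (fun n hn => by rw [hyy n hn] :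
      ∀ n ∈ Icc 1 y, u ^ om y n / (n : ℝ) = u ^ om (y ^ 2) n / (n : ℝ)),
    Finset.sum_congr rfl (fun n hn => by rw [hyy n hn] :
      ∀ n ∈ Icc 1 y, v ^ om y n / (n : ℝ) = v ^ om (y ^ 2) n / (n : ℝ))]
  have h1 := odd_half hu (y ^ 2) y
  have h2 := odd_half hv (y ^ 2) y
  have hn1 : 0 ≤ ∑ n ∈ Icc 1 y, v ^ om (y ^ 2) n / (n : ℝ) :=
    Finset.sum_nonneg fun n _ => by positivity
  have hn2 : 0 ≤ ∑ n ∈ (Icc 1 y).filter (fun n => ¬ 2 ∣ n), u ^ om (y ^ 2) n / (n : ℝ) :=
    Finset.sum_nonneg fun n _ => by positivity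
  refine (mul_le_mul h1 h2 hn1 (by positivity)).trans ?_
  have h3 : (2 * ∑ n ∈ (Icc 1 y).filter (fun n => ¬ 2 ∣ n), u ^ om (y ^ 2) n / (n : ℝ)) *
      (2 * ∑ n ∈ (Icc 1 y).filter (fun n => ¬ 2 ∣ n), v ^ om (y ^ 2) n / (n : ℝ)) =
      4 * ((∑ n ∈ (Icc 1 y).filter (fun n => ¬ 2 ∣ n), u ^ om (y ^ 2) n / (n : ℝ)) *
        ∑ n ∈ (Icc 1 y).filter (fun n => ¬ 2 ∣ n), v ^ om (y ^ 2) n / (n : ℝ)) := by ring
  rw [h3]
  apply mul_le_mul_of_nonneg_left _ (by norm_num)
  rw [Finset.sum_mul_sum, ← Finset.sum_product']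
  have hmaps : ∀ q ∈ (Icc 1 y).filter (fun n => ¬ 2 ∣ n) ×ˢ (Icc 1 y).filter (fun n => ¬ 2 ∣ n),
      q.1 * q.2 ∈ (Icc 1 (y ^ 2)).filter (fun n => ¬ 2 ∣ n) := by
    rintro ⟨a, b⟩ hq
    rw [Finset.mem_product, Finset.mem_filter, Finset.mem_filter, Finset.mem_Icc,
      Finset.mem_Icc] at hq
    obtain ⟨⟨⟨ha1, ha2⟩, ha3⟩, ⟨hb1, hb2⟩, hb3⟩ := hq
    have ha1' : 1 ≤ a := ha1
    have ha2' : a ≤ y := ha2
    have hb1' : 1 ≤ b := hb1
    have hb2' : b ≤ y := hb2
    rw [Finset.mem_filter, Finset.mem_Icc]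
    refine ⟨⟨Nat.mul_pos ha1' hb1', ?_⟩, ?_⟩
    · rw [pow_two]
      exact Nat.mul_le_mul ha2' hb2'
    · intro h
      rcases (Nat.Prime.dvd_mul Nat.prime_two).1 h with h | h
      · exact ha3 h
      · exact hb3 h
  rw [← Finset.sum_fiberwise_of_maps_to hmaps]
  refine (Finset.sum_le_sum (fun n hn => ?_ : ∀ n ∈ (Icc 1 (y ^ 2)).filter (fun n => ¬ 2 ∣ n),
    _ ≤ (u + v) ^ om (y ^ 2) n / (n : ℝ))).trans
      (Finset.sum_le_sum_of_subset_of_nonneg (Finset.filter_subset _ _)
        (fun n _ _ => by positivity))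
  rw [Finset.mem_filter, Finset.mem_Icc] at hn
  obtain ⟨⟨hn3, hn4⟩, hn5⟩ := hn
  have hn0 : n ≠ 0 := by omega
  have key := conv_div hu hv (y ^ 2) n hn0 hn5 hn4
  calc _ = (∑ q ∈ ((Icc 1 y).filter (fun n => ¬ 2 ∣ n) ×ˢ
        (Icc 1 y).filter (fun n => ¬ 2 ∣ n)).filter (fun q => q.1 * q.2 = n),
          u ^ om (y ^ 2) q.1 * v ^ om (y ^ 2) q.2) / (n : ℝ) := by
        rw [Finset.sum_div]
        apply Finset.sum_congr rfl
        rintro ⟨a, b⟩ hq
        rw [Finset.mem_filter] at hq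
        have hab : a * b = n := hq.2
        rw [← hab, div_mul_div_comm]
        push_cast
        rfl
    _ ≤ (∑ q ∈ n.divisorsAntidiagonal, u ^ om (y ^ 2) q.1 * v ^ om (y ^ 2) q.2) / (n : ℝ) := by
        apply div_le_div_of_nonneg_right _ (Nat.cast_nonneg n)
        apply Finset.sum_le_sum_of_subset_of_nonneg
        · intro q hq
          rw [Finset.mem_filter] at hq
          rw [Nat.mem_divisorsAntidiagonal]
          exact ⟨hq.2, hn0⟩
        · intro q _ _
          positivity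
    _ ≤ (u + v) ^ om (y ^ 2) n / (n : ℝ) := div_le_div_of_nonneg_right key (Nat.cast_nonneg n)

end Pool.Agent.MEN
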