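import Pool.Agent.MEN.Bas

set_option autoImplicit false

/-!
MEN-Cor. From logarithmic sums to sums from below, by one large prime factor.

With `w = x ^ (1/4)`, `y = ⌊w⌋`: for `m ≤ y` there are at least `0.5 * x / (m * log x)` primes `p` with
`w ^ 2 < p ≤ x / m` (`x` large), the products `m * p` are distinct and
`z ^ om x (m * p) = z ^ om x m * z`. Hence `∑_{n ≤ x} z ^ om x n ≥ z * 0.5 * x / log x *
∑_{m ≤ y} z ^ om x m / m`, and `om x m = om y m` by `om_eq`. Adapted from
`Pool/Agent/Helper24/OmegaLower.lean`.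
-/

namespace Pool.Agent.MEN

open Finset

open Nat Filter in
private theorem primes_ge : ∀ᶠ x : ℕ in atTop,
    0.6 * (x / Real.log x) ≤ ((primesLE x).card : ℝ) := by
  have hlog : Tendsto (fun x : ℕ => Real.log x) atTop atTop :=
    Real.tendsto_log_atTop.comp tendsto_natCast_atTop_atTop
  have hlittle : ∀ᶠ x : ℕ in atTop, Real.log x + 1 ≤ 0.09 * x := by
    have h1 := Real.isLittleO_log_id_atTop.bound (c := 0.04) (by norm_num)
    have h2 := (tendsto_natCast_atTop_atTop (R := ℝ)).eventually h1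
    filter_upwards [h2, hlog.eventually_ge_atTop 0, eventually_ge_atTop 100] with x h3 h4 h5
    have hx : (100 : ℝ) ≤ x := by exact_mod_cast h5
    simp only [id] at h3
    rw [Real.norm_of_nonneg h4, Real.norm_of_nonneg (by linarith)] at h3
    linarith
  filter_upwards [hlog.eventually_ge_atTop 1, hlittle, eventually_ge_atTop 2] with x h1 h2 h3
  have hx : (2 : ℝ) ≤ x := by exact_mod_cast h3
  have h4 := Chebyshev.pi_ge x
  rw [primesLE_card_eq_primeCounting]
  have h6 : Real.log ((x : ℝ) + 1) ≤ Real.log x + 1 := by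
    have : Real.log ((x : ℝ) + 1) ≤ Real.log (x * Real.exp 1) := by
      refine Real.log_le_log (by linarith) ?_
      have := Real.add_one_le_exp (1 : ℝ)
      nlinarith
    rwa [Real.log_mul (by linarith) (Real.exp_pos 1).ne', Real.log_exp] at this
  have hl2 := Real.log_two_gt_d9
  refine le_trans ?_ h4
  rw [le_div_iff₀ (by linarith), mul_assoc, div_mul_cancel₀ _ (by linarith)]
  nlinarith

/-- combinatorial lower bound with one large prime factor. -/
private theorem core (x y z : ℕ) (u : ℝ) (hu : 0 ≤ u) (hyz : y ≤ z) (hz : 2 ≤ z) :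
    ∑ m ∈ Icc 1 y, u ^ (om x m + 1) *
      (((Nat.primesLE (x / m)).filter (fun p => z < p)).card : ℝ) ≤
      ∑ n ∈ Icc 1 x, u ^ (om x n) := by
  have e1 : ∀ m ∈ Icc 1 y, u ^ (om x m + 1) *
      (((Nat.primesLE (x / m)).filter (fun p => z < p)).card : ℝ) =
      ∑ p ∈ (Nat.primesLE (x / m)).filter (fun p => z < p),
        u ^ (om x (m * p)) := by
    intro m hm
    rw [mem_Icc] at hm
    have e2 : ∀ p ∈ (Nat.primesLE (x / m)).filter (fun p => z < p),
        u ^ (om x (m * p)) = u ^ (om x m + 1) := by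
      intro p hp
      rw [mem_filter] at hp
      have hpp := Nat.prime_of_mem_primesLE hp.1
      have hpx : p ≤ x := (Nat.le_of_mem_primesLE hp.1).trans (Nat.div_le_self x m)
      have h2 : p ≠ 2 := by have := hp.2; omega
      rw [om_mul x (by omega) hpp.ne_zero, om_prime hpp, if_pos ⟨h2, hpx⟩]
    rw [sum_congr rfl e2, sum_const, nsmul_eq_mul, mul_comm]
  rw [sum_congr rfl e1, Finset.sum_sigma']
  have hinj : Set.InjOn (fun p : (_ : ℕ) × ℕ => p.1 * p.2)
      (↑((Icc 1 y).sigma (fun m => (Nat.primesLE (x / m)).filter (fun p => z < p))) :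
        Set ((_ : ℕ) × ℕ)) := by
    rintro ⟨m, p⟩ hp ⟨m', p'⟩ hp' hpp
    rw [mem_coe, mem_sigma, mem_Icc, mem_filter, Nat.mem_primesLE] at hp hp'
    simp only at hp hp' hpp
    obtain ⟨⟨h1, h2⟩, ⟨h3, h4⟩, h5⟩ := hp
    obtain ⟨⟨h1', h2'⟩, ⟨h3', h4'⟩, h5'⟩ := hp'
    have hpp' : p = p' := by
      have hd : p ∣ m' * p' := hpp ▸ Dvd.intro_left m rfl
      rcases (Nat.Prime.dvd_mul h4).1 hd with hd1 | hd1
      · have := Nat.le_of_dvd (by omega) hd1
        omega
      · exact (Nat.prime_dvd_prime_iff_eq h4 h4').1 hd1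
    subst hpp'
    have : m = m' := Nat.eq_of_mul_eq_mul_right h4.pos hpp
    rw [this]
  rw [← sum_image (f := fun n : ℕ => u ^ (om x n)) hinj]
  refine sum_le_sum_of_subset_of_nonneg ?_ fun p _ _ => by positivity
  intro n hn
  rw [mem_image] at hn
  obtain ⟨⟨m, p⟩, hp, rfl⟩ := hn
  rw [mem_sigma, mem_Icc, mem_filter, Nat.mem_primesLE] at hp
  simp only at hp
  obtain ⟨⟨h1, h2⟩, ⟨h3, h4⟩, h5⟩ := hp
  rw [mem_Icc]
  refine ⟨Nat.mul_pos h1 h4.pos, ?_⟩
  rw [Nat.le_div_iff_mul_le (by omega)] at h3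
  simp only
  rw [mul_comm]; exact h3

open Nat Filter in
private theorem core_low_aux : ∃ x0 : ℕ, ∀ x : ℕ, x0 ≤ x → ∀ z : ℝ, 0 ≤ z →
    z / 2 * (x / Real.log x) * ∑ m ∈ Icc 1 ⌊(x : ℝ) ^ (1 / 4 : ℝ)⌋₊,
      z ^ om ⌊(x : ℝ) ^ (1 / 4 : ℝ)⌋₊ m / (m : ℝ) ≤ ∑ n ∈ Icc 1 x, z ^ om x n := by
  obtain ⟨t0, ht0⟩ := eventually_atTop.1 primes_ge
  have hlog : Tendsto (fun x : ℕ => Real.log x) atTop atTop :=
    Real.tendsto_log_atTop.comp tendsto_natCast_atTop_atTop
  have hlittle : ∀ᶠ x : ℕ in atTop, 40 * Real.log x ≤ (x : ℝ) ^ (1 / 4 : ℝ) := by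
    have h1 := (isLittleO_log_rpow_atTop (r := 1 / 4) (by norm_num)).bound
      (c := 1 / 40) (by norm_num)
    have h2 := (tendsto_natCast_atTop_atTop (R := ℝ)).eventually h1
    filter_upwards [h2, hlog.eventually_ge_atTop 0] with x h3 h4
    rw [Real.norm_of_nonneg h4, Real.norm_of_nonneg (by positivity)] at h3
    linarith
  have hbig : ∀ᶠ x : ℕ in atTop, (t0 : ℝ) + 2 ≤ (x : ℝ) ^ (1 / 4 : ℝ) :=
    ((tendsto_rpow_atTop (by norm_num : (0 : ℝ) < 1 / 4)).comp
      (tendsto_natCast_atTop_atTop (R := ℝ))).eventually_ge_atTop _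
  rw [← eventually_atTop]
  filter_upwards [hlittle, hbig, hlog.eventually_ge_atTop 1, eventually_ge_atTop 16] with
    x h1 h2 h4 h5
  intro u hu
  have hx16 : (16 : ℝ) ≤ x := by exact_mod_cast h5
  have hx0 : (0 : ℝ) < x := by linarith
  set w : ℝ := (x : ℝ) ^ (1 / 4 : ℝ) with hw
  have hw0 : 0 < w := by positivity
  have hw4 : w ^ 4 = x := by
    rw [hw, ← Real.rpow_natCast, ← Real.rpow_mul hx0.le]; norm_num
  have hw2 : 2 ≤ w := by
    have : (0 : ℝ) ≤ t0 := by positivity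
    linarith
  set y := ⌊w⌋₊ with hy
  have hyw : (y : ℝ) ≤ w := Nat.floor_le hw0.le
  set z := ⌊w ^ 2⌋₊ with hz
  have hzw : (z : ℝ) ≤ w ^ 2 := Nat.floor_le (by positivity)
  have hyz : y ≤ z := Nat.floor_le_floor (by nlinarith)
  have hz2 : 2 ≤ z := Nat.le_floor (by push_cast; nlinarith)
  have hyx : y ≤ x := by
    have : (y : ℝ) ≤ x := by
      rw [← hw4]
      nlinarith [pow_pos hw0 2, pow_pos hw0 3]
    exact_mod_cast this
  refine le_trans ?_ (core x y z u hu hyz hz2)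
  have hlogx : 0 < Real.log x := by linarith
  -- each term
  have h6 : ∀ m ∈ Icc 1 y, (u / 2 * (x / Real.log x)) * (u ^ (om y m) / m) ≤
      u ^ (om x m + 1) *
      (((primesLE (x / m)).filter (fun p => z < p)).card : ℝ) := by
    intro m hm
    rw [mem_Icc] at hm
    have hm0 : (0 : ℝ) < m := by exact_mod_cast hm.1
    have hm1 : (1 : ℝ) ≤ m := by exact_mod_cast hm.1
    have hom : om x m = om y m := om_eq (hm.2.trans hyx) hm.2
    have hmw : (m : ℝ) ≤ w := by
      have : (m : ℝ) ≤ y := by exact_mod_cast hm.2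
      linarith
    have hxm : w ^ 3 ≤ (x : ℝ) / m := by
      rw [le_div_iff₀ hm0, ← hw4]
      nlinarith [pow_pos hw0 3]
    have hfl : (x : ℝ) / m - 1 ≤ ((x / m : ℕ) : ℝ) := by
      have := Nat.lt_div_mul_add (a := x) (b := m) (by omega)
      have h' : (x : ℝ) < ((x / m : ℕ) : ℝ) * m + m := by exact_mod_cast this
      rw [div_sub_one hm0.ne', div_le_iff₀ hm0]
      linarith
    have hw3 : w ≤ w ^ 3 := by nlinarith [pow_pos hw0 2]
    have ht : t0 ≤ x / m := by
      have : (t0 : ℝ) ≤ ((x / m : ℕ) : ℝ) := by linarith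
      exact_mod_cast this
    have h7 := ht0 (x / m) ht
    have hxm1 : (1 : ℝ) < ((x / m : ℕ) : ℝ) := by nlinarith
    have hlxm : Real.log ((x / m : ℕ) : ℝ) ≤ Real.log x := by
      refine Real.log_le_log (by linarith) ?_
      exact_mod_cast Nat.div_le_self x m
    have hlxm0 : 0 < Real.log ((x / m : ℕ) : ℝ) := Real.log_pos hxm1
    -- number of primes
    have h8 : ((primesLE (x / m)).card : ℝ) ≤
        (((primesLE (x / m)).filter (fun p => z < p)).card : ℝ) + z := by
      rw [← card_filter_add_card_filter_not (s := primesLE (x / m)) (fun p => z < p)]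
      push_cast
      have : (((primesLE (x / m)).filter (fun p => ¬ z < p)).card : ℝ) ≤ z := by
        have h9 : (primesLE (x / m)).filter (fun p => ¬ z < p) ⊆ Icc 1 z := by
          intro p hp
          rw [mem_filter, mem_primesLE] at hp
          rw [mem_Icc]
          exact ⟨hp.1.2.pos, by omega⟩
        have := card_le_card h9
        rw [Nat.card_Icc] at this
        exact_mod_cast (by omega : ((primesLE (x / m)).filter (fun p => ¬ z < p)).card ≤ z)
      linarith
    have h9 : 0.6 * (((x : ℝ) / m - 1) / Real.log x) ≤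
        0.6 * (((x / m : ℕ) : ℝ) / Real.log ((x / m : ℕ) : ℝ)) := by
      have : ((x : ℝ) / m - 1) / Real.log x ≤
          ((x / m : ℕ) : ℝ) / Real.log ((x / m : ℕ) : ℝ) :=
        div_le_div₀ (by linarith) hfl hlxm0 hlxm
      linarith
    have h10 : 0.5 * ((x : ℝ) / m / Real.log x) ≤
        (((primesLE (x / m)).filter (fun p => z < p)).card : ℝ) := by
      have e1 : w ^ 2 * 40 * Real.log x ≤ (x : ℝ) / m := by
        calc w ^ 2 * 40 * Real.log x = w ^ 2 * (40 * Real.log x) := by ring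
          _ ≤ w ^ 2 * w := by gcongr
          _ = w ^ 3 := by ring
          _ ≤ _ := hxm
      have e2 : w ^ 2 * 40 ≤ (x : ℝ) / m / Real.log x := by
        rw [le_div_iff₀ hlogx]; exact e1
      have e3 : 0.6 * (((x : ℝ) / m - 1) / Real.log x) =
          0.6 * ((x : ℝ) / m / Real.log x) - 0.6 / Real.log x := by ring
      have e4 : 0.6 / Real.log x ≤ 0.6 := by
        rw [div_le_iff₀ hlogx]; nlinarith
      have e5 : (1 : ℝ) ≤ w ^ 2 := by nlinarith
      linarith
    calc (u / 2 * (x / Real.log x)) * (u ^ (om y m) / m)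
        = u ^ (om x m + 1) * (0.5 * ((x : ℝ) / m / Real.log x)) := by
          rw [pow_succ, hom]
          field_simp
          norm_num
          ring
      _ ≤ _ := by gcongr
  rw [mul_sum]
  exact sum_le_sum h6

theorem core_low : ∃ x0 : ℕ, ∀ x : ℕ, x0 ≤ x → ∀ z : ℝ, 0 ≤ z →
    z / 2 * (x / Real.log x) * ∑ m ∈ Icc 1 ⌊(x : ℝ) ^ (1 / 4 : ℝ)⌋₊,
      z ^ om ⌊(x : ℝ) ^ (1 / 4 : ℝ)⌋₊ m / (m : ℝ) ≤ ∑ n ∈ Icc 1 x, z ^ om x n :=
  core_low_aux

end Pool.Agent.MEN
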