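import Pool.Agent.MEN.Defs

set_option autoImplicit false

/-!
MEN-Sca. The scales `wj N J j` (Defs only).

Elementary bounds, valid as soon as `log N ≥ 2 ^ J`.
-/

namespace Pool.Agent.MEN

private theorem one_le_log {N : ℕ} (hN : 3 ≤ N) : 1 ≤ Real.log N := by
  have hN' : (3 : ℝ) ≤ N := by exact_mod_cast hN
  rw [Real.le_log_iff_exp_le (by linarith)]
  have := Real.exp_one_lt_d9
  linarith

private theorem two_le_pow {N J : ℕ} (hJ : 1 ≤ J) (hN : (2 : ℝ) ^ J ≤ Real.log N) {j : ℕ}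
    (hj : 1 ≤ j) : 2 ≤ Real.log N ^ ((j : ℝ) / J) := by
  have hJ' : (J : ℝ) ≠ 0 := by
    have : (1 : ℝ) ≤ J := by exact_mod_cast hJ
    linarith
  have hj' : (1 : ℝ) ≤ j := by exact_mod_cast hj
  have h1 : ((2 : ℝ) ^ J) ^ ((j : ℝ) / J) ≤ Real.log N ^ ((j : ℝ) / J) :=
    Real.rpow_le_rpow (by positivity) hN (by positivity)
  have h2 : ((2 : ℝ) ^ J) ^ ((j : ℝ) / J) = (2 : ℝ) ^ (j : ℝ) := by
    rw [← Real.rpow_natCast 2 J, ← Real.rpow_mul (by norm_num), mul_div_cancel₀ _ hJ']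
  have h3 : (2 : ℝ) ^ (1 : ℝ) ≤ (2 : ℝ) ^ (j : ℝ) :=
    Real.rpow_le_rpow_of_exponent_le (by norm_num) hj'
  rw [Real.rpow_one] at h3
  rw [h2] at h1
  linarith

private theorem log_large {J N : ℕ} (hN : ⌈Real.exp ((2 : ℝ) ^ J)⌉₊ ≤ N) :
    (2 : ℝ) ^ J ≤ Real.log N := by
  have h1 : Real.exp ((2 : ℝ) ^ J) ≤ N := by
    refine (Nat.le_ceil _).trans ?_
    exact_mod_cast hN
  rw [Real.le_log_iff_exp_le (lt_of_lt_of_le (Real.exp_pos _) h1)]
  exact h1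

theorem wj_top {N J : ℕ} (hJ : 1 ≤ J) (hN : 1 ≤ N) : wj N J J = N := by
  have hJ' : (J : ℝ) ≠ 0 := by
    have : (1 : ℝ) ≤ J := by exact_mod_cast hJ
    linarith
  have hN' : (0 : ℝ) < N := by
    have : (1 : ℝ) ≤ N := by exact_mod_cast hN
    linarith
  rw [wj, div_self hJ', Real.rpow_one, Real.exp_log hN', Nat.floor_natCast]

theorem wj_mono {N J i j : ℕ} (hN : 3 ≤ N) (h : i ≤ j) : wj N J i ≤ wj N J j := by
  refine Nat.floor_le_floor (Real.exp_le_exp.2 ?_)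
  refine Real.rpow_le_rpow_of_exponent_le (one_le_log hN) ?_
  exact div_le_div_of_nonneg_right (by exact_mod_cast h) (Nat.cast_nonneg J)

theorem wj_log_le {N J j : ℕ} (hN : 3 ≤ N) :
    Real.log (wj N J j) ≤ Real.log N ^ ((j : ℝ) / J) := by
  have h0 : 0 ≤ Real.log N ^ ((j : ℝ) / J) :=
    Real.rpow_nonneg (by have := one_le_log hN; linarith) _
  have h1 : 1 ≤ Real.exp (Real.log N ^ ((j : ℝ) / J)) := Real.one_le_exp h0
  have h2 : 1 ≤ wj N J j := Nat.le_floor (by exact_mod_cast h1)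
  have h3 : ((wj N J j : ℕ) : ℝ) ≤ Real.exp (Real.log N ^ ((j : ℝ) / J)) :=
    Nat.floor_le (Real.exp_pos _).le
  have h4 : (0 : ℝ) < (wj N J j : ℕ) := by exact_mod_cast h2
  calc Real.log (wj N J j) ≤ Real.log (Real.exp (Real.log N ^ ((j : ℝ) / J))) :=
        Real.log_le_log h4 h3
    _ = _ := Real.log_exp _

theorem wj_large {J : ℕ} (hJ : 1 ≤ J) : ∃ N₀ : ℕ, ∀ N : ℕ, N₀ ≤ N → ∀ j : ℕ, 1 ≤ j → j ≤ J →
    2 ≤ wj N J j ∧ Real.log N ^ ((j : ℝ) / J) / 2 ≤ Real.log (wj N J j) := by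
  refine ⟨⌈Real.exp ((2 : ℝ) ^ J)⌉₊, fun N hN j hj _ => ?_⟩
  have hu := two_le_pow hJ (log_large hN) hj
  have hwj : wj N J j = ⌊Real.exp (Real.log N ^ ((j : ℝ) / J))⌋₊ := rfl
  rw [hwj]
  set u : ℝ := Real.log N ^ ((j : ℝ) / J) with hudef
  have h1 : u + 1 ≤ Real.exp u := Real.add_one_le_exp u
  have h2 : Real.exp u - 1 < (⌊Real.exp u⌋₊ : ℝ) := Nat.sub_one_lt_floor _
  have h3 : Real.exp u / 2 ≤ (⌊Real.exp u⌋₊ : ℝ) := by linarith
  refine ⟨Nat.le_floor (by push_cast; linarith), ?_⟩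
  have h4 : Real.log (Real.exp u / 2) ≤ Real.log (⌊Real.exp u⌋₊ : ℝ) :=
    Real.log_le_log (by positivity) h3
  rw [Real.log_div (Real.exp_pos u).ne' (by norm_num), Real.log_exp] at h4
  have h5 : Real.log 2 ≤ 1 := by
    have := Real.log_two_lt_d9
    linarith
  linarith

theorem wj_sq {J : ℕ} (hJ : 1 ≤ J) : ∃ N₀ : ℕ, ∀ N : ℕ, N₀ ≤ N → ∀ j : ℕ, j < J →
    (wj N J j) ^ 2 ≤ N := by
  refine ⟨⌈Real.exp ((2 : ℝ) ^ J)⌉₊, fun N hN j hj => ?_⟩
  have hlog := log_large hN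
  have hu := two_le_pow hJ hlog (j := J - j) (by omega)
  have hlog0 : 0 < Real.log N := lt_of_lt_of_le (by positivity) hlog
  have hN0 : (0 : ℝ) < N := by
    rcases Nat.eq_zero_or_pos N with h | h
    · rw [h, Nat.cast_zero, Real.log_zero] at hlog0
      exact absurd hlog0 (lt_irrefl _)
    · exact_mod_cast h
  have hJ' : (J : ℝ) ≠ 0 := by
    have : (1 : ℝ) ≤ J := by exact_mod_cast hJ
    linarith
  have h1 : Real.log N ^ ((j : ℝ) / J) * Real.log N ^ (((J - j : ℕ) : ℝ) / J) = Real.log N := by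
    rw [← Real.rpow_add hlog0, ← add_div, Nat.cast_sub hj.le, add_sub_cancel, div_self hJ',
      Real.rpow_one]
  have h2 : 0 ≤ Real.log N ^ ((j : ℝ) / J) := Real.rpow_nonneg hlog0.le _
  have h3 : 2 * Real.log N ^ ((j : ℝ) / J) ≤ Real.log N := by
    have h4 := mul_le_mul_of_nonneg_left hu h2
    linarith
  have h5 : ((wj N J j : ℕ) : ℝ) ≤ Real.exp (Real.log N ^ ((j : ℝ) / J)) :=
    Nat.floor_le (Real.exp_pos _).le
  have h6 : ((wj N J j : ℕ) : ℝ) ^ 2 ≤ N := by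
    calc ((wj N J j : ℕ) : ℝ) ^ 2 ≤ Real.exp (Real.log N ^ ((j : ℝ) / J)) ^ 2 :=
          pow_le_pow_left₀ (Nat.cast_nonneg _) h5 2
      _ = Real.exp (2 * Real.log N ^ ((j : ℝ) / J)) := by
          rw [← Real.exp_nat_mul]
          push_cast
          rfl
      _ ≤ Real.exp (Real.log N) := Real.exp_le_exp.2 h3
      _ = N := Real.exp_log hN0
  exact_mod_cast h6

end Pool.Agent.MEN
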