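import Pool.Agent.MEN.Lsu
import Pool.Agent.MEN.GenS
import Pool.Agent.MEN.Mer

set_option autoImplicit false

/-!
MEN-Two. Upper bounds for the sums of `a ^ om w n * b ^ (om x n - om w n)`.

`two_log`: `logsum_le` for `g = lv a b w` and Mertens (`mert_sum0`, `mert_sum`); `two_sum`: `gen_sum` with `two_log`;
`one_log`, `one_sum`: the case `a = b`, `w = 2`, where `(log x) ^ (a - 1) ≤ 3 (1 + log x) ^ (a - 1)`.
-/

namespace Pool.Agent.MEN

open Finset
open Helper52 (pr)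

private theorem mem_pr' {w x p : ℕ} : p ∈ pr w x ↔ (w < p ∧ p ≤ x) ∧ p.Prime := by
  unfold pr
  rw [mem_filter, mem_Ioc]

private theorem pr_split {w x : ℕ} (h : w ≤ x) (f : ℕ → ℝ) :
    ∑ p ∈ pr 0 x, f p = ∑ p ∈ pr 0 w, f p + ∑ p ∈ pr w x, f p := by
  rw [← sum_union]
  · congr 1
    ext p
    rw [mem_union, mem_pr', mem_pr', mem_pr']
    constructor
    · rintro ⟨⟨h1, h2⟩, h3⟩
      rcases le_or_gt p w with h4 | h4
      · exact Or.inl ⟨⟨h1, h4⟩, h3⟩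
      · exact Or.inr ⟨⟨h4, h2⟩, h3⟩
    · rintro (⟨⟨h1, h2⟩, h3⟩ | ⟨⟨h1, h2⟩, h3⟩)
      · exact ⟨⟨h1, h2.trans h⟩, h3⟩
      · exact ⟨⟨by omega, h2⟩, h3⟩
  · rw [disjoint_left]
    intro p h1 h2
    rw [mem_pr'] at h1 h2
    omega

private theorem lv_nonneg {a b : ℝ} (ha : 0 ≤ a) (hb : 0 ≤ b) (w p : ℕ) : 0 ≤ lv a b w p := by
  unfold lv
  split_ifs
  · exact zero_le_one
  · exact ha
  · exact hb

private theorem prime_sum {a b : ℝ} (ha : 0 ≤ a) (hb : 0 ≤ b) {w x : ℕ} (hw : 2 ≤ w)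
    (hx : w ≤ x) : ∑ p ∈ pr 0 x, lv a b w p / (p : ℝ) ≤
      1 + a * ∑ p ∈ pr 0 w, 1 / (p : ℝ) + b * ∑ p ∈ pr w x, 1 / (p : ℝ) := by
  rw [pr_split hx]
  have h1 : ∑ p ∈ pr 0 w, lv a b w p / (p : ℝ) ≤
      ∑ p ∈ pr 0 w, ((if p = 2 then (1 : ℝ) else 0) + a * (1 / (p : ℝ))) := by
    refine sum_le_sum fun p hp => ?_
    rw [mem_pr'] at hp
    have hp0 : (1 : ℝ) ≤ p := by exact_mod_cast hp.2.one_lt.le
    have hp1 : 1 / (p : ℝ) ≤ 1 := by
      rw [div_le_one (by linarith)]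
      exact hp0
    have hp2 : 0 ≤ 1 / (p : ℝ) := by positivity
    unfold lv
    by_cases h2 : p = 2
    · rw [if_pos h2, if_pos h2]
      have h3 : 0 ≤ a * (1 / (p : ℝ)) := mul_nonneg ha hp2
      linarith
    · rw [if_neg h2, if_neg h2, if_pos hp.1.2, zero_add, mul_one_div]
  have h2 : ∑ p ∈ pr 0 w, (if p = 2 then (1 : ℝ) else 0) ≤ 1 := by
    rw [sum_ite_eq']
    split_ifs
    · exact le_rfl
    · exact zero_le_one
  have h3 : ∑ p ∈ pr w x, lv a b w p / (p : ℝ) = b * ∑ p ∈ pr w x, 1 / (p : ℝ) := by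
    rw [mul_sum]
    refine sum_congr rfl fun p hp => ?_
    rw [mem_pr'] at hp
    unfold lv
    rw [if_neg (by omega), if_neg (by omega), mul_one_div]
  rw [sum_add_distrib, ← mul_sum] at h1
  linarith

private theorem log_pos_nat {w : ℕ} (hw : 2 ≤ w) : 0 < Real.log w := by
  apply Real.log_pos
  exact_mod_cast hw

theorem two_log {z : ℝ} (hz : z < 3) : ∃ C : ℝ, 1 ≤ C ∧ ∀ a b : ℝ, 0 ≤ a → a ≤ z → 0 ≤ b →
    b ≤ z → ∀ w x : ℕ, 2 ≤ w → w ≤ x →
    ∑ n ∈ Icc 1 x, a ^ om w n * b ^ (om x n - om w n) / (n : ℝ) ≤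
      C * (Real.log w ^ (a - b) * Real.log x ^ b) := by
  obtain ⟨C1, hC1, h1⟩ := logsum_le (max_lt hz (by norm_num : (1 : ℝ) < 3))
  obtain ⟨C2, hC2, h2⟩ := mert_sum0
  obtain ⟨C3, hC3, h3⟩ := mert_sum
  refine ⟨C1 * Real.exp (1 + 3 * C2 + 3 * C3), ?_, ?_⟩
  · have h4 : 1 ≤ Real.exp (1 + 3 * C2 + 3 * C3) := by
      rw [Real.one_le_exp_iff]
      linarith
    calc (1 : ℝ) = 1 * 1 := (one_mul 1).symm
      _ ≤ C1 * Real.exp (1 + 3 * C2 + 3 * C3) := mul_le_mul hC1 h4 zero_le_one (by linarith)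
  intro a b ha haz hb hbz w x hw hx
  have hw' := log_pos_nat hw
  have hx' := log_pos_nat (hw.trans hx)
  have h4 := h1 (lv a b w) (lv_nonneg ha hb w) (by unfold lv; rw [if_pos rfl])
    (fun p => by
      unfold lv
      split_ifs
      · exact le_max_right _ _
      · exact haz.trans (le_max_left _ _)
      · exact hbz.trans (le_max_left _ _)) x
  have h5 : ∑ n ∈ Icc 1 x, a ^ om w n * b ^ (om x n - om w n) / (n : ℝ) =
      ∑ n ∈ Icc 1 x, wt (lv a b w) n / (n : ℝ) := by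
    refine sum_congr rfl fun n hn => ?_
    rw [wt_lv a b hx (mem_Icc.1 hn).2]
  rw [h5]
  refine h4.trans ?_
  rw [mul_assoc]
  refine mul_le_mul_of_nonneg_left ?_ (by linarith)
  have e : Real.log w ^ (a - b) * Real.log x ^ b =
      Real.exp (a * Real.log (Real.log w) + b * (Real.log (Real.log x) - Real.log (Real.log w))) := by
    rw [Real.rpow_def_of_pos hw', Real.rpow_def_of_pos hx', ← Real.exp_add]
    congr 1
    ring
  rw [e, ← Real.exp_add]
  apply Real.exp_le_exp.2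
  have h6 := prime_sum ha hb hw hx
  have h7 := (abs_le.1 (h2 w hw)).2
  have h8 := (abs_le.1 (h3 w x hw hx)).2
  have a3 : a ≤ 3 := by linarith
  have b3 : b ≤ 3 := by linarith
  have h9 : a * ∑ p ∈ pr 0 w, 1 / (p : ℝ) ≤ a * Real.log (Real.log w) + 3 * C2 := by
    have h10 : a * ∑ p ∈ pr 0 w, 1 / (p : ℝ) ≤ a * (Real.log (Real.log w) + C2) :=
      mul_le_mul_of_nonneg_left (by linarith) ha
    have h11 : a * C2 ≤ 3 * C2 := mul_le_mul_of_nonneg_right a3 (by linarith)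
    linarith
  have h10 : b * ∑ p ∈ pr w x, 1 / (p : ℝ) ≤
      b * (Real.log (Real.log x) - Real.log (Real.log w)) + 3 * C3 := by
    have h11 : b * ∑ p ∈ pr w x, 1 / (p : ℝ) ≤
        b * ((Real.log (Real.log x) - Real.log (Real.log w)) + C3) :=
      mul_le_mul_of_nonneg_left (by linarith) hb
    have h12 : b * C3 ≤ 3 * C3 := mul_le_mul_of_nonneg_right b3 (by linarith)
    linarith
  linarith

theorem two_sum {z : ℝ} (hz : z < 3) : ∃ C : ℝ, 1 ≤ C ∧ ∀ a b : ℝ, 0 ≤ a → a ≤ z → 0 ≤ b →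
    b ≤ z → ∀ w x : ℕ, 2 ≤ w → w ≤ x →
    ∑ n ∈ Icc 1 x, a ^ om w n * b ^ (om x n - om w n) ≤
      C * (x * (Real.log w ^ (a - b) * Real.log x ^ (b - 1))) := by
  by_cases hz0 : 0 ≤ z
  swap
  · refine ⟨1, le_rfl, fun a b ha haz => ?_⟩
    exact absurd (ha.trans haz) hz0
  obtain ⟨C1, hC1, h1⟩ := two_log hz
  obtain ⟨C2, hC2, h2⟩ := gen_sum hz0 hz
  refine ⟨C2 * C1, ?_, ?_⟩
  · calc (1 : ℝ) = 1 * 1 := (one_mul 1).symm
      _ ≤ C2 * C1 := mul_le_mul hC2 hC1 zero_le_one (by linarith)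
  intro a b ha haz hb hbz w x hw hx
  have hw' := log_pos_nat hw
  have hx' := log_pos_nat (hw.trans hx)
  have hg := lv_nonneg ha hb w
  have hD0 : 0 ≤ C1 * (Real.log w ^ (a - b) * Real.log x ^ b) :=
    mul_nonneg (by linarith) (mul_nonneg (Real.rpow_nonneg hw'.le _) (Real.rpow_nonneg hx'.le _))
  have h3 := h2 x (fun n => wt (lv a b w) n) (fun _ n => wt (lv a b w) n)
    (C1 * (Real.log w ^ (a - b) * Real.log x ^ b)) (hw.trans hx) hD0
    (fun n => wt_nonneg hg n) (fun _ n => wt_nonneg hg n)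
    (fun m k hm => by
      have e : lv a b w 2 = 1 := by
        unfold lv
        rw [if_pos rfl]
      show wt (lv a b w) (m * 2 ^ k) ≤ wt (lv a b w) m
      rw [wt_mul _ (by omega) (pow_ne_zero _ two_ne_zero), wt_pow _ Nat.prime_two, e, one_pow,
        mul_one])
    (fun m p k hm hp hp2 _ _ => by
      show wt (lv a b w) (m * p ^ k) ≤ z ^ k * wt (lv a b w) m
      rw [wt_mul _ (by omega) (pow_ne_zero _ hp.ne_zero), wt_pow _ hp, mul_comm]
      refine mul_le_mul_of_nonneg_right ?_ (wt_nonneg hg m)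
      refine pow_le_pow_left₀ (hg p) ?_ k
      unfold lv
      rw [if_neg hp2]
      split_ifs
      · exact haz
      · exact hbz)
    (fun k => by
      have h4 := h1 a b ha haz hb hbz w x hw hx
      have h5 : ∑ n ∈ Icc 1 x, a ^ om w n * b ^ (om x n - om w n) / (n : ℝ) =
          ∑ n ∈ Icc 1 x, wt (lv a b w) n / (n : ℝ) := by
        refine sum_congr rfl fun n hn => ?_
        rw [wt_lv a b hx (mem_Icc.1 hn).2]
      rw [h5] at h4
      exact h4)
  have h5 : ∑ n ∈ Icc 1 x, a ^ om w n * b ^ (om x n - om w n) =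
      ∑ n ∈ Icc 1 x, wt (lv a b w) n := by
    refine sum_congr rfl fun n hn => ?_
    rw [wt_lv a b hx (mem_Icc.1 hn).2]
  rw [h5]
  refine h3.trans (le_of_eq ?_)
  rw [Real.rpow_sub_one hx'.ne']
  field_simp

private theorem pow_om {a : ℝ} {x : ℕ} (hx : 2 ≤ x) (n : ℕ) :
    a ^ om x n = a ^ om 2 n * a ^ (om x n - om 2 n) := by
  rw [← pow_add, Nat.add_sub_cancel' (om_mono hx n)]

theorem one_log {z : ℝ} (hz : z < 3) : ∃ C : ℝ, 1 ≤ C ∧ ∀ a : ℝ, 0 ≤ a → a ≤ z →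
    ∀ x : ℕ, 1 ≤ x → ∑ n ∈ Icc 1 x, a ^ om x n / (n : ℝ) ≤ C * (1 + Real.log x) ^ a := by
  obtain ⟨C, hC, h⟩ := two_log hz
  refine ⟨C, hC, fun a ha haz x hx => ?_⟩
  rcases Nat.lt_or_eq_of_le hx with h1 | h1
  · have h2 := h a a ha haz ha haz 2 x le_rfl h1
    rw [sub_self, Real.rpow_zero, one_mul] at h2
    have h3 : ∑ n ∈ Icc 1 x, a ^ om x n / (n : ℝ) =
        ∑ n ∈ Icc 1 x, a ^ om 2 n * a ^ (om x n - om 2 n) / (n : ℝ) :=
      sum_congr rfl fun n _ => by rw [pow_om h1]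
    rw [h3]
    refine h2.trans (mul_le_mul_of_nonneg_left ?_ (by linarith))
    have h4 := log_pos_nat h1
    exact Real.rpow_le_rpow h4.le (by linarith) ha
  · rw [← h1, Icc_self, sum_singleton, om_one, pow_zero, Nat.cast_one, div_one, Real.log_one,
      add_zero, Real.one_rpow, mul_one]
    exact hC

private theorem rpow_cmp {a : ℝ} (ha : 0 ≤ a) {x : ℕ} (hx : 2 ≤ x) :
    Real.log x ^ (a - 1) ≤ 3 * (1 + Real.log x) ^ (a - 1) := by
  have h4 := log_pos_nat hx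
  have h5 : 0 < (1 + Real.log x) ^ (a - 1) := Real.rpow_pos_of_pos (by linarith) _
  rcases le_or_gt 1 a with h1 | h1
  · have h2 : Real.log x ^ (a - 1) ≤ (1 + Real.log x) ^ (a - 1) :=
      Real.rpow_le_rpow h4.le (by linarith) (by linarith)
    linarith
  · have h2 : Real.log 2 ≤ Real.log x := by
      apply Real.log_le_log (by norm_num)
      exact_mod_cast hx
    have h3 := Real.log_two_gt_d9
    have h6 : (1 + Real.log x) / 3 ≤ Real.log x := by linarith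
    have h7 : Real.log x ^ (a - 1) ≤ ((1 + Real.log x) / 3) ^ (a - 1) :=
      Real.rpow_le_rpow_of_nonpos (by positivity) h6 (by linarith)
    refine h7.trans ?_
    rw [Real.div_rpow (by linarith) (by norm_num), div_eq_mul_inv, mul_comm]
    refine mul_le_mul_of_nonneg_right ?_ h5.le
    rw [← Real.rpow_neg (by norm_num)]
    calc (3 : ℝ) ^ (-(a - 1)) ≤ 3 ^ (1 : ℝ) :=
          Real.rpow_le_rpow_of_exponent_le (by norm_num) (by linarith)
      _ = 3 := Real.rpow_one 3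

theorem one_sum {z : ℝ} (hz : z < 3) : ∃ C : ℝ, 1 ≤ C ∧ ∀ a : ℝ, 0 ≤ a → a ≤ z →
    ∀ x : ℕ, 1 ≤ x → ∑ n ∈ Icc 1 x, a ^ om x n ≤ C * (x * (1 + Real.log x) ^ (a - 1)) := by
  obtain ⟨C, hC, h⟩ := two_sum hz
  refine ⟨3 * C, by linarith, fun a ha haz x hx => ?_⟩
  rcases Nat.lt_or_eq_of_le hx with h1 | h1
  · have h2 := h a a ha haz ha haz 2 x le_rfl h1
    rw [sub_self, Real.rpow_zero, one_mul] at h2
    have h3 : ∑ n ∈ Icc 1 x, a ^ om x n =
        ∑ n ∈ Icc 1 x, a ^ om 2 n * a ^ (om x n - om 2 n) :=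
      sum_congr rfl fun n _ => by rw [pow_om h1]
    rw [h3]
    refine h2.trans ?_
    have h4 := rpow_cmp ha h1
    have h5 : (0 : ℝ) ≤ C * x := mul_nonneg (by linarith) (Nat.cast_nonneg _)
    have h6 := mul_le_mul_of_nonneg_left h4 h5
    calc C * (x * Real.log x ^ (a - 1)) = C * x * Real.log x ^ (a - 1) := by ring
      _ ≤ C * x * (3 * (1 + Real.log x) ^ (a - 1)) := h6
      _ = 3 * C * (x * (1 + Real.log x) ^ (a - 1)) := by ring
  · rw [← h1, Icc_self, sum_singleton, om_one, pow_zero, Nat.cast_one, Real.log_one,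
      add_zero, Real.one_rpow, mul_one, mul_one]
    linarith

end Pool.Agent.MEN
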