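import Pool.Agent.MEN.Lsm
import Pool.Agent.MEN.Two
import Pool.Agent.MEN.Sca

set_option autoImplicit false

/-!
MEN-Crd. The sets `Bs κ J N` are large.

Weight the integers up to `N` by `κ₁ ^ om N n` with `κ₁ < κ` close to `κ`: the integers which violate
one of the conditions of `Bs κ J N`, and the integers with less than `κ₂ * LL N` odd prime factors
(`κ₂ < κ₁`), contribute a negligible part of the sum (Rankin's method).
-/

namespace Pool.Agent.MEN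

open Finset

private theorem swap_pow {b L : ℝ} (hb : 0 < b) (hL : 0 < L) (y : ℝ) :
    b ^ (y * Real.log L) = L ^ (y * Real.log b) := by
  rw [Real.rpow_def_of_pos hb, Real.rpow_def_of_pos hL]
  congr 1
  ring

private theorem pow_le_W {κ κ₁ X : ℝ} {m : ℕ} (h0 : 0 < κ₁) (h1 : κ₁ < κ) (hX : X < m) :
    κ₁ ^ m ≤ (κ / κ₁) ^ (-X) * κ ^ m := by
  have hr : 1 < κ / κ₁ := (one_lt_div h0).mpr h1
  have hr0 : 0 < κ / κ₁ := by linarith
  have h2 : (κ / κ₁) ^ X ≤ (κ / κ₁) ^ m := by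
    rw [← Real.rpow_natCast]
    exact Real.rpow_le_rpow_of_exponent_le hr.le hX.le
  have h3 : κ ^ m = (κ / κ₁) ^ m * κ₁ ^ m := by
    rw [← mul_pow, div_mul_cancel₀ _ h0.ne']
  rw [h3, Real.rpow_neg hr0.le, ← mul_assoc]
  have h4 : 1 ≤ ((κ / κ₁) ^ X)⁻¹ * (κ / κ₁) ^ m := by
    rw [← div_eq_inv_mul, one_le_div (Real.rpow_pos_of_pos hr0 _)]
    exact h2
  exact le_mul_of_one_le_left (pow_nonneg h0.le _) h4

private theorem pow_le_W2 {κ₁ κ₂ X : ℝ} {m : ℕ} (h0 : 0 < κ₂) (h1 : κ₂ < κ₁)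
    (hX : (m : ℝ) ≤ X) : κ₁ ^ m ≤ (κ₁ / κ₂) ^ X * κ₂ ^ m := by
  have hr : 1 < κ₁ / κ₂ := (one_lt_div h0).mpr h1
  have h2 : (κ₁ / κ₂) ^ m ≤ (κ₁ / κ₂) ^ X := by
    rw [← Real.rpow_natCast]
    exact Real.rpow_le_rpow_of_exponent_le hr.le hX
  calc κ₁ ^ m = (κ₁ / κ₂) ^ m * κ₂ ^ m := by rw [← mul_pow, div_mul_cancel₀ _ h0.ne']
    _ ≤ (κ₁ / κ₂) ^ X * κ₂ ^ m := mul_le_mul_of_nonneg_right h2 (pow_nonneg h0.le _)

private theorem core {κ κ₁ κ₂ : ℝ} (h2 : 0 < κ₂) (h21 : κ₂ < κ₁) (h1 : κ₁ < κ) (hκ : κ < 1)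
    {J N : ℕ} (hL : 0 < Real.log N) (hw : ∀ j, 1 ≤ j → j ≤ J → wj N J j ≤ N) :
    ∑ n ∈ Icc 1 N, κ₁ ^ om N n ≤
      ((Bs κ J N).card : ℝ) * Real.log N ^ (κ₂ * Real.log κ₁) +
      Real.log N ^ (κ₂ * Real.log (κ₁ / κ₂)) * ∑ n ∈ Icc 1 N, κ₂ ^ om N n +
      ∑ j ∈ Icc 1 J, Real.log N ^ (-(κ * ((j : ℝ) / J)) * Real.log (κ / κ₁)) *
        ∑ n ∈ Icc 1 N, κ ^ om (wj N J j) n * κ₁ ^ (om N n - om (wj N J j) n) := by
  classical
  have hκ1 : 0 < κ₁ := h2.trans h21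
  have hκ0 : 0 < κ := hκ1.trans h1
  have hr0 : 0 < κ / κ₁ := div_pos hκ0 hκ1
  have hr2 : 0 < κ₁ / κ₂ := div_pos hκ1 h2
  obtain ⟨t, ht⟩ : ∃ t : ℕ → ℕ → ℝ, t = fun j n : ℕ =>
      Real.log N ^ (-(κ * ((j : ℝ) / J)) * Real.log (κ / κ₁)) *
        (κ ^ om (wj N J j) n * κ₁ ^ (om N n - om (wj N J j) n)) := ⟨_, rfl⟩
  have htn : ∀ j n, 0 ≤ t j n := by
    intro j n
    rw [ht]
    exact mul_nonneg (Real.rpow_nonneg hL.le _)
      (mul_nonneg (pow_nonneg hκ0.le _) (pow_nonneg hκ1.le _))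
  have hun : ∀ n, 0 ≤ Real.log N ^ (κ₂ * Real.log (κ₁ / κ₂)) * κ₂ ^ om N n := fun n =>
    mul_nonneg (Real.rpow_nonneg hL.le _) (pow_nonneg h2.le _)
  have hvn : ∀ n, (0 : ℝ) ≤
      (if n ∈ Bs κ J N then Real.log N ^ (κ₂ * Real.log κ₁) else 0) := by
    intro n
    split_ifs
    · exact Real.rpow_nonneg hL.le _
    · exact le_rfl
  have hpt : ∀ n ∈ Icc 1 N, κ₁ ^ om N n ≤
      (if n ∈ Bs κ J N then Real.log N ^ (κ₂ * Real.log κ₁) else 0) +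
      Real.log N ^ (κ₂ * Real.log (κ₁ / κ₂)) * κ₂ ^ om N n + ∑ j ∈ Icc 1 J, t j n := by
    intro n hn
    have hsum0 : 0 ≤ ∑ j ∈ Icc 1 J, t j n := Finset.sum_nonneg fun j _ => htn j n
    by_cases hb : ∃ j ∈ Icc 1 J, κ * ((j : ℝ) / J) * LL N < (om (wj N J j) n : ℝ)
    · obtain ⟨j, hj, hlt⟩ := hb
      have hsingle : t j n ≤ ∑ j ∈ Icc 1 J, t j n :=
        Finset.single_le_sum (f := fun j => t j n) (fun j _ => htn j n) hj
      have hterm : κ₁ ^ om N n ≤ t j n := by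
        have hj' := Finset.mem_Icc.mp hj
        have hle : om (wj N J j) n ≤ om N n := om_mono (hw j hj'.1 hj'.2) n
        have hsplit : κ₁ ^ om N n =
            κ₁ ^ om (wj N J j) n * κ₁ ^ (om N n - om (wj N J j) n) := by
          rw [← pow_add, Nat.add_sub_cancel' hle]
        have hW := pow_le_W hκ1 h1 hlt
        have hW2 : (κ / κ₁) ^ (-(κ * ((j : ℝ) / J) * LL N)) =
            Real.log N ^ (-(κ * ((j : ℝ) / J)) * Real.log (κ / κ₁)) := by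
          rw [LL, ← neg_mul, swap_pow hr0 hL]
        rw [hW2] at hW
        rw [hsplit, ht]
        dsimp only
        rw [← mul_assoc]
        exact mul_le_mul_of_nonneg_right hW (pow_nonneg hκ1.le _)
      have h3 := hun n
      have h4 := hvn n
      linarith
    · push Not at hb
      by_cases h : (om N n : ℝ) ≤ κ₂ * LL N
      · have hW := pow_le_W2 h2 h21 h
        have hW2 : (κ₁ / κ₂) ^ (κ₂ * LL N) = Real.log N ^ (κ₂ * Real.log (κ₁ / κ₂)) := by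
          rw [LL, swap_pow hr2 hL]
        rw [hW2] at hW
        have h4 := hvn n
        linarith
      · have hmem : n ∈ Bs κ J N := by
          unfold Bs
          simp only [Finset.mem_filter]
          exact ⟨hn, fun j hj => hb j hj⟩
        rw [if_pos hmem]
        have h5 : κ₁ ^ om N n ≤ Real.log N ^ (κ₂ * Real.log κ₁) := by
          rw [← swap_pow hκ1 hL, ← Real.rpow_natCast]
          exact Real.rpow_le_rpow_of_exponent_ge hκ1 (h1.trans hκ).le (not_le.mp h).le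
        have h3 := hun n
        linarith
  calc ∑ n ∈ Icc 1 N, κ₁ ^ om N n ≤ ∑ n ∈ Icc 1 N,
      ((if n ∈ Bs κ J N then Real.log N ^ (κ₂ * Real.log κ₁) else 0) +
      Real.log N ^ (κ₂ * Real.log (κ₁ / κ₂)) * κ₂ ^ om N n + ∑ j ∈ Icc 1 J, t j n) :=
        Finset.sum_le_sum hpt
    _ = ∑ n ∈ Icc 1 N, (if n ∈ Bs κ J N then Real.log N ^ (κ₂ * Real.log κ₁) else 0) +
      Real.log N ^ (κ₂ * Real.log (κ₁ / κ₂)) * ∑ n ∈ Icc 1 N, κ₂ ^ om N n +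
      ∑ j ∈ Icc 1 J, ∑ n ∈ Icc 1 N, t j n := by
        rw [Finset.sum_add_distrib, Finset.sum_add_distrib, ← Finset.mul_sum]
        congr 1
        exact Finset.sum_comm
    _ ≤ ((Bs κ J N).card : ℝ) * Real.log N ^ (κ₂ * Real.log κ₁) +
      Real.log N ^ (κ₂ * Real.log (κ₁ / κ₂)) * ∑ n ∈ Icc 1 N, κ₂ ^ om N n +
      ∑ j ∈ Icc 1 J, ∑ n ∈ Icc 1 N, t j n := by
        have h6 : ∑ n ∈ Icc 1 N,
            (if n ∈ Bs κ J N then Real.log N ^ (κ₂ * Real.log κ₁) else 0) ≤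
            ((Bs κ J N).card : ℝ) * Real.log N ^ (κ₂ * Real.log κ₁) := by
          rw [← Finset.sum_filter, Finset.sum_const, nsmul_eq_mul]
          apply mul_le_mul_of_nonneg_right _ (Real.rpow_nonneg hL.le _)
          have h7 : ((Icc 1 N).filter (fun n => n ∈ Bs κ J N)).card ≤ (Bs κ J N).card :=
            Finset.card_le_card fun n hn => (Finset.mem_filter.mp hn).2
          exact_mod_cast h7
        linarith
    _ = ((Bs κ J N).card : ℝ) * Real.log N ^ (κ₂ * Real.log κ₁) +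
      Real.log N ^ (κ₂ * Real.log (κ₁ / κ₂)) * ∑ n ∈ Icc 1 N, κ₂ ^ om N n +
      ∑ j ∈ Icc 1 J, Real.log N ^ (-(κ * ((j : ℝ) / J)) * Real.log (κ / κ₁)) *
        ∑ n ∈ Icc 1 N, κ ^ om (wj N J j) n * κ₁ ^ (om N n - om (wj N J j) n) := by
        congr 1
        apply Finset.sum_congr rfl
        intro j _
        rw [ht, Finset.mul_sum]

private theorem ev_small (K : ℝ) {y c : ℝ} (hy : 0 < y) (hc : 0 < c) :
    ∀ᶠ t : ℝ in Filter.atTop, K * t ^ (-y) ≤ c := by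
  have h := (tendsto_rpow_neg_atTop hy).const_mul K
  rw [mul_zero] at h
  exact (h.eventually (gt_mem_nhds hc)).mono fun t ht => le_of_lt ht

private theorem choose_params {κ ε : ℝ} (h0 : 0 < κ) (h1 : κ < 1) (hε : 0 < ε) :
    ∃ κ₁ κ₂ : ℝ, 0 < κ₂ ∧ κ₂ < κ₁ ∧ κ₁ < κ ∧
      κ - 1 - κ * Real.log κ - ε / 2 ≤ κ₁ - 1 - κ₂ * Real.log κ₁ := by
  have hlog : Real.log κ < 0 := Real.log_neg h0 h1
  have hD : 0 < 1 - 2 * Real.log κ := by linarith
  obtain ⟨s, hs0, hs1, hs2⟩ : ∃ s : ℝ, 0 < s ∧ 2 * s < κ ∧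
      s * (1 - 2 * Real.log κ) ≤ ε / 2 := by
    refine ⟨min (κ / 4) (ε / (2 * (1 - 2 * Real.log κ))), lt_min (by positivity)
      (by positivity), ?_, ?_⟩
    · have h3 := min_le_left (κ / 4) (ε / (2 * (1 - 2 * Real.log κ)))
      linarith
    · have h3 := min_le_right (κ / 4) (ε / (2 * (1 - 2 * Real.log κ)))
      calc min (κ / 4) (ε / (2 * (1 - 2 * Real.log κ))) * (1 - 2 * Real.log κ)
          ≤ ε / (2 * (1 - 2 * Real.log κ)) * (1 - 2 * Real.log κ) :=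
            mul_le_mul_of_nonneg_right h3 hD.le
        _ = ε / 2 := by field_simp
  refine ⟨κ - s, κ - 2 * s, by linarith, by linarith, by linarith, ?_⟩
  have h3 : Real.log (κ - s) ≤ Real.log κ := Real.log_le_log (by linarith) (by linarith)
  have h4 : (κ - 2 * s) * Real.log (κ - s) ≤ (κ - 2 * s) * Real.log κ :=
    mul_le_mul_of_nonneg_left h3 (by linarith)
  have h5 : (κ - 2 * s) * Real.log κ = κ * Real.log κ - 2 * (s * Real.log κ) := by ring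
  have h6 : s * (1 - 2 * Real.log κ) = s - 2 * (s * Real.log κ) := by ring
  linarith

theorem card_Bs {κ : ℝ} (h0 : 0 < κ) (h1 : κ < 1) {J : ℕ} (hJ : 1 ≤ J) {ε : ℝ} (hε : 0 < ε) :
    ∃ N₀ : ℕ, ∀ N : ℕ, N₀ ≤ N →
    N * Real.log N ^ (-(κ * Real.log κ - κ + 1) - ε) ≤ ((Bs κ J N).card : ℝ) := by
  obtain ⟨κ₁, κ₂, hκ2, h21, h1κ, hexp⟩ := choose_params h0 h1 hε
  have hκ1 : 0 < κ₁ := hκ2.trans h21
  have hJ' : (0 : ℝ) < J := by exact_mod_cast hJ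
  -- the two gains
  obtain ⟨δ, hδ⟩ : ∃ δ : ℝ, δ = κ * Real.log (κ / κ₁) - (κ - κ₁) := ⟨_, rfl⟩
  have hδ0 : 0 < δ := by
    have h3 : Real.log (κ₁ / κ) < κ₁ / κ - 1 := by
      apply Real.log_lt_sub_one_of_pos (div_pos hκ1 h0)
      rw [Ne, div_eq_one_iff_eq h0.ne']
      exact h1κ.ne
    have h4 : Real.log (κ / κ₁) = -Real.log (κ₁ / κ) := by
      rw [← Real.log_inv, inv_div]
    have h5 : κ * (1 - κ₁ / κ) = κ - κ₁ := by field_simp
    have h6 : κ * (1 - κ₁ / κ) < κ * Real.log (κ / κ₁) := by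
      apply mul_lt_mul_of_pos_left _ h0
      rw [h4]
      linarith
    rw [hδ]
    linarith
  obtain ⟨δ₂, hδ₂⟩ : ∃ δ₂ : ℝ, δ₂ = κ₁ - κ₂ - κ₂ * Real.log (κ₁ / κ₂) := ⟨_, rfl⟩
  have hδ₂0 : 0 < δ₂ := by
    have h3 : Real.log (κ₁ / κ₂) < κ₁ / κ₂ - 1 := by
      apply Real.log_lt_sub_one_of_pos (div_pos hκ1 hκ2)
      rw [Ne, div_eq_one_iff_eq hκ2.ne']
      exact h21.ne'
    have h5 : κ₂ * (κ₁ / κ₂ - 1) = κ₁ - κ₂ := by field_simp
    have h6 : κ₂ * Real.log (κ₁ / κ₂) < κ₂ * (κ₁ / κ₂ - 1) := mul_lt_mul_of_pos_left h3 hκ2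
    rw [hδ₂]
    linarith
  -- the constants
  obtain ⟨c, hc, x0, hx0⟩ := sum_ge hκ1 (by linarith : κ₁ ≤ 3)
  obtain ⟨C, hC1, hC⟩ := two_sum (z := 2) (by norm_num)
  obtain ⟨Nw, hNw⟩ := wj_large hJ
  have hev : ∀ᶠ t : ℝ in Filter.atTop, ((J : ℝ) * C) * t ^ (-(δ / J)) ≤ c / 4 ∧
      C * t ^ (-δ₂) ≤ c / 4 ∧ 1 * t ^ (-(ε / 2)) ≤ c / 2 ∧ 1 ≤ t :=
    (ev_small _ (div_pos hδ0 hJ') (by positivity)).and
      ((ev_small _ hδ₂0 (by positivity)).and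
        ((ev_small _ (half_pos hε) (by positivity)).and (Filter.eventually_ge_atTop 1)))
  have hev2 := (Real.tendsto_log_atTop.comp tendsto_natCast_atTop_atTop).eventually hev
  obtain ⟨N1, hN1⟩ := Filter.eventually_atTop.mp hev2
  refine ⟨max (max N1 x0) (max Nw 3), fun N hN => ?_⟩
  have hNN1 : N1 ≤ N := le_trans (le_trans (le_max_left _ _) (le_max_left _ _)) hN
  have hNx0 : x0 ≤ N := le_trans (le_trans (le_max_right _ _) (le_max_left _ _)) hN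
  have hNNw : Nw ≤ N := le_trans (le_trans (le_max_left _ _) (le_max_right _ _)) hN
  have hN3 : 3 ≤ N := le_trans (le_trans (le_max_right _ _) (le_max_right _ _)) hN
  obtain ⟨hT1, hT2, hT3, hT4⟩ := hN1 N hNN1
  simp only [Function.comp_apply] at hT1 hT2 hT3 hT4
  have hS := hx0 N hNx0
  have hwN : ∀ j, 1 ≤ j → j ≤ J → wj N J j ≤ N := by
    intro j _ hj
    calc wj N J j ≤ wj N J J := wj_mono hN3 hj
      _ = N := wj_top hJ (by omega)
  have hlogw : ∀ j, Real.log (wj N J j) ≤ Real.log N ^ ((j : ℝ) / J) := fun j => wj_log_le hN3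
  obtain ⟨L, hLdef⟩ : ∃ L : ℝ, L = Real.log N := ⟨_, rfl⟩
  have hLpos : 0 < Real.log N := lt_of_lt_of_le one_pos hT4
  have hcore := core hκ2 h21 h1κ h1 hLpos hwN
  have htwo : ∑ n ∈ Icc 1 N, κ₂ ^ om N n ≤ C * (N * Real.log N ^ (κ₂ - 1)) := by
    have h3 := hC κ₂ κ₂ hκ2.le (by linarith) hκ2.le (by linarith) N N (by omega) le_rfl
    simpa only [Nat.sub_self, pow_zero, mul_one, sub_self, Real.rpow_zero, one_mul] using h3
  have hlev : ∀ j ∈ Icc 1 J, ∑ n ∈ Icc 1 N, κ ^ om (wj N J j) n *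
      κ₁ ^ (om N n - om (wj N J j) n) ≤
      C * (N * (Real.log (wj N J j) ^ (κ - κ₁) * Real.log N ^ (κ₁ - 1))) := by
    intro j hj
    have hj' := Finset.mem_Icc.mp hj
    exact hC κ κ₁ h0.le (by linarith) hκ1.le (by linarith) (wj N J j) N
      (hNw N hNNw j hj'.1 hj'.2).1 (hwN j hj'.1 hj'.2)
  have hwpos : ∀ j ∈ Icc 1 J, 0 ≤ Real.log (wj N J j) := by
    intro j hj
    have hj' := Finset.mem_Icc.mp hj
    have h3 := (hNw N hNNw j hj'.1 hj'.2).1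
    apply Real.log_nonneg
    have : (2 : ℝ) ≤ (wj N J j : ℝ) := by exact_mod_cast h3
    linarith
  rw [← hLdef] at hT1 hT2 hT3 hT4 hS hlogw hLpos hcore htwo hlev ⊢
  have hNpos : (0 : ℝ) < N := by
    have : 0 < N := by omega
    exact_mod_cast this
  -- the contribution of one scale
  have hone : ∀ j ∈ Icc 1 J, L ^ (-(κ * ((j : ℝ) / J)) * Real.log (κ / κ₁)) *
      ∑ n ∈ Icc 1 N, κ ^ om (wj N J j) n * κ₁ ^ (om N n - om (wj N J j) n) ≤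
      (N * L ^ (κ₁ - 1)) * (C * L ^ (-(δ / J))) := by
    intro j hj
    have hj' := Finset.mem_Icc.mp hj
    have h3 : Real.log (wj N J j) ^ (κ - κ₁) ≤ L ^ (((j : ℝ) / J) * (κ - κ₁)) := by
      rw [Real.rpow_mul hLpos.le]
      exact Real.rpow_le_rpow (hwpos j hj) (hlogw j) (by linarith)
    have h4 : L ^ (-(κ * ((j : ℝ) / J)) * Real.log (κ / κ₁)) *
        L ^ (((j : ℝ) / J) * (κ - κ₁)) ≤ L ^ (-(δ / J)) := by
      rw [← Real.rpow_add hLpos]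
      apply Real.rpow_le_rpow_of_exponent_le hT4
      have h5 : -(κ * ((j : ℝ) / J)) * Real.log (κ / κ₁) + ((j : ℝ) / J) * (κ - κ₁) =
          -((j : ℝ) * (δ / J)) := by
        rw [hδ]
        ring
      rw [h5]
      have h6 : (1 : ℝ) ≤ j := by exact_mod_cast hj'.1
      have h7 : 0 < δ / J := div_pos hδ0 hJ'
      nlinarith
    calc L ^ (-(κ * ((j : ℝ) / J)) * Real.log (κ / κ₁)) *
      ∑ n ∈ Icc 1 N, κ ^ om (wj N J j) n * κ₁ ^ (om N n - om (wj N J j) n)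
        ≤ L ^ (-(κ * ((j : ℝ) / J)) * Real.log (κ / κ₁)) *
          (C * (N * (Real.log (wj N J j) ^ (κ - κ₁) * L ^ (κ₁ - 1)))) :=
          mul_le_mul_of_nonneg_left (hlev j hj) (Real.rpow_nonneg hLpos.le _)
      _ ≤ L ^ (-(κ * ((j : ℝ) / J)) * Real.log (κ / κ₁)) *
          (C * (N * (L ^ (((j : ℝ) / J) * (κ - κ₁)) * L ^ (κ₁ - 1)))) := by
          apply mul_le_mul_of_nonneg_left _ (Real.rpow_nonneg hLpos.le _)
          apply mul_le_mul_of_nonneg_left _ (by linarith)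
          apply mul_le_mul_of_nonneg_left _ hNpos.le
          exact mul_le_mul_of_nonneg_right h3 (Real.rpow_nonneg hLpos.le _)
      _ = (N * L ^ (κ₁ - 1)) * (C * (L ^ (-(κ * ((j : ℝ) / J)) * Real.log (κ / κ₁)) *
          L ^ (((j : ℝ) / J) * (κ - κ₁)))) := by ring
      _ ≤ (N * L ^ (κ₁ - 1)) * (C * L ^ (-(δ / J))) := by
          apply mul_le_mul_of_nonneg_left _
            (mul_nonneg hNpos.le (Real.rpow_nonneg hLpos.le _))
          exact mul_le_mul_of_nonneg_left h4 (by linarith)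
  have hall : ∑ j ∈ Icc 1 J, L ^ (-(κ * ((j : ℝ) / J)) * Real.log (κ / κ₁)) *
      ∑ n ∈ Icc 1 N, κ ^ om (wj N J j) n * κ₁ ^ (om N n - om (wj N J j) n) ≤
      (N * L ^ (κ₁ - 1)) * (c / 4) := by
    calc ∑ j ∈ Icc 1 J, L ^ (-(κ * ((j : ℝ) / J)) * Real.log (κ / κ₁)) *
      ∑ n ∈ Icc 1 N, κ ^ om (wj N J j) n * κ₁ ^ (om N n - om (wj N J j) n)
        ≤ ∑ j ∈ Icc 1 J, (N * L ^ (κ₁ - 1)) * (C * L ^ (-(δ / J))) := Finset.sum_le_sum hone
      _ = (N * L ^ (κ₁ - 1)) * (((J : ℝ) * C) * L ^ (-(δ / J))) := by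
          rw [Finset.sum_const, Nat.card_Icc, nsmul_eq_mul, Nat.add_sub_cancel]
          ring
      _ ≤ (N * L ^ (κ₁ - 1)) * (c / 4) :=
          mul_le_mul_of_nonneg_left hT1 (mul_nonneg hNpos.le (Real.rpow_nonneg hLpos.le _))
  have hsecond : L ^ (κ₂ * Real.log (κ₁ / κ₂)) * ∑ n ∈ Icc 1 N, κ₂ ^ om N n ≤
      (N * L ^ (κ₁ - 1)) * (c / 4) := by
    calc L ^ (κ₂ * Real.log (κ₁ / κ₂)) * ∑ n ∈ Icc 1 N, κ₂ ^ om N n
        ≤ L ^ (κ₂ * Real.log (κ₁ / κ₂)) * (C * (N * L ^ (κ₂ - 1))) :=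
          mul_le_mul_of_nonneg_left htwo (Real.rpow_nonneg hLpos.le _)
      _ = (N * (L ^ (κ₂ * Real.log (κ₁ / κ₂)) * L ^ (κ₂ - 1))) * C := by ring
      _ = (N * L ^ (κ₁ - 1)) * (C * L ^ (-δ₂)) := by
          rw [← Real.rpow_add hLpos]
          have h3 : κ₂ * Real.log (κ₁ / κ₂) + (κ₂ - 1) = (κ₁ - 1) + (-δ₂) := by
            rw [hδ₂]
            ring
          rw [h3, Real.rpow_add hLpos]
          ring
      _ ≤ (N * L ^ (κ₁ - 1)) * (c / 4) :=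
          mul_le_mul_of_nonneg_left hT2 (mul_nonneg hNpos.le (Real.rpow_nonneg hLpos.le _))
  -- the end
  have hmain : (N * L ^ (κ₁ - 1)) * (c / 2) ≤
      ((Bs κ J N).card : ℝ) * L ^ (κ₂ * Real.log κ₁) := by
    have h3 : c * (N * L ^ (κ₁ - 1)) = (N * L ^ (κ₁ - 1)) * (c / 4) +
        (N * L ^ (κ₁ - 1)) * (c / 4) + (N * L ^ (κ₁ - 1)) * (c / 2) := by ring
    linarith
  have hV : 0 < L ^ (κ₂ * Real.log κ₁) := Real.rpow_pos_of_pos hLpos _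
  refine le_of_mul_le_mul_right ?_ hV
  refine le_trans ?_ hmain
  have h3 : L ^ (-(κ * Real.log κ - κ + 1) - ε) * L ^ (κ₂ * Real.log κ₁) ≤
      L ^ (κ₁ - 1) * L ^ (-(ε / 2)) := by
    rw [← Real.rpow_add hLpos, ← Real.rpow_add hLpos]
    apply Real.rpow_le_rpow_of_exponent_le hT4
    linarith
  calc N * L ^ (-(κ * Real.log κ - κ + 1) - ε) * L ^ (κ₂ * Real.log κ₁)
      = N * (L ^ (-(κ * Real.log κ - κ + 1) - ε) * L ^ (κ₂ * Real.log κ₁)) := by ring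
    _ ≤ N * (L ^ (κ₁ - 1) * L ^ (-(ε / 2))) := mul_le_mul_of_nonneg_left h3 hNpos.le
    _ = (N * L ^ (κ₁ - 1)) * (1 * L ^ (-(ε / 2))) := by ring
    _ ≤ (N * L ^ (κ₁ - 1)) * (c / 2) :=
        mul_le_mul_of_nonneg_left hT3 (mul_nonneg hNpos.le (Real.rpow_nonneg hLpos.le _))

end Pool.Agent.MEN
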