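import Pool.Agent.MEN.Bas

set_option autoImplicit false

/-!
MEN-Cs. The Cauchy-Schwarz lower bound for the energy: the numbers `r m` of the representations
`m = a * b`, `a ∈ B`, `b ≤ N`, are tested against the weight `ρ ^ om (N ^ 2) m`.
-/

namespace Pool.Agent.MEN

open Finset

private theorem energy_eq (B : Finset ℕ) (N : ℕ) (hB : B ⊆ Icc 1 N) :
    energy B N = ∑ m ∈ Icc 1 (N ^ 2),
      ((B ×ˢ Icc 1 N).filter (fun x => x.1 * x.2 = m)).card ^ 2 := by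
  unfold energy
  have hmap : ∀ x ∈ ((B ×ˢ Icc 1 N) ×ˢ (B ×ˢ Icc 1 N)).filter
      (fun x => x.1.1 * x.1.2 = x.2.1 * x.2.2), x.1.1 * x.1.2 ∈ Icc 1 (N ^ 2) := by
    intro x hx
    have h1 := (mem_product.1 (mem_filter.1 hx).1).1
    have h2 := mem_Icc.1 (hB (mem_product.1 h1).1)
    have h3 := mem_Icc.1 (mem_product.1 h1).2
    refine mem_Icc.2 ⟨Nat.mul_pos h2.1 h3.1, ?_⟩
    rw [sq]
    exact Nat.mul_le_mul h2.2 h3.2
  rw [card_eq_sum_card_fiberwise hmap]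
  refine sum_congr rfl fun m _ => ?_
  rw [sq, ← card_product]
  congr 1
  ext x
  simp only [mem_filter, mem_product]
  constructor
  · rintro ⟨⟨⟨h1, h2⟩, h3⟩, h4⟩
    exact ⟨⟨h1, h4⟩, ⟨h2, by rw [← h3]; exact h4⟩⟩
  · rintro ⟨⟨h1, h4⟩, ⟨h2, h5⟩⟩
    exact ⟨⟨⟨h1, h2⟩, by rw [h4, h5]⟩, h4⟩

theorem energy_cs (B : Finset ℕ) (N : ℕ) (hB : B ⊆ Icc 1 N) {ρ : ℝ} (hρ : 0 < ρ) :
    (∑ a ∈ B, ρ ^ om N a) ^ 2 * (∑ b ∈ Icc 1 N, ρ ^ om N b) ^ 2 ≤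
      (energy B N : ℝ) * ∑ m ∈ Icc 1 (N ^ 2), (ρ ^ 2) ^ om (N ^ 2) m := by
  have hmap : ∀ x ∈ B ×ˢ Icc 1 N, x.1 * x.2 ∈ Icc 1 (N ^ 2) := by
    intro x h1
    have h2 := mem_Icc.1 (hB (mem_product.1 h1).1)
    have h3 := mem_Icc.1 (mem_product.1 h1).2
    refine mem_Icc.2 ⟨Nat.mul_pos h2.1 h3.1, ?_⟩
    rw [sq]
    exact Nat.mul_le_mul h2.2 h3.2
  have hsum : (∑ a ∈ B, ρ ^ om N a) * (∑ b ∈ Icc 1 N, ρ ^ om N b) =
      ∑ m ∈ Icc 1 (N ^ 2), (((B ×ˢ Icc 1 N).filter (fun x => x.1 * x.2 = m)).card : ℝ) *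
        ρ ^ om (N ^ 2) m := by
    rw [sum_mul_sum, ← sum_product', ← sum_fiberwise_of_maps_to hmap]
    refine sum_congr rfl fun m _ => ?_
    rw [← nsmul_eq_mul, ← sum_const]
    refine sum_congr rfl fun x hx => ?_
    obtain ⟨h1, h4⟩ := mem_filter.1 hx
    have h2 := mem_Icc.1 (hB (mem_product.1 h1).1)
    have h3 := mem_Icc.1 (mem_product.1 h1).2
    have hN : N ≤ N ^ 2 := Nat.le_self_pow two_ne_zero N
    rw [← h4, om_mul _ (by omega) (by omega), pow_add, om_eq (w := N ^ 2) (w' := N)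
      (h2.2.trans hN) h2.2, om_eq (w := N ^ 2) (w' := N) (h3.2.trans hN) h3.2]
  have henergy : (energy B N : ℝ) = ∑ m ∈ Icc 1 (N ^ 2),
      (((B ×ˢ Icc 1 N).filter (fun x => x.1 * x.2 = m)).card : ℝ) ^ 2 := by
    rw [energy_eq B N hB]
    push_cast
    rfl
  rw [← mul_pow, hsum, henergy]
  have h5 : ∑ m ∈ Icc 1 (N ^ 2), (ρ ^ 2) ^ om (N ^ 2) m =
      ∑ m ∈ Icc 1 (N ^ 2), (ρ ^ om (N ^ 2) m) ^ 2 :=
    sum_congr rfl fun m _ => pow_right_comm _ _ _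
  rw [h5]
  exact sum_mul_sq_le_sq_mul_sq _ _ _

end Pool.Agent.MEN
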