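import Pool.Agent.SQ.Mert

set_option autoImplicit false

/-!
# Mixed multiplicative energy: definitions (MP_2883d2_nt)

`energy B N` is the number of `(a, b, c, d)` with `a, c ∈ B`, `1 ≤ b, d ≤ N`, `a * b = c * d`.
-/

namespace Pool.Agent.MEN

open Finset

/-- the mixed multiplicative energy -/
def energy (B : Finset ℕ) (N : ℕ) : ℕ :=
  (((B ×ˢ Icc 1 N) ×ˢ (B ×ˢ Icc 1 N)).filter (fun x => x.1.1 * x.1.2 = x.2.1 * x.2.2)).card

/-- the pair `(α, β)` is attained: there are sets `B N ⊆ {1, ..., N}` of density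
`(log N) ^ (-α)` with `energy (B N) N ≤ K * N * |B N| * (log N) ^ β` -/
def Attained (α β : ℝ) : Prop :=
  ∃ (B : ℕ → Finset ℕ) (N₀ : ℕ) (c C K : ℝ), 0 < c ∧ ∀ N : ℕ, N₀ ≤ N →
    B N ⊆ Icc 1 N ∧
    c * (N * Real.log N ^ (-α)) ≤ ((B N).card : ℝ) ∧
    ((B N).card : ℝ) ≤ C * (N * Real.log N ^ (-α)) ∧
    (energy (B N) N : ℝ) ≤ K * (N * (B N).card * Real.log N ^ β)

/-- `A y = Q (y + y ^ 2)` with `Q t = t * log t - t + 1` -/
noncomputable def A (y : ℝ) : ℝ := (y + y ^ 2) * Real.log (y + y ^ 2) - (y + y ^ 2) + 1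

/-- the value of `α + β` on the boundary curve -/
noncomputable def S (y : ℝ) : ℝ := 2 * (y + y ^ 2) * Real.log (1 + y) - y ^ 2

/-- number of odd prime factors `≤ w` of `n`, with multiplicity -/
def om (w n : ℕ) : ℕ := (n.primeFactorsList.filter (fun p => p ≠ 2 ∧ p ≤ w)).length

/-- completely multiplicative weight with the value `g p` at the prime `p` -/
noncomputable def wt (g : ℕ → ℝ) (n : ℕ) : ℝ := (n.primeFactorsList.map g).prod

/-- the weight `1` at `2`, `a` at the odd primes `≤ w`, `b` at the primes `> w` -/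
noncomputable def lv (a b : ℝ) (w p : ℕ) : ℝ := if p = 2 then 1 else if p ≤ w then a else b

/-- `log log N` -/
noncomputable def LL (N : ℕ) : ℝ := Real.log (Real.log N)

/-- the scale `exp ((log N) ^ (j / J))` -/
noncomputable def wj (N J j : ℕ) : ℕ := ⌊Real.exp (Real.log N ^ ((j : ℝ) / J))⌋₊

/-- the integers up to `N` with at most `κ * (j / J) * log log N` odd prime factors up to
`exp ((log N) ^ (j / J))`, for `j = 1, ..., J` -/
noncomputable def Bs (κ : ℝ) (J N : ℕ) : Finset ℕ :=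
  open Classical in (Icc 1 N).filter (fun n => ∀ j ∈ Icc 1 J,
    (om (wj N J j) n : ℝ) ≤ κ * ((j : ℝ) / J) * LL N)

/-- the sum over the pairs `(g * h, g * h')` of elements of `B` with `v < h ≤ w`, `h' ≤ h`,
weighted by `1 / h` -/
noncomputable def GS (B : Finset ℕ) (N v w : ℕ) : ℝ :=
  ∑ h ∈ Ioc v w, (1 / (h : ℝ)) * ∑ h' ∈ Icc 1 h,
    (((Icc 1 (N / h)).filter (fun g => g * h ∈ B ∧ g * h' ∈ B)).card : ℝ)

end Pool.Agent.MEN
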