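import Pool.Agent.MEN.Low
import Pool.Agent.MEN.Cor

set_option autoImplicit false

/-!
MEN-Lsm. Lower bounds for the sums of `z ^ om x n`, from `core_low` and `logsum_ge01`, `logsum_ge`.
-/

namespace Pool.Agent.MEN

open Finset

private theorem root_ev : ∃ N₀ : ℕ, ∀ x : ℕ, N₀ ≤ x → 1 < Real.log x ∧
    1 ≤ ⌊(x : ℝ) ^ (1 / 4 : ℝ)⌋₊ ∧
    Real.log x / 4 ≤ 1 + Real.log ⌊(x : ℝ) ^ (1 / 4 : ℝ)⌋₊ := by
  refine ⟨3, fun x hx => ?_⟩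
  have h3 : (3 : ℝ) ≤ x := by exact_mod_cast hx
  have hx0 : (0 : ℝ) < x := by linarith
  have hl : 1 < Real.log x := by
    rw [Real.lt_log_iff_exp_lt hx0]
    have := Real.exp_one_lt_d9
    linarith
  have h1 : (1 : ℝ) ≤ (x : ℝ) ^ (1 / 4 : ℝ) := Real.one_le_rpow (by linarith) (by norm_num)
  have h2 : 1 ≤ ⌊(x : ℝ) ^ (1 / 4 : ℝ)⌋₊ := (Nat.one_le_floor_iff _).2 h1
  refine ⟨hl, h2, ?_⟩
  have h4 := Nat.lt_floor_add_one ((x : ℝ) ^ (1 / 4 : ℝ))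
  have h5 : (1 : ℝ) ≤ (⌊(x : ℝ) ^ (1 / 4 : ℝ)⌋₊ : ℝ) := by exact_mod_cast h2
  have h6 : (x : ℝ) ^ (1 / 4 : ℝ) ≤ 2 * (⌊(x : ℝ) ^ (1 / 4 : ℝ)⌋₊ : ℝ) := by linarith
  have h7 := Real.log_le_log (by positivity) h6
  rw [Real.log_rpow hx0, Real.log_mul (by norm_num) (by positivity)] at h7
  have := Real.log_two_lt_d9
  linarith

private theorem pow_cmp {l L z : ℝ} (hL : 1 < L) (h : L / 4 ≤ l) (h0 : 0 ≤ z) (h3 : z ≤ 3) :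
    L ^ z / 64 ≤ l ^ z := by
  have h1 : (L / 4) ^ z ≤ l ^ z := Real.rpow_le_rpow (by positivity) h h0
  have h2 : (4 : ℝ) ^ z ≤ 64 := by
    calc (4 : ℝ) ^ z ≤ (4 : ℝ) ^ (3 : ℝ) := Real.rpow_le_rpow_of_exponent_le (by norm_num) h3
      _ = 64 := by
          rw [show (3 : ℝ) = ((3 : ℕ) : ℝ) by norm_num, Real.rpow_natCast]
          norm_num
  rw [Real.div_rpow (by linarith) (by norm_num)] at h1
  refine le_trans ?_ h1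
  apply div_le_div_of_nonneg_left (by positivity) (by positivity) h2

private theorem final {c z : ℝ} (hc : 0 < c) (h0 : 0 ≤ z) (h3 : z ≤ 3) (x : ℕ)
    (hl : 1 < Real.log x) (h1 : 1 ≤ ⌊(x : ℝ) ^ (1 / 4 : ℝ)⌋₊)
    (h2 : Real.log x / 4 ≤ 1 + Real.log ⌊(x : ℝ) ^ (1 / 4 : ℝ)⌋₊)
    (hlow : ∀ y : ℕ, 1 ≤ y → c * (1 + Real.log y) ^ z ≤ ∑ n ∈ Icc 1 y, z ^ om y n / (n : ℝ))
    (hcore : z / 2 * (x / Real.log x) * ∑ m ∈ Icc 1 ⌊(x : ℝ) ^ (1 / 4 : ℝ)⌋₊,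
      z ^ om ⌊(x : ℝ) ^ (1 / 4 : ℝ)⌋₊ m / (m : ℝ) ≤ ∑ n ∈ Icc 1 x, z ^ om x n) :
    z * c / 128 * (x * Real.log x ^ (z - 1)) ≤ ∑ n ∈ Icc 1 x, z ^ om x n := by
  have hl0 : 0 < Real.log x := by linarith
  have h4 := hlow _ h1
  have h5 := pow_cmp hl h2 h0 h3
  refine le_trans ?_ hcore
  have h6 : c * (Real.log x ^ z / 64) ≤ ∑ m ∈ Icc 1 ⌊(x : ℝ) ^ (1 / 4 : ℝ)⌋₊,
      z ^ om ⌊(x : ℝ) ^ (1 / 4 : ℝ)⌋₊ m / (m : ℝ) :=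
    (mul_le_mul_of_nonneg_left h5 hc.le).trans h4
  have h7 : z / 2 * (x / Real.log x) * (c * (Real.log x ^ z / 64)) ≤
      z / 2 * (x / Real.log x) * ∑ m ∈ Icc 1 ⌊(x : ℝ) ^ (1 / 4 : ℝ)⌋₊,
      z ^ om ⌊(x : ℝ) ^ (1 / 4 : ℝ)⌋₊ m / (m : ℝ) :=
    mul_le_mul_of_nonneg_left h6 (by positivity)
  refine le_trans (le_of_eq ?_) h7
  rw [Real.rpow_sub hl0, Real.rpow_one]
  field_simp
  ring

theorem sum_ge01 {z0 : ℝ} (hz0 : 0 < z0) : ∃ c : ℝ, 0 < c ∧ ∃ x0 : ℕ, ∀ x : ℕ, x0 ≤ x →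
    ∀ z : ℝ, z0 ≤ z → z ≤ 1 →
    c * (x * Real.log x ^ (z - 1)) ≤ ∑ n ∈ Icc 1 x, z ^ om x n := by
  obtain ⟨c, hc, h⟩ := logsum_ge01
  obtain ⟨N₀, hN₀⟩ := root_ev
  obtain ⟨x0, hx0⟩ := core_low
  refine ⟨z0 * c / 128, by positivity, max N₀ x0, fun x hx z hz hz1 => ?_⟩
  obtain ⟨h1, h2, h3⟩ := hN₀ x ((le_max_left _ _).trans hx)
  have hz0' : 0 ≤ z := by linarith
  have h4 := final hc hz0' (by linarith) x h1 h2 h3 (fun y hy => h z hz0' hz1 y hy)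
    (hx0 x ((le_max_right _ _).trans hx) z hz0')
  refine le_trans ?_ h4
  have hl0 : 0 < Real.log x := by linarith
  have h5 : z0 * c / 128 ≤ z * c / 128 := by gcongr
  exact mul_le_mul_of_nonneg_right h5 (by positivity)

theorem sum_ge {z : ℝ} (h0 : 0 < z) (h3 : z ≤ 3) : ∃ c : ℝ, 0 < c ∧ ∃ x0 : ℕ, ∀ x : ℕ,
    x0 ≤ x → c * (x * Real.log x ^ (z - 1)) ≤ ∑ n ∈ Icc 1 x, z ^ om x n := by
  obtain ⟨c, hc, h⟩ := logsum_ge h0.le h3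
  obtain ⟨N₀, hN₀⟩ := root_ev
  obtain ⟨x0, hx0⟩ := core_low
  refine ⟨z * c / 128, by positivity, max N₀ x0, fun x hx => ?_⟩
  obtain ⟨h1, h2, h4⟩ := hN₀ x ((le_max_left _ _).trans hx)
  exact final hc h0.le h3 x h1 h2 h4 (fun y hy => h y hy)
    (hx0 x ((le_max_right _ _).trans hx) z h0.le)

end Pool.Agent.MEN
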