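import Pool.Agent.MEN.Cs
import Pool.Agent.MEN.Lsm

set_option autoImplicit false

/-!
MEN-Elow. Lower bound for the energy of every set: `energy_cs` with `ρ = 1 + y`, `sum_ge` for `ρ`
and `one_sum` for `ρ ^ 2 < 3` at `N ^ 2`.
-/

namespace Pool.Agent.MEN

open Finset

theorem energy_ge {y : ℝ} (h0 : 0 < y) (h1 : y + y ^ 2 ≤ 1) : ∃ c : ℝ, 0 < c ∧ ∃ N₀ : ℕ,
    ∀ N : ℕ, N₀ ≤ N → ∀ B : Finset ℕ, B ⊆ Icc 1 N →
    c * ((∑ a ∈ B, (1 + y) ^ om N a) ^ 2 * Real.log N ^ (-(y ^ 2))) ≤ (energy B N : ℝ) := by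
  have hy1 : y < 1 := by nlinarith
  have hρ0 : 0 < 1 + y := by linarith
  have hρ3 : (1 + y) ^ 2 < 3 := by nlinarith
  obtain ⟨c, hc, x0, hx0⟩ := sum_ge (z := 1 + y) hρ0 (by linarith)
  obtain ⟨C, hC, hCs⟩ := one_sum hρ3
  have hC0 : 0 < C := by linarith
  refine ⟨c ^ 2 / (27 * C), by positivity, max x0 3, fun N hN B hB => ?_⟩
  have hN3 : 3 ≤ N := (le_max_right _ _).trans hN
  have h3 : (3 : ℝ) ≤ N := by exact_mod_cast hN3
  have hl : 1 < Real.log N := by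
    rw [Real.lt_log_iff_exp_lt (by linarith)]
    have := Real.exp_one_lt_d9
    linarith
  have hl0 : 0 < Real.log N := by linarith
  have h4 := hx0 N ((le_max_left _ _).trans hN)
  have h5 := hCs ((1 + y) ^ 2) (by positivity) le_rfl (N ^ 2) (Nat.one_le_pow _ _ (by omega))
  have h6 := energy_cs B N hB hρ0
  set T := ∑ a ∈ B, (1 + y) ^ om N a with hT
  set U := ∑ b ∈ Icc 1 N, (1 + y) ^ om N b with hU
  set V := ∑ m ∈ Icc 1 (N ^ 2), ((1 + y) ^ 2) ^ om (N ^ 2) m with hV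
  -- upper bound for V
  have he0 : 0 ≤ (1 + y) ^ 2 - 1 := by nlinarith
  have h7 : V ≤ 27 * C * ((N : ℝ) ^ 2 * Real.log N ^ ((1 + y) ^ 2 - 1)) := by
    refine h5.trans ?_
    have e1 : (1 + Real.log ((N ^ 2 : ℕ) : ℝ)) ^ ((1 + y) ^ 2 - 1) ≤
        27 * Real.log N ^ ((1 + y) ^ 2 - 1) := by
      have e2 : 1 + Real.log ((N ^ 2 : ℕ) : ℝ) ≤ 3 * Real.log N := by
        push_cast
        rw [Real.log_pow]
        push_cast
        linarith
      have e3 : 0 ≤ 1 + Real.log ((N ^ 2 : ℕ) : ℝ) := by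
        push_cast
        rw [Real.log_pow]
        positivity
      calc (1 + Real.log ((N ^ 2 : ℕ) : ℝ)) ^ ((1 + y) ^ 2 - 1)
          ≤ (3 * Real.log N) ^ ((1 + y) ^ 2 - 1) := Real.rpow_le_rpow e3 e2 he0
        _ = 3 ^ ((1 + y) ^ 2 - 1) * Real.log N ^ ((1 + y) ^ 2 - 1) := by
            rw [Real.mul_rpow (by norm_num) hl0.le]
        _ ≤ 27 * Real.log N ^ ((1 + y) ^ 2 - 1) := by
            apply mul_le_mul_of_nonneg_right _ (by positivity)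
            calc (3 : ℝ) ^ ((1 + y) ^ 2 - 1) ≤ (3 : ℝ) ^ (3 : ℝ) :=
                  Real.rpow_le_rpow_of_exponent_le (by norm_num) (by linarith)
              _ = 27 := by
                  rw [show (3 : ℝ) ^ (3 : ℝ) = (3 : ℝ) ^ ((3 : ℕ) : ℝ) by norm_num,
                    Real.rpow_natCast]
                  norm_num
    calc C * (((N ^ 2 : ℕ) : ℝ) * (1 + Real.log ((N ^ 2 : ℕ) : ℝ)) ^ ((1 + y) ^ 2 - 1))
        ≤ C * (((N ^ 2 : ℕ) : ℝ) * (27 * Real.log N ^ ((1 + y) ^ 2 - 1))) := by gcongr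
      _ = _ := by push_cast; ring
  -- lower bound for U
  have hU0 : 0 ≤ c * (N * Real.log N ^ ((1 + y) - 1)) := by positivity
  have h8 : (c * (N * Real.log N ^ ((1 + y) - 1))) ^ 2 ≤ U ^ 2 := pow_le_pow_left₀ hU0 h4 2
  have h9 : T ^ 2 * (c * (N * Real.log N ^ ((1 + y) - 1))) ^ 2 ≤
      (energy B N : ℝ) * (27 * C * ((N : ℝ) ^ 2 * Real.log N ^ ((1 + y) ^ 2 - 1))) := by
    calc T ^ 2 * (c * (N * Real.log N ^ ((1 + y) - 1))) ^ 2 ≤ T ^ 2 * U ^ 2 :=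
          mul_le_mul_of_nonneg_left h8 (by positivity)
      _ ≤ (energy B N : ℝ) * V := h6
      _ ≤ _ := mul_le_mul_of_nonneg_left h7 (Nat.cast_nonneg _)
  -- compare
  have hpos : 0 < 27 * C * ((N : ℝ) ^ 2 * Real.log N ^ ((1 + y) ^ 2 - 1)) := by positivity
  have h10 : c ^ 2 / (27 * C) * (T ^ 2 * Real.log N ^ (-(y ^ 2))) *
      (27 * C * ((N : ℝ) ^ 2 * Real.log N ^ ((1 + y) ^ 2 - 1))) =
      T ^ 2 * (c * (N * Real.log N ^ ((1 + y) - 1))) ^ 2 := by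
    have e1 : Real.log N ^ (-(y ^ 2)) * Real.log N ^ ((1 + y) ^ 2 - 1) =
        (Real.log N ^ ((1 + y) - 1)) ^ 2 := by
      rw [← Real.rpow_add hl0, ← Real.rpow_natCast (Real.log N ^ ((1 + y) - 1)) 2,
        ← Real.rpow_mul hl0.le]
      congr 1
      push_cast
      ring
    calc c ^ 2 / (27 * C) * (T ^ 2 * Real.log N ^ (-(y ^ 2))) *
        (27 * C * ((N : ℝ) ^ 2 * Real.log N ^ ((1 + y) ^ 2 - 1)))
        = c ^ 2 * T ^ 2 * (N : ℝ) ^ 2 *
          (Real.log N ^ (-(y ^ 2)) * Real.log N ^ ((1 + y) ^ 2 - 1)) * (C / C) := by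
          field_simp
      _ = _ := by
          rw [e1, div_self hC0.ne']
          ring
  rw [← h10] at h9
  exact le_of_mul_le_mul_right h9 hpos

end Pool.Agent.MEN
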