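import Pool.Agent.MEN.Defs

set_option autoImplicit false

/-!
MEN-Gcd. The energy as a sum over `(g, h, h')`.

For `a * b = c * d` with `c ≤ a` put `g = gcd a c`, `h = a / g`, `h' = c / g`, `t = b / h'`; then
`a = g * h`, `c = g * h'`, `b = h' * t`, `d = h * t`, so the quadruples inject into the tuples
`(h, h', g, t)` with `1 ≤ h' ≤ h ≤ N`, `g, t ≤ N / h`, `g * h ∈ B`, `g * h' ∈ B`.
-/

namespace Pool.Agent.MEN

open Finset

private def G (B : Finset ℕ) (N h h' : ℕ) : Finset ℕ :=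
  (Icc 1 (N / h)).filter (fun g => g * h ∈ B ∧ g * h' ∈ B)

private def Q (B : Finset ℕ) (N : ℕ) : Finset ((ℕ × ℕ) × ℕ × ℕ) :=
  ((B ×ˢ Icc 1 N) ×ˢ (B ×ˢ Icc 1 N)).filter (fun x => x.1.1 * x.1.2 = x.2.1 * x.2.2)

private def T (B : Finset ℕ) (N : ℕ) : Finset ((_ : ℕ) × (_ : ℕ) × ℕ × ℕ) :=
  (Ioc 0 N).sigma (fun h => (Icc 1 h).sigma (fun h' => G B N h h' ×ˢ Icc 1 (N / h)))

private def enc (x : (ℕ × ℕ) × ℕ × ℕ) : (_ : ℕ) × (_ : ℕ) × ℕ × ℕ :=
  ⟨x.1.1 / Nat.gcd x.1.1 x.2.1, x.2.1 / Nat.gcd x.1.1 x.2.1,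
    (Nat.gcd x.1.1 x.2.1, x.1.2 / (x.2.1 / Nat.gcd x.1.1 x.2.1))⟩

private def dec (y : (_ : ℕ) × (_ : ℕ) × ℕ × ℕ) : (ℕ × ℕ) × ℕ × ℕ :=
  ((y.2.2.1 * y.1, y.2.1 * y.2.2.2), (y.2.2.1 * y.2.1, y.1 * y.2.2.2))

private theorem arith {a b c d : ℕ} (ha : 0 < a) (hc : 0 < c) (hb : 0 < b)
    (h : a * b = c * d) : ∃ g u v t : ℕ, Nat.gcd a c = g ∧ 0 < g ∧ 0 < u ∧ 0 < v ∧ 0 < t ∧
      a = g * u ∧ c = g * v ∧ b = v * t ∧ d = u * t := by
  have hg : 0 < Nat.gcd a c := Nat.gcd_pos_of_pos_left _ ha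
  obtain ⟨u, hu⟩ := Nat.gcd_dvd_left a c
  obtain ⟨v, hv⟩ := Nat.gcd_dvd_right a c
  have hu0 : 0 < u := by
    rcases Nat.eq_zero_or_pos u with h0 | h0
    · rw [h0, mul_zero] at hu; omega
    · exact h0
  have hv0 : 0 < v := by
    rcases Nat.eq_zero_or_pos v with h0 | h0
    · rw [h0, mul_zero] at hv; omega
    · exact h0
  have hcop : Nat.Coprime v u := by
    have h1 := Nat.coprime_div_gcd_div_gcd hg
    have e1 : a / Nat.gcd a c = u := Nat.div_eq_of_eq_mul_right hg hu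
    have e2 : c / Nat.gcd a c = v := Nat.div_eq_of_eq_mul_right hg hv
    rw [e1, e2] at h1
    exact h1.symm
  have h2 : u * b = v * d := by
    have h3 : Nat.gcd a c * (u * b) = Nat.gcd a c * (v * d) := by
      rw [← mul_assoc, ← mul_assoc, ← hu, ← hv, h]
    exact Nat.eq_of_mul_eq_mul_left hg h3
  have h4 : v ∣ b := by
    have h5 : v ∣ u * b := ⟨d, h2⟩
    exact hcop.dvd_of_dvd_mul_left h5
  obtain ⟨t, ht⟩ := h4
  have ht0 : 0 < t := by
    rcases Nat.eq_zero_or_pos t with h0 | h0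
    · rw [h0, mul_zero] at ht; omega
    · exact h0
  have hd : d = u * t := by
    rw [ht] at h2
    have h6 : v * d = v * (u * t) := by rw [← h2]; ring
    exact Nat.eq_of_mul_eq_mul_left hv0 h6
  exact ⟨_, u, v, t, rfl, hg, hu0, hv0, ht0, hu, hv, ht, hd⟩

private theorem enc_eq {a b c d g u v t : ℕ} (h : Nat.gcd a c = g) (hg : 0 < g) (hv : 0 < v)
    (h1 : a = g * u) (h2 : c = g * v) (h3 : b = v * t) :
    enc ((a, b), (c, d)) = ⟨u, v, (g, t)⟩ := by
  have e1 : a / g = u := Nat.div_eq_of_eq_mul_right hg h1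
  have e2 : c / g = v := Nat.div_eq_of_eq_mul_right hg h2
  have e3 : b / v = t := Nat.div_eq_of_eq_mul_right hv h3
  unfold enc
  dsimp only
  rw [h, e1, e2, e3]

private theorem half {B : Finset ℕ} {N : ℕ} (hB : B ⊆ Icc 1 N) :
    ((Q B N).filter (fun x => x.2.1 ≤ x.1.1)).card ≤ (T B N).card := by
  have key : ∀ x ∈ (Q B N).filter (fun x => x.2.1 ≤ x.1.1), enc x ∈ T B N ∧ dec (enc x) = x := by
    rintro ⟨⟨a, b⟩, ⟨c, d⟩⟩ hx
    rw [mem_filter, Q, mem_filter, mem_product, mem_product, mem_product] at hx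
    obtain ⟨⟨⟨⟨ha, hb⟩, ⟨hc, hd⟩⟩, hab⟩, hca⟩ := hx
    dsimp only at ha hb hc hd hab hca
    have ha' := mem_Icc.1 (hB ha)
    have hc' := mem_Icc.1 (hB hc)
    rw [mem_Icc] at hb hd
    obtain ⟨g, u, v, t, hg, hg0, hu0, hv0, ht0, e1, e2, e3, e4⟩ :=
      arith (by omega) (by omega) (by omega) hab
    have e5 : enc ((a, b), (c, d)) = ⟨u, v, (g, t)⟩ := enc_eq hg hg0 hv0 e1 e2 e3
    rw [e5]
    constructor
    · rw [T, mem_sigma]
      dsimp only
      rw [mem_sigma]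
      dsimp only
      rw [mem_product, G, mem_filter, mem_Icc, mem_Icc, mem_Icc, mem_Ioc]
      dsimp only
      have h1 : u ≤ g * u := Nat.le_mul_of_pos_left u hg0
      have h2 : v ≤ u := by
        rw [e1, e2] at hca
        exact Nat.le_of_mul_le_mul_left hca hg0
      refine ⟨⟨hu0, by omega⟩, ⟨hv0, h2⟩, ⟨⟨hg0, ?_⟩, by rwa [← e1], by rwa [← e2]⟩, ht0, ?_⟩
      · rw [Nat.le_div_iff_mul_le hu0]
        omega
      · rw [Nat.le_div_iff_mul_le hu0, mul_comm]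
        omega
    · unfold dec
      dsimp only
      rw [← e1, ← e2, ← e3, ← e4]
  refine Finset.card_le_card_of_injOn enc (fun x hx => (key x hx).1) ?_
  intro x hx y hy hxy
  rw [← (key x hx).2, ← (key y hy).2, hxy]

private theorem swap_half (B : Finset ℕ) (N : ℕ) :
    ((Q B N).filter (fun x => ¬ x.2.1 ≤ x.1.1)).card ≤
      ((Q B N).filter (fun x => x.2.1 ≤ x.1.1)).card := by
  refine Finset.card_le_card_of_injOn Prod.swap ?_ (fun x _ y _ h => Prod.swap_injective h)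
  rintro ⟨⟨a, b⟩, ⟨c, d⟩⟩ hx
  rw [mem_coe, mem_filter, Q, mem_filter, mem_product, mem_product, mem_product] at hx
  obtain ⟨⟨⟨⟨ha, hb⟩, ⟨hc, hd⟩⟩, hab⟩, hca⟩ := hx
  dsimp only at ha hb hc hd hab hca
  rw [mem_coe, mem_filter, Q, mem_filter, mem_product, mem_product, mem_product]
  dsimp only [Prod.swap]
  exact ⟨⟨⟨⟨hc, hd⟩, ⟨ha, hb⟩⟩, hab.symm⟩, by omega⟩

private theorem T_card (B : Finset ℕ) (N : ℕ) : ((T B N).card : ℝ) ≤ N * GS B N 0 N := by
  have e1 : ((T B N).card : ℝ) = ∑ h ∈ Ioc 0 N, ∑ h' ∈ Icc 1 h,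
      ((G B N h h').card : ℝ) * ((N / h : ℕ) : ℝ) := by
    rw [T, card_sigma]
    push_cast
    refine sum_congr rfl fun h _ => ?_
    rw [card_sigma]
    push_cast
    refine sum_congr rfl fun h' _ => ?_
    rw [card_product, Nat.card_Icc]
    push_cast
    rfl
  have e2 : (N : ℝ) * GS B N 0 N = ∑ h ∈ Ioc 0 N, ∑ h' ∈ Icc 1 h,
      ((G B N h h').card : ℝ) * ((N : ℝ) / h) := by
    rw [GS, mul_sum]
    refine sum_congr rfl fun h _ => ?_
    rw [mul_sum, mul_sum]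
    refine sum_congr rfl fun h' _ => ?_
    rw [G]
    ring
  rw [e1, e2]
  refine sum_le_sum fun h _ => sum_le_sum fun h' _ => ?_
  exact mul_le_mul_of_nonneg_left Nat.cast_div_le (Nat.cast_nonneg _)

theorem energy_le (B : Finset ℕ) (N : ℕ) (hB : B ⊆ Icc 1 N) :
    (energy B N : ℝ) ≤ 2 * (N * GS B N 0 N) := by
  have h1 : energy B N = (Q B N).card := rfl
  have h2 := card_filter_add_card_filter_not (s := Q B N) (fun x => x.2.1 ≤ x.1.1)
  have h3 := swap_half B N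
  have h4 := half hB
  have h5 : energy B N ≤ 2 * (T B N).card := by omega
  have h6 : (energy B N : ℝ) ≤ 2 * ((T B N).card : ℝ) := by exact_mod_cast h5
  have h7 := T_card B N
  linarith

theorem GS_split (B : Finset ℕ) {N u v w : ℕ} (huv : u ≤ v) (hvw : v ≤ w) :
    GS B N u w = GS B N u v + GS B N v w := by
  unfold GS
  exact (Finset.sum_Ioc_consecutive _ huv hvw).symm

theorem GS_nonneg (B : Finset ℕ) (N v w : ℕ) : 0 ≤ GS B N v w := by
  unfold GS
  positivity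

theorem GS_mono (B : Finset ℕ) {N u v w w' : ℕ} (huv : u ≤ v) (hw : w ≤ w') :
    GS B N v w ≤ GS B N u w' := by
  unfold GS
  exact sum_le_sum_of_subset_of_nonneg (Ioc_subset_Ioc huv hw) fun h _ _ => by positivity

private theorem G_card (B : Finset ℕ) (N h h' : ℕ) (hh : 0 < h') :
    ((G B N h h').card : ℝ) ≤ B.card := by
  have h1 : (G B N h h').card ≤ B.card := by
    refine Finset.card_le_card_of_injOn (fun g => g * h') ?_ ?_
    · intro g hg
      rw [mem_coe, G, mem_filter] at hg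
      exact hg.2.2
    · intro g _ g' _ hgg
      exact Nat.eq_of_mul_eq_mul_right hh hgg
  exact_mod_cast h1

/-- the terms `h = 1, 2` -/
theorem GS_two (B : Finset ℕ) (N : ℕ) : GS B N 0 2 ≤ 2 * (B.card : ℝ) := by
  have e1 : GS B N 0 2 = ∑ h ∈ Ioc (0 : ℕ) 2, (1 / (h : ℝ)) * ∑ h' ∈ Icc 1 h,
      ((G B N h h').card : ℝ) := rfl
  have h0 : (Ioc 0 2 : Finset ℕ) = {1, 2} := by decide
  have h1 : (Icc 1 1 : Finset ℕ) = {1} := by decide
  have h2 : (Icc 1 2 : Finset ℕ) = {1, 2} := by decide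
  rw [e1, h0, sum_pair (by decide), h1, h2, sum_singleton, sum_pair (by decide)]
  have a1 := G_card B N 1 1 one_pos
  have a2 := G_card B N 2 1 one_pos
  have a3 := G_card B N 2 2 two_pos
  push_cast
  linarith

end Pool.Agent.MEN
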