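import Pool.Agent.MEN.Rs
import Pool.Agent.MEN.Gcd

set_option autoImplicit false

/-!
MEN-LevB. The contribution of the top scale, and of all scales if `y > 1/2`.
-/

namespace Pool.Agent.MEN

open Finset

private theorem levB_card {s : Finset ℕ} {p : ℕ → Prop} [DecidablePred p] {f : ℕ → ℝ}
    (h0 : ∀ g ∈ s, 0 ≤ f g) (h1 : ∀ g ∈ s, p g → 1 ≤ f g) :
    ((s.filter p).card : ℝ) ≤ ∑ g ∈ s, f g := by
  calc ((s.filter p).card : ℝ) = ∑ g ∈ s.filter p, (1 : ℝ) := by simp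
    _ ≤ ∑ g ∈ s.filter p, f g :=
        sum_le_sum fun g hg => h1 g (mem_filter.1 hg).1 (mem_filter.1 hg).2
    _ ≤ ∑ g ∈ s, f g :=
        sum_le_sum_of_subset_of_nonneg (filter_subset _ _) fun g hg _ => h0 g hg

private theorem levB_key {y : ℝ} (h0 : 0 < y) (h1 : y ≤ 1) (a c d : ℕ) {X : ℝ}
    (hX : (2 * a + c + d : ℝ) ≤ 2 * X) :
    1 ≤ y ^ (-(2 * X)) * (y ^ c * y ^ d * (y ^ 2) ^ a) := by
  have h2 : y ^ (-(2 * X)) * (y ^ c * y ^ d * (y ^ 2) ^ a) =
      y ^ (-(2 * X) + (2 * a + c + d : ℝ)) := by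
    rw [Real.rpow_add h0]
    congr 1
    rw [← pow_mul, ← pow_add, ← pow_add, ← Real.rpow_natCast]
    congr 1
    push_cast
    ring
  rw [h2]
  exact Real.one_le_rpow_of_pos_of_le_one_of_nonpos h0 h1 (by linarith)

private theorem levB_log {x : ℕ} (hx : 2 ≤ x) : 1 / 2 < Real.log x := by
  have h1 : Real.log 2 ≤ Real.log x :=
    Real.log_le_log (by norm_num) (by exact_mod_cast hx)
  have h2 := Real.log_two_gt_d9
  linarith

/-- `(1 + log N) ^ e ≤ 3 (log N) ^ e` for `e ≤ 1` -/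
private theorem levB_pow {N : ℕ} (hN : 2 ≤ N) {e : ℝ} (he : e ≤ 1) :
    (1 + Real.log N) ^ e ≤ 3 * Real.log N ^ e := by
  have h1 := levB_log hN
  have h0 : 0 < Real.log N := by linarith
  rcases le_or_gt 0 e with h | h
  · have h2 : (1 + Real.log N) ^ e ≤ (3 * Real.log N) ^ e :=
      Real.rpow_le_rpow (by linarith) (by linarith) h
    refine h2.trans ?_
    rw [Real.mul_rpow (by norm_num) h0.le]
    refine mul_le_mul_of_nonneg_right ?_ (Real.rpow_nonneg h0.le _)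
    have h3 : (3 : ℝ) ^ e ≤ 3 ^ (1 : ℝ) := Real.rpow_le_rpow_of_exponent_le (by norm_num) he
    rwa [Real.rpow_one] at h3
  · have h2 : (1 + Real.log N) ^ e ≤ Real.log N ^ e :=
      Real.rpow_le_rpow_of_nonpos h0 (by linarith) h.le
    have h3 : 0 ≤ Real.log N ^ e := Real.rpow_nonneg h0.le _
    linarith

/-- if `1 + L ≤ 2 (1 + l)` then `(1 + l) ^ e ≤ 2 (1 + L) ^ e` for `-1 ≤ e ≤ 0` -/
private theorem levB_half {L l e : ℝ} (hL : 0 ≤ L) (hl : 0 ≤ l) (h : 1 + L ≤ 2 * (1 + l))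
    (he : -1 ≤ e) (he0 : e ≤ 0) : (1 + l) ^ e ≤ 2 * (1 + L) ^ e := by
  have h1 : (1 + l) ^ e ≤ ((1 + L) / 2) ^ e :=
    Real.rpow_le_rpow_of_nonpos (by linarith) (by linarith) he0
  refine h1.trans ?_
  have h2 : 0 < 1 + L := by linarith
  rw [Real.div_rpow h2.le (by norm_num), div_le_iff₀ (Real.rpow_pos_of_pos (by norm_num) _)]
  have h3 : (2 : ℝ) ^ (-1 : ℝ) ≤ 2 ^ e :=
    Real.rpow_le_rpow_of_exponent_le (by norm_num) he
  rw [Real.rpow_neg_one] at h3
  have h4 : 0 ≤ (1 + L) ^ e := Real.rpow_nonneg h2.le _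
  have h5 : (1 + L) ^ e * (2 * 2⁻¹) ≤ (1 + L) ^ e * (2 * 2 ^ e) :=
    mul_le_mul_of_nonneg_left (by linarith) h4
  have h6 : (2 : ℝ) * 2⁻¹ = 1 := by norm_num
  rw [h6, mul_one] at h5
  calc (1 + L) ^ e ≤ _ := h5
    _ = 2 * (1 + L) ^ e * 2 ^ e := by ring

private theorem levB_base {y : ℝ} (h0 : 0 < y) (h1 : y < 1) : ∃ C : ℝ, 0 < C ∧
    ∀ (N v : ℕ) (B : Finset ℕ) (X : ℝ), (∀ n ∈ B, (om N n : ℝ) ≤ X) →
    GS B N v N ≤ C * (N * y ^ (-(2 * X)) * ∑ h ∈ Ioc v N, y ^ om N h / (h : ℝ) *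
      (1 + Real.log h) ^ (y - 1) * (1 + Real.log ((N / h : ℕ) : ℝ)) ^ (y ^ 2 - 1)) := by
  obtain ⟨C₁, hC₁, hs⟩ := one_sum (z := 1) (by norm_num)
  have hy2 : 0 < y ^ 2 := by positivity
  have hy21 : y ^ 2 ≤ 1 := by nlinarith
  refine ⟨C₁ * C₁, by positivity, ?_⟩
  intro N v B X hX
  set K : ℝ := y ^ (-(2 * X)) with hK
  have hK0 : 0 < K := Real.rpow_pos_of_pos h0 _
  have hone : ∀ h ∈ Ioc v N, (1 / (h : ℝ)) * ∑ h' ∈ Icc 1 h,
      (((Icc 1 (N / h)).filter (fun g => g * h ∈ B ∧ g * h' ∈ B)).card : ℝ) ≤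
      C₁ * C₁ * (N * K * (y ^ om N h / (h : ℝ) * (1 + Real.log h) ^ (y - 1) *
        (1 + Real.log ((N / h : ℕ) : ℝ)) ^ (y ^ 2 - 1))) := by
    intro h hh
    rw [mem_Ioc] at hh
    have hh0 : 0 < h := by omega
    have hhR : (0 : ℝ) < h := by exact_mod_cast hh0
    have hq1 : 1 ≤ N / h := by
      rw [Nat.le_div_iff_mul_le hh0]
      omega
    generalize hqdef : N / h = q at hq1 ⊢
    have hqN : q ≤ N := by
      rw [← hqdef]
      exact Nat.div_le_self _ _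
    have hqR : (q : ℝ) ≤ N / h := by
      rw [← hqdef]
      exact Nat.cast_div_le
    have hlh : 0 ≤ Real.log h := Real.log_natCast_nonneg _
    have hlq : 0 ≤ Real.log q := Real.log_natCast_nonneg _
    have hcard : ∀ h' ∈ Icc 1 h,
        (((Icc 1 q).filter (fun g => g * h ∈ B ∧ g * h' ∈ B)).card : ℝ) ≤
        K * (y ^ om N h * y ^ om h h' * ∑ g ∈ Icc 1 q, (y ^ 2) ^ om q g) := by
      intro h' hh'
      rw [mem_Icc] at hh'
      have hh'0 : 0 < h' := hh'.1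
      have h3 := levB_card (s := Icc 1 q) (p := fun g => g * h ∈ B ∧ g * h' ∈ B)
        (f := fun g => K * (y ^ om N h * y ^ om h h' * (y ^ 2) ^ om q g)) (by
          intro g _
          exact mul_nonneg hK0.le (mul_nonneg (mul_nonneg (pow_nonneg h0.le _)
            (pow_nonneg h0.le _)) (pow_nonneg hy2.le _))) (by
          intro g hg hgB
          rw [mem_Icc] at hg
          have hg0 : g ≠ 0 := by omega
          have e1 : om N g = om q g := om_eq (hg.2.trans hqN) hg.2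
          have e3 : om N h' = om h h' := om_eq (hh'.2.trans hh.2) hh'.2
          have a1 := hX _ hgB.1
          have a2 := hX _ hgB.2
          rw [om_mul N hg0 hh0.ne', e1] at a1
          rw [om_mul N hg0 hh'0.ne', e1, e3] at a2
          push_cast at a1 a2
          rw [hK]
          refine levB_key h0 h1.le (om q g) (om N h) (om h h') ?_
          linarith)
      refine h3.trans (le_of_eq ?_)
      rw [mul_sum, mul_sum]
    have hsum1 : ∑ h' ∈ Icc 1 h, y ^ om h h' ≤ C₁ * (h * (1 + Real.log h) ^ (y - 1)) :=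
      hs y h0.le h1.le h hh0
    have hsum2 : ∑ g ∈ Icc 1 q, (y ^ 2) ^ om q g ≤
        C₁ * (N / h * (1 + Real.log q) ^ (y ^ 2 - 1)) := by
      refine (hs (y ^ 2) hy2.le hy21 q hq1).trans ?_
      refine mul_le_mul_of_nonneg_left ?_ (by linarith)
      exact mul_le_mul_of_nonneg_right hqR (Real.rpow_nonneg (by linarith) _)
    have hA0 : 0 ≤ (1 + Real.log h) ^ (y - 1) := Real.rpow_nonneg (by linarith) _
    have hS0 : 0 ≤ ∑ g ∈ Icc 1 q, (y ^ 2) ^ om q g := sum_nonneg fun _ _ => pow_nonneg hy2.le _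
    calc (1 / (h : ℝ)) * ∑ h' ∈ Icc 1 h,
          (((Icc 1 q).filter (fun g => g * h ∈ B ∧ g * h' ∈ B)).card : ℝ)
        ≤ (1 / (h : ℝ)) * ∑ h' ∈ Icc 1 h,
            K * (y ^ om N h * y ^ om h h' * ∑ g ∈ Icc 1 q, (y ^ 2) ^ om q g) :=
          mul_le_mul_of_nonneg_left (sum_le_sum hcard) (by positivity)
      _ = (1 / (h : ℝ)) * (K * (y ^ om N h * (∑ h' ∈ Icc 1 h, y ^ om h h') *
            ∑ g ∈ Icc 1 q, (y ^ 2) ^ om q g)) := by
          congr 1
          rw [← mul_sum, ← sum_mul, ← mul_sum]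
      _ ≤ (1 / (h : ℝ)) * (K * (y ^ om N h * (C₁ * (h * (1 + Real.log h) ^ (y - 1))) *
            (C₁ * (N / h * (1 + Real.log q) ^ (y ^ 2 - 1))))) := by
          refine mul_le_mul_of_nonneg_left ?_ (by positivity)
          refine mul_le_mul_of_nonneg_left ?_ hK0.le
          refine mul_le_mul ?_ hsum2 hS0 ?_
          · exact mul_le_mul_of_nonneg_left hsum1 (pow_nonneg h0.le _)
          · exact mul_nonneg (pow_nonneg h0.le _)
              (mul_nonneg (by linarith) (mul_nonneg hhR.le hA0))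
      _ = _ := by
          field_simp
  unfold GS
  refine (sum_le_sum hone).trans (le_of_eq ?_)
  rw [← mul_sum, ← mul_sum]

theorem lev_top {y : ℝ} (h0 : 0 < y) (h1 : y < 1) : ∃ C : ℝ, 0 < C ∧
    ∀ (N v : ℕ) (B : Finset ℕ) (X : ℝ), 2 ≤ v → v ≤ N → B ⊆ Icc 1 N →
    (∀ n ∈ B, (om N n : ℝ) ≤ X) →
    GS B N v N ≤ C * (N * y ^ (-(2 * X)) * (Real.log v ^ (y - 1) *
      Real.log N ^ (y + y ^ 2 - 1))) := by
  obtain ⟨C₁, hC₁, hb⟩ := levB_base h0 h1
  obtain ⟨C₂, hC₂, hr⟩ := R_sum h0 h1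
  refine ⟨3 * C₁ * C₂, by positivity, ?_⟩
  intro N v B X hv hvN hB hX
  have hN2 : 2 ≤ N := hv.trans hvN
  have hlv : 0 < Real.log v := lt_trans (by norm_num) (levB_log hv)
  have hlN : 0 < Real.log N := lt_trans (by norm_num) (levB_log hN2)
  have hK0 : 0 < y ^ (-(2 * X)) := Real.rpow_pos_of_pos h0 _
  have hV0 : 0 ≤ Real.log v ^ (y - 1) := Real.rpow_nonneg hlv.le _
  have hE : y + y ^ 2 - 1 ≤ 1 := by nlinarith
  have hsum : ∑ h ∈ Ioc v N, y ^ om N h / (h : ℝ) *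
      (1 + Real.log h) ^ (y - 1) * (1 + Real.log ((N / h : ℕ) : ℝ)) ^ (y ^ 2 - 1) ≤
      Real.log v ^ (y - 1) * (C₂ * (1 + Real.log N) ^ (y + y ^ 2 - 1)) := by
    have h3 : ∑ h ∈ Ioc v N, y ^ om N h / (h : ℝ) *
        (1 + Real.log h) ^ (y - 1) * (1 + Real.log ((N / h : ℕ) : ℝ)) ^ (y ^ 2 - 1) ≤
        ∑ h ∈ Ioc v N, Real.log v ^ (y - 1) * (y ^ om N h / (h : ℝ) *
          (1 + Real.log ((N / h : ℕ) : ℝ)) ^ (y ^ 2 - 1)) := by
      refine sum_le_sum fun h hh => ?_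
      rw [mem_Ioc] at hh
      have h4 : (1 + Real.log h) ^ (y - 1) ≤ Real.log v ^ (y - 1) := by
        refine Real.rpow_le_rpow_of_nonpos hlv ?_ (by linarith)
        have h5 : Real.log v ≤ Real.log h := by
          refine Real.log_le_log ?_ ?_
          · exact_mod_cast (by omega : 0 < v)
          · exact_mod_cast hh.1.le
        linarith
      have h5 : 0 ≤ y ^ om N h / (h : ℝ) := div_nonneg (pow_nonneg h0.le _) (Nat.cast_nonneg _)
      have h6 : 0 ≤ (1 + Real.log ((N / h : ℕ) : ℝ)) ^ (y ^ 2 - 1) := by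
        refine Real.rpow_nonneg ?_ _
        have := Real.log_natCast_nonneg (N / h)
        linarith
      calc y ^ om N h / (h : ℝ) * (1 + Real.log h) ^ (y - 1) *
            (1 + Real.log ((N / h : ℕ) : ℝ)) ^ (y ^ 2 - 1)
          ≤ y ^ om N h / (h : ℝ) * Real.log v ^ (y - 1) *
            (1 + Real.log ((N / h : ℕ) : ℝ)) ^ (y ^ 2 - 1) :=
            mul_le_mul_of_nonneg_right (mul_le_mul_of_nonneg_left h4 h5) h6
        _ = _ := by ring
    refine h3.trans ?_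
    rw [← mul_sum]
    refine mul_le_mul_of_nonneg_left ?_ hV0
    refine le_trans ?_ (hr N (by omega))
    refine sum_le_sum_of_subset_of_nonneg ?_ ?_
    · intro h hh
      rw [mem_Ioc] at hh
      rw [mem_Icc]
      omega
    · intro h _ _
      refine mul_nonneg (div_nonneg (pow_nonneg h0.le _) (Nat.cast_nonneg _))
        (Real.rpow_nonneg ?_ _)
      have := Real.log_natCast_nonneg (N / h)
      linarith
  have hpow := levB_pow hN2 hE
  calc GS B N v N ≤ _ := hb N v B X hX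
    _ ≤ C₁ * (N * y ^ (-(2 * X)) * (Real.log v ^ (y - 1) *
          (C₂ * (1 + Real.log N) ^ (y + y ^ 2 - 1)))) := by
        refine mul_le_mul_of_nonneg_left ?_ hC₁.le
        exact mul_le_mul_of_nonneg_left hsum (mul_nonneg (Nat.cast_nonneg _) hK0.le)
    _ ≤ C₁ * (N * y ^ (-(2 * X)) * (Real.log v ^ (y - 1) *
          (C₂ * (3 * Real.log N ^ (y + y ^ 2 - 1))))) := by
        refine mul_le_mul_of_nonneg_left ?_ hC₁.le
        refine mul_le_mul_of_nonneg_left ?_ (mul_nonneg (Nat.cast_nonneg _) hK0.le)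
        refine mul_le_mul_of_nonneg_left ?_ hV0
        exact mul_le_mul_of_nonneg_left hpow hC₂.le
    _ = _ := by ring

theorem lev_all {y : ℝ} (h0 : 1 / 2 < y) (h1 : y < 1) : ∃ C : ℝ, 0 < C ∧
    ∀ (N : ℕ) (B : Finset ℕ) (X : ℝ), 2 ≤ N → B ⊆ Icc 1 N →
    (∀ n ∈ B, (om N n : ℝ) ≤ X) →
    GS B N 0 N ≤ C * (N * y ^ (-(2 * X)) * Real.log N ^ (y ^ 2 + 2 * y - 2)) := by
  have hy0 : 0 < y := by linarith
  obtain ⟨C₁, hC₁, hb⟩ := levB_base hy0 h1
  obtain ⟨C₂, hC₂, hr⟩ := R_sum hy0 h1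
  obtain ⟨C₃, hC₃, hu⟩ := U_sum h0 h1
  refine ⟨C₁ * (6 * C₂ + 6 * C₃), by positivity, ?_⟩
  intro N B X hN2 hB hX
  have hy2 : 0 < y ^ 2 := by positivity
  have hy21 : y ^ 2 ≤ 1 := by nlinarith
  have hlN : 0 < Real.log N := lt_trans (by norm_num) (levB_log hN2)
  have hK0 : 0 < y ^ (-(2 * X)) := Real.rpow_pos_of_pos hy0 _
  have hE : y ^ 2 + 2 * y - 2 ≤ 1 := by nlinarith
  have hL0 : 0 < 1 + Real.log N := by linarith
  have hterm : ∀ h ∈ Icc 1 N, y ^ om N h / (h : ℝ) *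
      (1 + Real.log h) ^ (y - 1) * (1 + Real.log ((N / h : ℕ) : ℝ)) ^ (y ^ 2 - 1) ≤
      2 * (1 + Real.log N) ^ (y ^ 2 - 1) * (y ^ om N h / (h : ℝ) *
        (1 + Real.log h) ^ (y - 1)) +
      2 * (1 + Real.log N) ^ (y - 1) * (y ^ om N h / (h : ℝ) *
        (1 + Real.log ((N / h : ℕ) : ℝ)) ^ (y ^ 2 - 1)) := by
    intro h hh
    rw [mem_Icc] at hh
    have hh0 : 0 < h := hh.1
    have hlh : 0 ≤ Real.log h := Real.log_natCast_nonneg _
    have hq1 : 1 ≤ N / h := by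
      rw [Nat.le_div_iff_mul_le hh0]
      omega
    have hqlt : N < (N / h + 1) * h := by
      have h7 := Nat.lt_div_mul_add (a := N) hh0
      calc N < N / h * h + h := h7
        _ = (N / h + 1) * h := by ring
    generalize N / h = q at hq1 hqlt ⊢
    have hlq : 0 ≤ Real.log q := Real.log_natCast_nonneg _
    have ha : 0 ≤ y ^ om N h / (h : ℝ) := div_nonneg (pow_nonneg hy0.le _) (Nat.cast_nonneg _)
    have hA : 0 ≤ (1 + Real.log h) ^ (y - 1) := Real.rpow_nonneg (by linarith) _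
    have hD : 0 ≤ (1 + Real.log q) ^ (y ^ 2 - 1) := Real.rpow_nonneg (by linarith) _
    have hN1 : 0 ≤ (1 + Real.log N) ^ (y ^ 2 - 1) := Real.rpow_nonneg hL0.le _
    have hN2' : 0 ≤ (1 + Real.log N) ^ (y - 1) := Real.rpow_nonneg hL0.le _
    have hNpos : (0 : ℝ) < N := by exact_mod_cast (by omega : 0 < N)
    by_cases hcase : h ≤ q
    · -- `1 + log N ≤ 2 (1 + log q)`
      have h5 : N ≤ 2 * q ^ 2 := by
        have h8 : (q + 1) * h ≤ (q + 1) * q := Nat.mul_le_mul_left _ hcase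
        nlinarith
      have h6 : Real.log N ≤ Real.log 2 + 2 * Real.log q := by
        have h9 : (N : ℝ) ≤ 2 * (q : ℝ) ^ 2 := by exact_mod_cast h5
        have h10 := Real.log_le_log hNpos h9
        have hq0 : (q : ℝ) ^ 2 ≠ 0 := by
          have : (0 : ℝ) < q := by exact_mod_cast hq1
          positivity
        rw [Real.log_mul (by norm_num) hq0, Real.log_pow] at h10
        push_cast at h10
        exact h10
      have h7 : Real.log 2 ≤ 1 := by
        have := Real.log_two_lt_d9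
        linarith
      have h8 := levB_half hlN.le hlq (by linarith) (show (-1 : ℝ) ≤ y ^ 2 - 1 by linarith)
        (by linarith)
      have h9 : y ^ om N h / (h : ℝ) * (1 + Real.log h) ^ (y - 1) *
          (1 + Real.log q) ^ (y ^ 2 - 1) ≤
          y ^ om N h / (h : ℝ) * (1 + Real.log h) ^ (y - 1) *
          (2 * (1 + Real.log N) ^ (y ^ 2 - 1)) :=
        mul_le_mul_of_nonneg_left h8 (mul_nonneg ha hA)
      have h10 : 0 ≤ 2 * (1 + Real.log N) ^ (y - 1) * (y ^ om N h / (h : ℝ) *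
          (1 + Real.log q) ^ (y ^ 2 - 1)) := by positivity
      linarith
    · -- `1 + log N ≤ 2 (1 + log h)`
      have h5 : N ≤ h ^ 2 := by
        have h8 : (q + 1) * h ≤ h * h := Nat.mul_le_mul_right _ (by omega)
        nlinarith
      have h6 : Real.log N ≤ 2 * Real.log h := by
        have h9 : (N : ℝ) ≤ (h : ℝ) ^ 2 := by exact_mod_cast h5
        have h10 := Real.log_le_log hNpos h9
        rw [Real.log_pow] at h10
        push_cast at h10
        exact h10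
      have h8 := levB_half hlN.le hlh (by linarith) (show (-1 : ℝ) ≤ y - 1 by linarith)
        (by linarith)
      have h9 : y ^ om N h / (h : ℝ) * (1 + Real.log h) ^ (y - 1) *
          (1 + Real.log q) ^ (y ^ 2 - 1) ≤
          y ^ om N h / (h : ℝ) * (2 * (1 + Real.log N) ^ (y - 1)) *
          (1 + Real.log q) ^ (y ^ 2 - 1) :=
        mul_le_mul_of_nonneg_right (mul_le_mul_of_nonneg_left h8 ha) hD
      have h10 : 0 ≤ 2 * (1 + Real.log N) ^ (y ^ 2 - 1) * (y ^ om N h / (h : ℝ) *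
          (1 + Real.log h) ^ (y - 1)) := by positivity
      linarith
  have hsum : ∑ h ∈ Ioc 0 N, y ^ om N h / (h : ℝ) *
      (1 + Real.log h) ^ (y - 1) * (1 + Real.log ((N / h : ℕ) : ℝ)) ^ (y ^ 2 - 1) ≤
      (2 * C₂ + 2 * C₃) * (1 + Real.log N) ^ (y ^ 2 + 2 * y - 2) := by
    have h3 : Ioc 0 N = Icc 1 N := by
      ext h
      rw [mem_Ioc, mem_Icc]
      omega
    rw [h3]
    refine (sum_le_sum hterm).trans ?_
    rw [sum_add_distrib, ← mul_sum, ← mul_sum]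
    have h4 := hr N (by omega)
    have h5 := hu N (by omega)
    have e1 : (1 + Real.log N) ^ (y ^ 2 - 1) * (1 + Real.log N) ^ (2 * y - 1) =
        (1 + Real.log N) ^ (y ^ 2 + 2 * y - 2) := by
      rw [← Real.rpow_add hL0]
      congr 1
      ring
    have e2 : (1 + Real.log N) ^ (y - 1) * (1 + Real.log N) ^ (y + y ^ 2 - 1) =
        (1 + Real.log N) ^ (y ^ 2 + 2 * y - 2) := by
      rw [← Real.rpow_add hL0]
      congr 1
      ring
    have hN1 : 0 ≤ 2 * (1 + Real.log N) ^ (y ^ 2 - 1) := by positivity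
    have hN2' : 0 ≤ 2 * (1 + Real.log N) ^ (y - 1) := by positivity
    refine (add_le_add (mul_le_mul_of_nonneg_left h5 hN1)
      (mul_le_mul_of_nonneg_left h4 hN2')).trans (le_of_eq ?_)
    calc 2 * (1 + Real.log N) ^ (y ^ 2 - 1) * (C₃ * (1 + Real.log N) ^ (2 * y - 1)) +
          2 * (1 + Real.log N) ^ (y - 1) * (C₂ * (1 + Real.log N) ^ (y + y ^ 2 - 1))
        = 2 * C₃ * ((1 + Real.log N) ^ (y ^ 2 - 1) * (1 + Real.log N) ^ (2 * y - 1)) +
          2 * C₂ * ((1 + Real.log N) ^ (y - 1) * (1 + Real.log N) ^ (y + y ^ 2 - 1)) := by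
          ring
      _ = _ := by
          rw [e1, e2]
          ring
  have hpow := levB_pow hN2 hE
  have hNK : 0 ≤ (N : ℝ) * y ^ (-(2 * X)) := mul_nonneg (Nat.cast_nonneg _) hK0.le
  calc GS B N 0 N ≤ _ := hb N 0 B X hX
    _ ≤ C₁ * (N * y ^ (-(2 * X)) * ((2 * C₂ + 2 * C₃) *
          (1 + Real.log N) ^ (y ^ 2 + 2 * y - 2))) :=
        mul_le_mul_of_nonneg_left (mul_le_mul_of_nonneg_left hsum hNK) hC₁.le
    _ ≤ C₁ * (N * y ^ (-(2 * X)) * ((2 * C₂ + 2 * C₃) *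
          (3 * Real.log N ^ (y ^ 2 + 2 * y - 2)))) := by
        refine mul_le_mul_of_nonneg_left ?_ hC₁.le
        refine mul_le_mul_of_nonneg_left ?_ hNK
        exact mul_le_mul_of_nonneg_left hpow (by positivity)
    _ = _ := by ring

end Pool.Agent.MEN
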