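import Pool.Agent.MEN.LevA
import Pool.Agent.MEN.LevB
import Pool.Agent.MEN.Ana
import Pool.Agent.MEN.Sca

set_option autoImplicit false

/-!
MEN-En. The energy of `Bs (y + y ^ 2) J N`: the range of `h` is cut at the scales `wj N J j`; the
terms `h ≤ 2` are bounded by the size of the set, the low scales by `lev_low` and the top scale by
`lev_top`. The exponent of `log N` is a convex combination of `-A y` and `S y - 2 A y`, up to
`(1 - y) / J`.
-/

namespace Pool.Agent.MEN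

open Finset

private theorem log_one_lt {N : ℕ} (hN : 3 ≤ N) : 1 < Real.log N := by
  have h3 : (3 : ℝ) ≤ N := by exact_mod_cast hN
  rw [Real.lt_log_iff_exp_lt (by linarith)]
  have := Real.exp_one_lt_d9
  linarith

private theorem rp {N : ℕ} (hN : 3 ≤ N) (a : ℝ) : Real.log N ^ a = Real.exp (LL N * a) := by
  rw [Real.rpow_def_of_pos (by linarith [log_one_lt hN]), LL]

private theorem LL_nonneg {N : ℕ} (hN : 3 ≤ N) : 0 ≤ LL N :=
  Real.log_nonneg (log_one_lt hN).le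

private theorem card_bound {y : ℝ} (h0 : 0 < y) (h1 : y + y ^ 2 < 1) : ∃ C : ℝ, 0 < C ∧
    ∀ (N : ℕ) (B : Finset ℕ), 3 ≤ N → B ⊆ Icc 1 N →
    (∀ n ∈ B, (om N n : ℝ) ≤ (y + y ^ 2) * LL N) →
    (B.card : ℝ) ≤ C * (N * Real.exp (LL N * (-A y))) := by
  obtain ⟨C, hC, h⟩ := one_sum (z := 1) (by norm_num)
  refine ⟨C, by linarith, ?_⟩
  intro N B hN hB hom
  have hκ0 : 0 < y + y ^ 2 := by positivity
  have hA : A y = (y + y ^ 2) * Real.log (y + y ^ 2) - (y + y ^ 2) + 1 := rfl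
  rw [hA]
  generalize y + y ^ 2 = κ at *
  have hl := log_one_lt hN
  have h2 := h κ hκ0.le h1.le N (by omega)
  have h3 : (B.card : ℝ) ≤ ∑ n ∈ Icc 1 N, κ ^ (-(κ * LL N)) * κ ^ om N n := by
    calc (B.card : ℝ) = ∑ n ∈ B, (1 : ℝ) := by simp
      _ ≤ ∑ n ∈ B, κ ^ (-(κ * LL N)) * κ ^ om N n := by
          apply Finset.sum_le_sum
          intro n hn
          rw [← Real.rpow_natCast, ← Real.rpow_add hκ0]
          apply Real.one_le_rpow_of_pos_of_le_one_of_nonpos hκ0 h1.le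
          have := hom n hn
          linarith
      _ ≤ _ := Finset.sum_le_sum_of_subset_of_nonneg hB (fun n _ _ => by positivity)
  rw [← Finset.mul_sum] at h3
  have h4 : (1 + Real.log N) ^ (κ - 1) ≤ Real.log N ^ (κ - 1) :=
    Real.rpow_le_rpow_of_nonpos (by linarith) (by linarith) (by linarith)
  rw [rp hN] at h4
  have h5 : κ ^ (-(κ * LL N)) = Real.exp (Real.log κ * (-(κ * LL N))) :=
    Real.rpow_def_of_pos hκ0 _
  have hN0 : (0 : ℝ) ≤ N := by positivity
  calc (B.card : ℝ) ≤ κ ^ (-(κ * LL N)) * ∑ n ∈ Icc 1 N, κ ^ om N n := h3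
    _ ≤ κ ^ (-(κ * LL N)) * (C * (N * (1 + Real.log N) ^ (κ - 1))) :=
        mul_le_mul_of_nonneg_left h2 (by positivity)
    _ ≤ κ ^ (-(κ * LL N)) * (C * (N * Real.exp (LL N * (κ - 1)))) := by
        apply mul_le_mul_of_nonneg_left _ (by positivity)
        apply mul_le_mul_of_nonneg_left _ (by linarith)
        exact mul_le_mul_of_nonneg_left h4 hN0
    _ = C * (N * (Real.exp (Real.log κ * (-(κ * LL N))) * Real.exp (LL N * (κ - 1)))) := by
        rw [h5]; ring
    _ = _ := by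
        rw [← Real.exp_add]
        congr 3
        ring

private theorem log_rpow {y L t v : ℝ} (h0 : 0 < y) (h1 : y < 1)
    (hv : Real.exp (L * t) / 2 ≤ v) :
    v ^ (y - 1) ≤ 2 * Real.exp (L * (t * (y - 1))) := by
  have e0 : 0 < Real.exp (L * t) := Real.exp_pos _
  calc v ^ (y - 1) ≤ (Real.exp (L * t) / 2) ^ (y - 1) :=
        Real.rpow_le_rpow_of_nonpos (by positivity) hv (by linarith)
    _ = Real.exp (L * (t * (y - 1))) / 2 ^ (y - 1) := by
        rw [Real.div_rpow e0.le (by norm_num), ← Real.exp_mul]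
        ring_nf
    _ ≤ 2 * Real.exp (L * (t * (y - 1))) := by
        rw [div_le_iff₀ (by positivity)]
        have h3 : (1 / 2 : ℝ) ≤ 2 ^ (y - 1) := by
          calc (1 / 2 : ℝ) = 2 ^ (-1 : ℝ) := by rw [Real.rpow_neg_one]; norm_num
            _ ≤ 2 ^ (y - 1) := Real.rpow_le_rpow_of_exponent_le (by norm_num) (by linarith)
        have h4 := Real.exp_pos (L * (t * (y - 1)))
        nlinarith

private theorem expo_low {y κ s L E e J' t : ℝ} (hL : 0 ≤ L) (hs0 : 0 ≤ s) (hs1 : s ≤ 1)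
    (hA : -(κ * Real.log κ - κ + 1) ≤ E) (hS : κ + y - 2 - 2 * κ * Real.log y ≤ E)
    (hJ : (1 - y) * J' ≤ e) (ht : t = s - J') :
    (2 * Real.log y - Real.log κ) * (-(κ * s * L)) + Real.log κ * (-(κ * L)) +
      (L * (t * (y - 1)) + L * (κ - 1)) ≤ L * (E + e) := by
  have h1 : (2 * Real.log y - Real.log κ) * (-(κ * s * L)) + Real.log κ * (-(κ * L)) +
      (L * (t * (y - 1)) + L * (κ - 1)) = L * (s * (κ + y - 2 - 2 * κ * Real.log y) +
        (1 - s) * (-(κ * Real.log κ - κ + 1)) + (1 - y) * J') := by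
    rw [ht]; ring
  rw [h1]
  apply mul_le_mul_of_nonneg_left _ hL
  have h2 := mul_le_mul_of_nonneg_left hS hs0
  have h3 := mul_le_mul_of_nonneg_left hA (sub_nonneg.2 hs1)
  nlinarith

private theorem expo_top {y κ L E e J' t : ℝ} (hL : 0 ≤ L)
    (hS : κ + y - 2 - 2 * κ * Real.log y ≤ E)
    (hJ : (1 - y) * J' ≤ e) (ht : t = 1 - J') :
    Real.log y * (-(2 * (κ * L))) + (L * (t * (y - 1)) + L * (κ - 1)) ≤ L * (E + e) := by
  have h1 : Real.log y * (-(2 * (κ * L))) + (L * (t * (y - 1)) + L * (κ - 1)) =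
      L * ((κ + y - 2 - 2 * κ * Real.log y) + (1 - y) * J') := by
    rw [ht]; ring
  rw [h1]
  apply mul_le_mul_of_nonneg_left _ hL
  linarith

private theorem sum_split (B : Finset ℕ) (N : ℕ) (V : ℕ → ℕ) (M : ℝ) (J : ℕ)
    (hV : ∀ j, j < J → V j ≤ V (j + 1)) (hM : ∀ j, j < J → GS B N (V j) (V (j + 1)) ≤ M) :
    V 0 ≤ V J ∧ GS B N (V 0) (V J) ≤ J * M := by
  induction J with
  | zero =>
    refine ⟨le_rfl, ?_⟩
    simp [GS]
  | succ J ih =>
    obtain ⟨h1, h2⟩ := ih (fun j hj => hV j (by omega)) (fun j hj => hM j (by omega))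
    have h3 := hV J (by omega)
    refine ⟨h1.trans h3, ?_⟩
    rw [GS_split B h1 h3]
    have h4 := hM J (by omega)
    push_cast
    linarith

private theorem low_scale {y C κ : ℝ} (h0 : 0 < y) (hy1 : y < 1) (hκ0 : 0 < κ) (hC : 0 < C)
    {N : ℕ} (hN : 3 ≤ N) {G s t e J' E v : ℝ}
    (hG : G ≤ C * (N * (y ^ 2 / κ) ^ (-(κ * s * LL N)) * κ ^ (-(κ * LL N)) *
      (v ^ (y - 1) * Real.log N ^ (κ - 1)))) (hv : Real.exp (LL N * t) / 2 ≤ v)
    (hs0 : 0 ≤ s) (hs1 : s ≤ 1)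
    (hA : -(κ * Real.log κ - κ + 1) ≤ E) (hS : κ + y - 2 - 2 * κ * Real.log y ≤ E)
    (hJ : (1 - y) * J' ≤ e) (ht : t = s - J') :
    G ≤ 2 * C * (N * Real.exp (LL N * (E + e))) := by
  have h1 := log_rpow h0 hy1 hv
  have h2 : (y ^ 2 / κ) ^ (-(κ * s * LL N)) =
      Real.exp ((2 * Real.log y - Real.log κ) * (-(κ * s * LL N))) := by
    rw [Real.rpow_def_of_pos (by positivity), Real.log_div (by positivity) hκ0.ne',
      Real.log_pow]
    norm_num
  have h3 : κ ^ (-(κ * LL N)) = Real.exp (Real.log κ * (-(κ * LL N))) :=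
    Real.rpow_def_of_pos hκ0 _
  have hN0 : (0 : ℝ) ≤ N := by positivity
  have h4 := expo_low (LL_nonneg hN) hs0 hs1 hA hS hJ ht
  calc G ≤ _ := hG
    _ ≤ C * (N * (y ^ 2 / κ) ^ (-(κ * s * LL N)) * κ ^ (-(κ * LL N)) *
      (2 * Real.exp (LL N * (t * (y - 1))) * Real.log N ^ (κ - 1))) := by
        apply mul_le_mul_of_nonneg_left _ hC.le
        apply mul_le_mul_of_nonneg_left
        · apply mul_le_mul_of_nonneg_right h1
          exact Real.rpow_nonneg (by linarith [log_one_lt hN]) _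
        · rw [h2, h3]; positivity
    _ = 2 * C * (N * Real.exp ((2 * Real.log y - Real.log κ) * (-(κ * s * LL N)) +
          Real.log κ * (-(κ * LL N)) + (LL N * (t * (y - 1)) + LL N * (κ - 1)))) := by
        rw [h2, h3, rp hN, Real.exp_add, Real.exp_add, Real.exp_add]
        ring
    _ ≤ _ := by
        apply mul_le_mul_of_nonneg_left _ (by positivity)
        exact mul_le_mul_of_nonneg_left (Real.exp_le_exp.2 h4) hN0

private theorem top_scale {y C κ : ℝ} (h0 : 0 < y) (hy1 : y < 1) (hC : 0 < C)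
    {N : ℕ} (hN : 3 ≤ N) {G t e J' E v : ℝ}
    (hG : G ≤ C * (N * y ^ (-(2 * (κ * LL N))) *
      (v ^ (y - 1) * Real.log N ^ (κ - 1)))) (hv : Real.exp (LL N * t) / 2 ≤ v)
    (hS : κ + y - 2 - 2 * κ * Real.log y ≤ E)
    (hJ : (1 - y) * J' ≤ e) (ht : t = 1 - J') :
    G ≤ 2 * C * (N * Real.exp (LL N * (E + e))) := by
  have h1 := log_rpow h0 hy1 hv
  have h3 : y ^ (-(2 * (κ * LL N))) = Real.exp (Real.log y * (-(2 * (κ * LL N)))) :=
    Real.rpow_def_of_pos h0 _
  have hN0 : (0 : ℝ) ≤ N := by positivity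
  have h4 := expo_top (LL_nonneg hN) hS hJ ht
  calc G ≤ _ := hG
    _ ≤ C * (N * y ^ (-(2 * (κ * LL N))) *
      (2 * Real.exp (LL N * (t * (y - 1))) * Real.log N ^ (κ - 1))) := by
        apply mul_le_mul_of_nonneg_left _ hC.le
        apply mul_le_mul_of_nonneg_left
        · apply mul_le_mul_of_nonneg_right h1
          exact Real.rpow_nonneg (by linarith [log_one_lt hN]) _
        · rw [h3]; positivity
    _ = 2 * C * (N * Real.exp (Real.log y * (-(2 * (κ * LL N))) +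
          (LL N * (t * (y - 1)) + LL N * (κ - 1)))) := by
        rw [h3, rp hN, Real.exp_add, Real.exp_add]
        ring
    _ ≤ _ := by
        apply mul_le_mul_of_nonneg_left _ (by positivity)
        exact mul_le_mul_of_nonneg_left (Real.exp_le_exp.2 h4) hN0

private theorem main_bound {y : ℝ} (h0 : 0 < y) (h1 : y + y ^ 2 < 1) {J : ℕ} (hJ : 2 ≤ J) {e : ℝ}
    (he : 0 ≤ e) (hJe : (1 - y) * (1 / J) ≤ e) :
    ∃ C : ℝ, 0 < C ∧ ∃ N₀ : ℕ, 3 ≤ N₀ ∧ ∀ N : ℕ, N₀ ≤ N →
    (energy (Bs (y + y ^ 2) J N) N : ℝ) ≤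
      C * (N ^ 2 * Real.exp (LL N * (max (-A y) (S y - 2 * A y) + e))) := by
  have hy1 : y < 1 := by nlinarith
  have hκ0 : 0 < y + y ^ 2 := by positivity
  obtain ⟨C₀, hC₀, hcard⟩ := card_bound h0 h1
  obtain ⟨C₁, hC₁, hlow⟩ := lev_low h0 h1.le
  obtain ⟨C₂, hC₂, htop⟩ := lev_top h0 hy1
  obtain ⟨N₁, hN₁⟩ := wj_large (J := J) (by omega)
  obtain ⟨N₂, hN₂⟩ := wj_sq (J := J) (by omega)
  refine ⟨2 * (2 * C₀ + J * (2 * C₁ + 2 * C₂)), by positivity, max 3 (max N₁ N₂),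
    le_max_left _ _, ?_⟩
  intro N hN
  have hN3 : 3 ≤ N := (le_max_left _ _).trans hN
  have hNN1 : N₁ ≤ N := ((le_max_left _ _).trans (le_max_right _ _)).trans hN
  have hNN2 : N₂ ≤ N := ((le_max_right _ _).trans (le_max_right _ _)).trans hN
  have hJ0 : (0 : ℝ) < J := by
    have : 0 < J := by omega
    exact_mod_cast this
  have hL := LL_nonneg hN3
  have hN0 : (0 : ℝ) ≤ N := by positivity
  have hAE : -A y ≤ max (-A y) (S y - 2 * A y) := le_max_left _ _
  have hSE : S y - 2 * A y ≤ max (-A y) (S y - 2 * A y) := le_max_right _ _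
  have hSs := S_sub h0
  have hAd : A y = (y + y ^ 2) * Real.log (y + y ^ 2) - (y + y ^ 2) + 1 := rfl
  have hAE' : -((y + y ^ 2) * Real.log (y + y ^ 2) - (y + y ^ 2) + 1) ≤
      max (-A y) (S y - 2 * A y) := by rw [← hAd]; exact hAE
  have hSE' : (y + y ^ 2) + y - 2 - 2 * (y + y ^ 2) * Real.log y ≤
      max (-A y) (S y - 2 * A y) := by
    refine le_trans (le_of_eq ?_) hSE
    rw [hSs]
    ring
  generalize max (-A y) (S y - 2 * A y) = E at *
  have hBsub : Bs (y + y ^ 2) J N ⊆ Icc 1 N := by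
    intro n hn
    simp only [Bs, Finset.mem_filter] at hn
    exact hn.1
  have hBom : ∀ n ∈ Bs (y + y ^ 2) J N, ∀ j ∈ Icc 1 J,
      (om (wj N J j) n : ℝ) ≤ (y + y ^ 2) * ((j : ℝ) / J) * LL N := by
    intro n hn
    simp only [Bs, Finset.mem_filter] at hn
    exact hn.2
  have hBN : ∀ n ∈ Bs (y + y ^ 2) J N, (om N n : ℝ) ≤ (y + y ^ 2) * LL N := by
    intro n hn
    have h := hBom n hn J (Finset.mem_Icc.2 ⟨by omega, le_rfl⟩)
    rw [wj_top (by omega) (by omega), div_self hJ0.ne', mul_one] at h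
    exact h
  generalize Bs (y + y ^ 2) J N = B at *
  have hBc := hcard N B hN3 hBsub hBN
  have hen := energy_le B N hBsub
  -- the scales
  let V : ℕ → ℕ := fun j => if j = 0 then 2 else wj N J j
  have hV0 : V 0 = 2 := if_pos rfl
  have hVs : ∀ j, V (j + 1) = wj N J (j + 1) := fun j => if_neg (by omega)
  have hVlog : ∀ j, j ≤ J → 2 ≤ V j ∧ Real.exp (LL N * ((j : ℝ) / J)) / 2 ≤ Real.log (V j) := by
    intro j hj
    rcases Nat.eq_zero_or_pos j with hj0 | hj0
    · rw [hj0, hV0]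
      refine ⟨le_rfl, ?_⟩
      have := Real.log_two_gt_d9
      simp only [Nat.cast_zero, zero_div, mul_zero, Real.exp_zero, Nat.cast_ofNat]
      linarith
    · obtain ⟨i, rfl⟩ : ∃ i, j = i + 1 := ⟨j - 1, by omega⟩
      rw [hVs]
      have h := hN₁ N hNN1 (i + 1) hj0 hj
      rw [rp hN3] at h
      exact h
  have hVmono : ∀ j, j < J → V j ≤ V (j + 1) := by
    intro j hj
    rcases Nat.eq_zero_or_pos j with hj0 | hj0
    · rw [hj0, hV0]
      exact (hVlog 1 (by omega)).1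
    · obtain ⟨i, rfl⟩ : ∃ i, j = i + 1 := ⟨j - 1, by omega⟩
      rw [hVs, hVs]
      exact wj_mono hN3 (by omega)
  have hVJ : V J = N := by
    obtain ⟨i, hi⟩ : ∃ i, J = i + 1 := ⟨J - 1, by omega⟩
    have h : V J = wj N J J := if_neg (by omega)
    rw [h, wj_top (by omega) (by omega)]
  have hlev : ∀ j, j < J → GS B N (V j) (V (j + 1)) ≤
      (2 * C₁ + 2 * C₂) * (N * Real.exp (LL N * (E + e))) := by
    intro j hj
    have hpos : 0 ≤ (N : ℝ) * Real.exp (LL N * (E + e)) := by positivity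
    obtain ⟨hv2, hvl⟩ := hVlog j hj.le
    rcases Nat.lt_or_ge (j + 1) J with hj1 | hj1
    · have hsq := hN₂ N hNN2 (j + 1) hj1
      rw [← hVs] at hsq
      have hX1 : ∀ n ∈ B, (om (V (j + 1)) n : ℝ) ≤
          (y + y ^ 2) * (((j + 1 : ℕ) : ℝ) / J) * LL N := by
        intro n hn
        rw [hVs]
        exact hBom n hn (j + 1) (Finset.mem_Icc.2 ⟨by omega, by omega⟩)
      have hG := hlow N (V j) (V (j + 1)) B _ _ hv2 (hVmono j hj) hsq hBsub hX1 hBN
      have hs1 : ((j + 1 : ℕ) : ℝ) / J ≤ 1 := by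
        rw [div_le_one hJ0]
        exact_mod_cast hj1.le
      have hfin := low_scale (κ := y + y ^ 2) h0 hy1 hκ0 hC₁ hN3 (J' := 1 / (J : ℝ))
        (t := (j : ℝ) / J) (E := E) (e := e) hG hvl (by positivity) hs1 hAE' hSE' hJe
        (by push_cast; field_simp; ring)
      nlinarith
    · have hJj : J = j + 1 := by omega
      have hVN : V (j + 1) = N := by rw [← hJj]; exact hVJ
      have hvN : V j ≤ N := by
        have := hVmono j hj
        rw [hVN] at this
        exact this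
      rw [hVN]
      have hG := htop N (V j) B _ hv2 hvN hBsub hBN
      have hfin := top_scale (κ := y + y ^ 2) h0 hy1 hC₂ hN3 (J' := 1 / (J : ℝ))
        (t := (j : ℝ) / J) (E := E) (e := e) hG hvl hSE' hJe
        (by rw [hJj]; push_cast; field_simp; ring)
      nlinarith
  obtain ⟨h2N, hsum⟩ := sum_split B N V _ J hVmono hlev
  rw [hV0, hVJ] at hsum h2N
  have hsplit := GS_split B (N := N) (u := 0) (v := 2) (w := N) (by omega) h2N
  have htwo := GS_two B N
  have hcE : Real.exp (LL N * (-A y)) ≤ Real.exp (LL N * (E + e)) := by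
    apply Real.exp_le_exp.2
    apply mul_le_mul_of_nonneg_left _ hL
    linarith
  have hBc' : (B.card : ℝ) ≤ C₀ * (N * Real.exp (LL N * (E + e))) :=
    hBc.trans (mul_le_mul_of_nonneg_left (mul_le_mul_of_nonneg_left hcE hN0) hC₀.le)
  calc (energy B N : ℝ) ≤ 2 * (N * GS B N 0 N) := hen
    _ ≤ 2 * (N * (2 * (C₀ * (N * Real.exp (LL N * (E + e)))) +
          J * ((2 * C₁ + 2 * C₂) * (N * Real.exp (LL N * (E + e)))))) := by
        apply mul_le_mul_of_nonneg_left _ (by norm_num)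
        apply mul_le_mul_of_nonneg_left _ hN0
        rw [hsplit]
        linarith
    _ = _ := by ring

theorem energy_Bs {y : ℝ} (h0 : 0 < y) (h1 : y + y ^ 2 < 1) {ε : ℝ} (hε : 0 < ε) :
    ∃ J : ℕ, 1 ≤ J ∧ ∃ N₀ : ℕ, ∀ N : ℕ, N₀ ≤ N →
    (energy (Bs (y + y ^ 2) J N) N : ℝ) ≤
      N ^ 2 * Real.log N ^ (max (-A y) (S y - 2 * A y) + ε) := by
  have hy1 : y < 1 := by nlinarith
  obtain ⟨K, hK⟩ := exists_nat_gt (2 / ε)
  have hJe : (1 - y) * (1 / ((K + 2 : ℕ) : ℝ)) ≤ ε / 2 := by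
    have hK0 : (0 : ℝ) ≤ K := by positivity
    rw [div_lt_iff₀ hε] at hK
    rw [mul_one_div, div_le_iff₀ (by positivity)]
    push_cast
    nlinarith
  obtain ⟨C, hC, N₀, hN₀, h⟩ := main_bound h0 h1 (J := K + 2) (by omega) (e := ε / 2)
    (by linarith) hJe
  have hlim : Filter.Tendsto (fun N : ℕ => Real.exp (LL N * (ε / 2))) Filter.atTop
      Filter.atTop := by
    apply Real.tendsto_exp_atTop.comp
    apply Filter.Tendsto.atTop_mul_const (by linarith)
    exact Real.tendsto_log_atTop.comp (Real.tendsto_log_atTop.comp tendsto_natCast_atTop_atTop)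
  obtain ⟨N₁, hN₁⟩ := Filter.eventually_atTop.1 (hlim.eventually_ge_atTop C)
  refine ⟨K + 2, by omega, max N₀ N₁, ?_⟩
  intro N hN
  have hN3 : 3 ≤ N := hN₀.trans ((le_max_left _ _).trans hN)
  refine (h N ((le_max_left _ _).trans hN)).trans ?_
  have h2 := hN₁ N ((le_max_right _ _).trans hN)
  rw [rp hN3]
  generalize max (-A y) (S y - 2 * A y) = E
  have h3 : Real.exp (LL N * (E + ε)) = Real.exp (LL N * (ε / 2)) *
      Real.exp (LL N * (E + ε / 2)) := by
    rw [← Real.exp_add]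
    congr 1
    ring
  rw [h3]
  have h4 : 0 ≤ (N : ℝ) ^ 2 * Real.exp (LL N * (E + ε / 2)) := by positivity
  nlinarith [mul_le_mul_of_nonneg_right h2 h4]

end Pool.Agent.MEN
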