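import Pool.Agent.MEN.Lsm
import Pool.Agent.MEN.Two

set_option autoImplicit false

/-!
MEN-Med. A positive proportion of the integers has at most `log log N` odd prime factors.

Second moment method for `exp (t (L - om N n))`, `L = LL N`, `t` of order `1 / √L`: the sum over all `n ≤ N` is
at least `2 N`, the part with `om N n > L` is at most `N`, and the sum of the squares is `O(N)`.
-/

namespace Pool.Agent.MEN

open Finset

private theorem exp_low {t : ℝ} (h0 : 0 ≤ t) (h1 : t ≤ 1 / 2) :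
    t ^ 2 / 3 ≤ Real.exp (-t) - 1 + t := by
  have h := Real.exp_bound (x := -t) (by rw [abs_neg, abs_of_nonneg h0]; linarith)
    (n := 3) (by norm_num)
  rw [abs_le] at h
  have h2 := h.1
  rw [abs_neg, abs_of_nonneg h0] at h2
  simp only [Finset.sum_range_succ, Finset.sum_range_zero, Nat.factorial] at h2
  norm_num at h2
  have h3 : t ^ 3 ≤ t ^ 2 / 2 := by
    have : 0 ≤ t ^ 2 := sq_nonneg t
    nlinarith
  nlinarith [sq_nonneg t]

private theorem exp_up {t : ℝ} (h0 : 0 ≤ t) (h1 : t ≤ 1 / 2) :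
    Real.exp (-(2 * t)) - 1 + 2 * t ≤ 4 * t ^ 2 := by
  have h := Real.abs_exp_sub_one_sub_id_le (x := -(2 * t))
    (by rw [abs_neg, abs_of_nonneg (by linarith)]; linarith)
  have h2 := (abs_le.1 h).2
  nlinarith

theorem median : ∃ c : ℝ, 0 < c ∧ ∃ N₀ : ℕ, ∀ N : ℕ, N₀ ≤ N →
    c * N ≤ (((Icc 1 N).filter (fun n => (om N n : ℝ) ≤ LL N)).card : ℝ) := by
  obtain ⟨c, hc, x0, hlow⟩ := sum_ge01 (z0 := 1 / 2) (by norm_num)
  obtain ⟨C, hC, hup⟩ := one_sum (z := 1) (by norm_num)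
  have hT : 0 < 2 / c + 1 := by positivity
  obtain ⟨T, hTdef⟩ : ∃ T : ℝ, T = 2 / c + 1 := ⟨_, rfl⟩
  rw [← hTdef] at hT
  refine ⟨1 / (C * Real.exp (12 * T)), by positivity,
    max x0 (⌈Real.exp (Real.exp (12 * T))⌉₊ + 1), fun N hN => ?_⟩
  have hN1 : x0 ≤ N := (le_max_left _ _).trans hN
  have hN2 : ⌈Real.exp (Real.exp (12 * T))⌉₊ + 1 ≤ N := (le_max_right _ _).trans hN
  have hNpos : 1 ≤ N := by omega
  have hN0 : (0 : ℝ) < N := by exact_mod_cast hNpos
  have hNexp : Real.exp (Real.exp (12 * T)) ≤ N :=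
    (Nat.le_ceil _).trans (by exact_mod_cast (by omega : ⌈Real.exp (Real.exp (12 * T))⌉₊ ≤ N))
  have hlog : Real.exp (12 * T) ≤ Real.log N := (Real.le_log_iff_exp_le hN0).2 hNexp
  have hlog0 : 0 < Real.log N := (Real.exp_pos _).trans_le hlog
  have hL : 12 * T ≤ LL N := (Real.le_log_iff_exp_le hlog0).2 hlog
  obtain ⟨L, hLdef⟩ : ∃ L : ℝ, L = LL N := ⟨_, rfl⟩
  rw [← hLdef] at hL
  have hL0 : 0 < L := by linarith
  -- the parameter `t`
  obtain ⟨t, ht0, ht1, ht2⟩ : ∃ t : ℝ, 0 ≤ t ∧ t ≤ 1 / 2 ∧ L * t ^ 2 = 3 * T := by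
    refine ⟨Real.sqrt (3 * T / L), Real.sqrt_nonneg _, ?_, ?_⟩
    · rw [Real.sqrt_le_left (by norm_num), div_le_iff₀ hL0]
      linarith
    · rw [Real.sq_sqrt (by positivity)]
      field_simp
  obtain ⟨z, hz⟩ : ∃ z : ℝ, z = Real.exp (-t) := ⟨_, rfl⟩
  have hz0 : 0 < z := hz ▸ Real.exp_pos _
  have hz1 : z ≤ 1 := by
    rw [hz]
    exact Real.exp_le_one_iff.2 (by linarith)
  have hz2 : 1 / 2 ≤ z := by
    have := Real.add_one_le_exp (-t)
    rw [hz]
    linarith
  have hpow : ∀ n, z ^ om N n = Real.exp (-(t * om N n)) := by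
    intro n
    rw [hz, ← Real.exp_nat_mul]
    congr 1
    ring
  -- the weights
  obtain ⟨W, hW⟩ : ∃ W : ℕ → ℝ, W = fun n => z ^ om N n * Real.exp (t * L) := ⟨_, rfl⟩
  have hWpos : ∀ n, 0 ≤ W n := by
    intro n
    rw [hW]
    positivity
  -- the lower bound for the sum
  have hsum : 2 * (N : ℝ) ≤ ∑ n ∈ Icc 1 N, W n := by
    have h1 := hlow N hN1 z hz2 hz1
    have h2 : Real.log N ^ (z - 1) = Real.exp (L * (z - 1)) := by
      rw [Real.rpow_def_of_pos hlog0, hLdef]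
      rfl
    rw [h2] at h1
    have h3 : ∑ n ∈ Icc 1 N, W n = (∑ n ∈ Icc 1 N, z ^ om N n) * Real.exp (t * L) := by
      rw [hW, Finset.sum_mul]
    rw [h3]
    have h4 : c * (N * Real.exp (L * (z - 1))) * Real.exp (t * L) ≤
        (∑ n ∈ Icc 1 N, z ^ om N n) * Real.exp (t * L) :=
      mul_le_mul_of_nonneg_right h1 (Real.exp_pos _).le
    refine le_trans ?_ h4
    have h5 : c * (N * Real.exp (L * (z - 1))) * Real.exp (t * L) =
        N * (c * Real.exp (L * (z - 1 + t))) := by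
      have : Real.exp (L * (z - 1 + t)) = Real.exp (L * (z - 1)) * Real.exp (t * L) := by
        rw [← Real.exp_add]
        congr 1
        ring
      rw [this]
      ring
    rw [h5]
    have h6 : T ≤ L * (z - 1 + t) := by
      have h7 := exp_low ht0 ht1
      rw [← hz] at h7
      have h8 := mul_le_mul_of_nonneg_left h7 hL0.le
      have h9 : L * (t ^ 2 / 3) = T := by
        rw [← mul_div_assoc, ht2]
        ring
      linarith
    have h7 : 2 / c ≤ Real.exp (L * (z - 1 + t)) := by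
      have h8 := Real.add_one_le_exp (L * (z - 1 + t))
      linarith
    have h8 : 2 ≤ c * Real.exp (L * (z - 1 + t)) := by
      have h9 := mul_le_mul_of_nonneg_left h7 hc.le
      rwa [mul_div_cancel₀ _ hc.ne'] at h9
    nlinarith
  -- the part with many prime factors
  obtain ⟨S, hS⟩ : ∃ S : Finset ℕ, S = (Icc 1 N).filter (fun n => (om N n : ℝ) ≤ LL N) := ⟨_, rfl⟩
  have hbig : ∑ n ∈ (Icc 1 N).filter (fun n => ¬ (om N n : ℝ) ≤ LL N), W n ≤ N := by
    have h1 : ∀ n ∈ (Icc 1 N).filter (fun n => ¬ (om N n : ℝ) ≤ LL N), W n ≤ 1 := by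
      intro n hn
      rw [mem_filter] at hn
      have h2 : L < om N n := by
        rw [hLdef]
        exact not_le.1 hn.2
      simp only [hW]
      rw [hpow, ← Real.exp_add, Real.exp_le_one_iff]
      nlinarith
    refine (Finset.sum_le_sum h1).trans ?_
    rw [Finset.sum_const, nsmul_eq_mul, mul_one]
    have h3 : ((Icc 1 N).filter (fun n => ¬ (om N n : ℝ) ≤ LL N)).card ≤ (Icc 1 N).card :=
      card_filter_le _ _
    rw [Nat.card_Icc] at h3
    exact_mod_cast (by omega : ((Icc 1 N).filter (fun n => ¬ (om N n : ℝ) ≤ LL N)).card ≤ N)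
  have hA : (N : ℝ) ≤ ∑ n ∈ S, W n := by
    have h1 := Finset.sum_filter_add_sum_filter_not (Icc 1 N) (fun n => (om N n : ℝ) ≤ LL N) W
    rw [← hS] at h1
    linarith
  -- the sum of the squares
  have hsq : ∑ n ∈ S, W n ^ 2 ≤ C * N * Real.exp (12 * T) := by
    have h1 : ∑ n ∈ S, W n ^ 2 ≤ ∑ n ∈ Icc 1 N, W n ^ 2 := by
      refine Finset.sum_le_sum_of_subset_of_nonneg ?_ (fun n _ _ => sq_nonneg _)
      rw [hS]
      exact filter_subset _ _
    refine h1.trans ?_
    have h2 := hup (z ^ 2) (sq_nonneg z) (by nlinarith) N hNpos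
    have h3 : ∑ n ∈ Icc 1 N, W n ^ 2 = (∑ n ∈ Icc 1 N, (z ^ 2) ^ om N n) * Real.exp (2 * t * L) := by
      rw [hW, Finset.sum_mul]
      refine Finset.sum_congr rfl fun n _ => ?_
      have h4 : Real.exp (2 * t * L) = Real.exp (t * L) ^ 2 := by
        rw [← Real.exp_nat_mul]
        congr 1
        push_cast
        ring
      rw [h4, ← pow_mul, mul_comm 2 (om N n), pow_mul]
      ring
    rw [h3]
    have h4 : (1 + Real.log N) ^ (z ^ 2 - 1) ≤ Real.exp (L * (z ^ 2 - 1)) := by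
      have h5 : (1 + Real.log N) ^ (z ^ 2 - 1) ≤ Real.log N ^ (z ^ 2 - 1) :=
        Real.rpow_le_rpow_of_nonpos hlog0 (by linarith) (by nlinarith)
      refine h5.trans (le_of_eq ?_)
      rw [Real.rpow_def_of_pos hlog0, hLdef]
      rfl
    have h5 : (∑ n ∈ Icc 1 N, (z ^ 2) ^ om N n) ≤ C * (N * Real.exp (L * (z ^ 2 - 1))) := by
      refine h2.trans ?_
      have h6 : (N : ℝ) * (1 + Real.log N) ^ (z ^ 2 - 1) ≤ N * Real.exp (L * (z ^ 2 - 1)) :=
        mul_le_mul_of_nonneg_left h4 hN0.le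
      exact mul_le_mul_of_nonneg_left h6 (by linarith)
    have h6 : (∑ n ∈ Icc 1 N, (z ^ 2) ^ om N n) * Real.exp (2 * t * L) ≤
        C * (N * Real.exp (L * (z ^ 2 - 1))) * Real.exp (2 * t * L) :=
      mul_le_mul_of_nonneg_right h5 (Real.exp_pos _).le
    refine h6.trans ?_
    have h7 : C * (N * Real.exp (L * (z ^ 2 - 1))) * Real.exp (2 * t * L) =
        C * N * Real.exp (L * (z ^ 2 - 1 + 2 * t)) := by
      have : Real.exp (L * (z ^ 2 - 1 + 2 * t)) =
          Real.exp (L * (z ^ 2 - 1)) * Real.exp (2 * t * L) := by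
        rw [← Real.exp_add]
        congr 1
        ring
      rw [this]
      ring
    rw [h7]
    refine mul_le_mul_of_nonneg_left (Real.exp_le_exp.2 ?_) (by positivity)
    have h8 := exp_up ht0 ht1
    have h9 : Real.exp (-(2 * t)) = z ^ 2 := by
      rw [hz, ← Real.exp_nat_mul]
      congr 1
      push_cast
      ring
    rw [h9] at h8
    have h10 := mul_le_mul_of_nonneg_left h8 hL0.le
    nlinarith
  -- Cauchy-Schwarz
  have hcs : (∑ n ∈ S, W n) ^ 2 ≤ (S.card : ℝ) * ∑ n ∈ S, W n ^ 2 := sq_sum_le_card_mul_sum_sq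
  have h1 : (N : ℝ) ^ 2 ≤ (S.card : ℝ) * (C * N * Real.exp (12 * T)) := by
    have h2 : (N : ℝ) ^ 2 ≤ (∑ n ∈ S, W n) ^ 2 := by
      have := hN0.le
      nlinarith
    have h3 : (S.card : ℝ) * ∑ n ∈ S, W n ^ 2 ≤ (S.card : ℝ) * (C * N * Real.exp (12 * T)) :=
      mul_le_mul_of_nonneg_left hsq (Nat.cast_nonneg _)
    linarith
  rw [← hS]
  have hCe : 0 < C * Real.exp (12 * T) := by positivity
  rw [one_div, inv_mul_le_iff₀ hCe]
  have h4 : (N : ℝ) * N ≤ N * (C * Real.exp (12 * T) * S.card) := by nlinarith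
  exact le_of_mul_le_mul_left h4 hN0

end Pool.Agent.MEN
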