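import Pool.Agent.MEN.Crd
import Pool.Agent.MEN.En
import Pool.Agent.MEN.Att
import Pool.Agent.MEN.Med

set_option autoImplicit false

/-!
MEN-Suf. Sufficiency: the sets `Bs` (density exponent slightly larger than `A y`) and thinning; for
density exponent `0` the integers with at most `log log N` odd prime factors.
-/

namespace Pool.Agent.MEN

open Finset

private theorem ev_log_one : ∃ N₀ : ℕ, ∀ N : ℕ, N₀ ≤ N → 1 ≤ Real.log N := by
  refine ⟨3, fun N hN => ?_⟩
  have h3 : (3 : ℝ) ≤ N := by exact_mod_cast hN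
  rw [Real.le_log_iff_exp_le (by linarith)]
  have := Real.exp_one_lt_d9
  linarith

theorem suf {y α β : ℝ} (h0 : 0 < y) (h1 : y + y ^ 2 < 1) (hβ : 0 ≤ β) (hα : A y < α)
    (hS : S y < α + β) : Attained α β := by
  have hκ0 : 0 < y + y ^ 2 := by positivity
  -- choice of ε
  obtain ⟨ε, hε, hε1, hε2, hε3⟩ : ∃ ε : ℝ, 0 < ε ∧ A y + ε ≤ α ∧ A y + 3 * ε ≤ α + β ∧
      S y + 3 * ε ≤ α + β := by
    refine ⟨min ((α - A y) / 4) ((α + β - S y) / 4), lt_min (by linarith) (by linarith), ?_, ?_, ?_⟩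
    · have := min_le_left ((α - A y) / 4) ((α + β - S y) / 4)
      linarith
    · have := min_le_left ((α - A y) / 4) ((α + β - S y) / 4)
      linarith
    · have := min_le_right ((α - A y) / 4) ((α + β - S y) / 4)
      linarith
  obtain ⟨J, hJ, N₁, hN₁⟩ := energy_Bs h0 h1 hε
  obtain ⟨N₂, hN₂⟩ := card_Bs hκ0 h1 hJ hε
  obtain ⟨N₃, hN₃⟩ := ev_log_one
  refine attained_of (c := 1) (K := 1) hβ one_pos (fun N => Bs (y + y ^ 2) J N)
    (max N₁ (max N₂ N₃)) ?_
  intro N hN
  have hl := hN₃ N ((le_max_right _ _).trans ((le_max_right _ _).trans hN))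
  have hcard := hN₂ N ((le_max_left _ _).trans ((le_max_right _ _).trans hN))
  have hen := hN₁ N ((le_max_left _ _).trans hN)
  have hl0 : 0 < Real.log N := by linarith
  have hA : (y + y ^ 2) * Real.log (y + y ^ 2) - (y + y ^ 2) + 1 = A y := rfl
  rw [hA] at hcard
  refine ⟨?_, ?_, ?_⟩
  · intro n hn
    simp only [Bs, mem_filter] at hn
    exact hn.1
  · rw [one_mul]
    refine le_trans ?_ hcard
    apply mul_le_mul_of_nonneg_left _ (Nat.cast_nonneg N)
    exact Real.rpow_le_rpow_of_exponent_le hl (by linarith)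
  · rw [one_mul]
    refine hen.trans ?_
    have h2 : ((N : ℝ) * Real.log N ^ (-A y - ε)) ^ 2 ≤ ((Bs (y + y ^ 2) J N).card : ℝ) ^ 2 := by
      apply pow_le_pow_left₀ _ hcard
      positivity
    have h3 : ((N : ℝ) * Real.log N ^ (-A y - ε)) ^ 2 * Real.log N ^ (α + β) ≤
        ((Bs (y + y ^ 2) J N).card : ℝ) ^ 2 * Real.log N ^ (α + β) :=
      mul_le_mul_of_nonneg_right h2 (by positivity)
    refine le_trans ?_ h3
    have h4 : ((N : ℝ) * Real.log N ^ (-A y - ε)) ^ 2 * Real.log N ^ (α + β) =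
        (N : ℝ) ^ 2 * Real.log N ^ (2 * (-A y - ε) + (α + β)) := by
      have h5 : (Real.log N ^ (-A y - ε)) ^ 2 = Real.log N ^ (2 * (-A y - ε)) := by
        rw [mul_comm, Real.rpow_mul hl0.le, Real.rpow_two]
      rw [mul_pow, h5, mul_assoc, ← Real.rpow_add hl0]
    rw [h4]
    apply mul_le_mul_of_nonneg_left _ (by positivity)
    apply Real.rpow_le_rpow_of_exponent_le hl
    rcases le_total (-A y) (S y - 2 * A y) with h5 | h5
    · rw [max_eq_right h5]
      linarith
    · rw [max_eq_left h5]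
      linarith

theorem suf_zero {y β : ℝ} (h0 : 0 < y) (h1 : y + y ^ 2 = 1) (hS : S y ≤ β) :
    Attained 0 β := by
  have hy1 : y < 1 := by nlinarith
  have hy2 : 1 / 2 < y := by nlinarith
  have hS0 : 0 ≤ S y := by
    have h2 := S_sub h0
    rw [A_zero h1, h1] at h2
    have h3 : Real.log y ≤ y - 1 := Real.log_le_sub_one_of_pos h0
    nlinarith
  obtain ⟨c, hc, N₁, hN₁⟩ := median
  obtain ⟨C, hC, hlev⟩ := lev_all hy2 hy1
  obtain ⟨N₃, hN₃⟩ := ev_log_one
  classical
  refine attained_of (c := c) (K := 2 * C / c ^ 2) (hS0.trans hS) hc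
    (fun N => (Icc 1 N).filter (fun n => (om N n : ℝ) ≤ LL N)) (max N₁ (max 2 N₃)) ?_
  intro N hN
  have hl := hN₃ N ((le_max_right _ _).trans ((le_max_right _ _).trans hN))
  have hN2 : 2 ≤ N := (le_max_left _ _).trans ((le_max_right _ _).trans hN)
  have hcard := hN₁ N ((le_max_left _ _).trans hN)
  have hl0 : 0 < Real.log N := by linarith
  set B := (Icc 1 N).filter (fun n => (om N n : ℝ) ≤ LL N) with hB
  have hBs : B ⊆ Icc 1 N := filter_subset _ _
  have hcard' : c * (N : ℝ) ≤ (B.card : ℝ) := hcard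
  refine ⟨hBs, ?_, ?_⟩
  · rw [neg_zero, Real.rpow_zero, mul_one]
    exact hcard'
  · have h2 := energy_le B N hBs
    have h3 := hlev N B (LL N) hN2 hBs (fun n hn => (mem_filter.1 hn).2)
    have h4 : y ^ (-(2 * LL N)) * Real.log N ^ (y ^ 2 + 2 * y - 2) = Real.log N ^ S y := by
      have h5 := S_sub h0
      rw [A_zero h1, h1] at h5
      have h6 : S y = (y ^ 2 + 2 * y - 2) + (-(2 * Real.log y)) := by linarith
      rw [h6, Real.rpow_add hl0, mul_comm]
      congr 1
      rw [Real.rpow_def_of_pos h0, Real.rpow_def_of_pos hl0]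
      congr 1
      unfold LL
      ring
    have h7 : (energy B N : ℝ) ≤ 2 * C * ((N : ℝ) ^ 2 * Real.log N ^ S y) := by
      calc (energy B N : ℝ) ≤ 2 * (N * GS B N 0 N) := h2
        _ ≤ 2 * (N * (C * (N * y ^ (-(2 * LL N)) * Real.log N ^ (y ^ 2 + 2 * y - 2)))) := by
            gcongr
        _ = 2 * C * ((N : ℝ) ^ 2 * (y ^ (-(2 * LL N)) * Real.log N ^ (y ^ 2 + 2 * y - 2))) := by
            ring
        _ = _ := by rw [h4]
    have h8 : (c * N) ^ 2 ≤ (B.card : ℝ) ^ 2 := pow_le_pow_left₀ (by positivity) hcard' 2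
    have h9 : Real.log N ^ S y ≤ Real.log N ^ (0 + β) := by
      rw [zero_add]
      exact Real.rpow_le_rpow_of_exponent_le hl hS
    calc (energy B N : ℝ) ≤ 2 * C * ((N : ℝ) ^ 2 * Real.log N ^ S y) := h7
      _ = 2 * C / c ^ 2 * ((c * N) ^ 2 * Real.log N ^ S y) := by
          field_simp
      _ ≤ 2 * C / c ^ 2 * ((B.card : ℝ) ^ 2 * Real.log N ^ (0 + β)) := by
          gcongr

end Pool.Agent.MEN
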