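import Pool.Agent.MEN.Nec
import Pool.Agent.MEN.Suf

set_option autoImplicit false

/-!
MEN-Fin. The classification of the attained pairs, assembled from `nec_lt`, `nec_zero`, `suf`, `suf_zero`.
-/

namespace Pool.Agent.MEN

open Finset

private theorem golden : ∃ y : ℝ, 0 < y ∧ y + y ^ 2 = 1 := by
  refine ⟨(Real.sqrt 5 - 1) / 2, ?_, ?_⟩
  · have : (1 : ℝ) < Real.sqrt 5 := by
      rw [show (1 : ℝ) = Real.sqrt 1 by simp]
      exact Real.sqrt_lt_sqrt (by norm_num) (by norm_num)
    linarith
  · have h : Real.sqrt 5 ^ 2 = 5 := Real.sq_sqrt (by norm_num)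
    nlinarith

theorem main_iff {α β : ℝ} (hα : 0 ≤ α) (hβ : 0 ≤ β) :
    Attained α β ↔ 1 ≤ α ∨ ∃ y : ℝ, 0 < y ∧ y + y ^ 2 ≤ 1 ∧ α = A y ∧
      (S y < α + β ∨ α = 0 ∧ S y ≤ α + β) := by
  constructor
  · intro h
    rcases lt_or_ge α 1 with h1 | h1
    · right
      rcases hα.eq_or_lt with h2 | h2
      · obtain ⟨y, hy0, hy1⟩ := golden
        rw [← h2] at h
        refine ⟨y, hy0, hy1.le, ?_, Or.inr ⟨h2.symm, ?_⟩⟩
        · rw [A_zero hy1, h2]
        · rw [← h2, zero_add]
          exact nec_zero hy0 hy1 h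
      · obtain ⟨y, hy0, hy1, hy2⟩ := A_surj h2 h1
        refine ⟨y, hy0, hy1.le, hy2.symm, Or.inl ?_⟩
        rw [← hy2] at h ⊢
        exact nec_lt hy0 hy1 h
    · exact Or.inl h1
  · rintro (h | ⟨y, hy0, hy1, hyA, h⟩)
    · have h4 : (0 : ℝ) < 1 / 4 := by norm_num
      refine suf h4 (by norm_num) hβ ((A_lt_one h4 (by norm_num)).trans_le h) ?_
      have h5 := S_mono h4 (show (1 / 4 : ℝ) < 1 / 2 by norm_num)
      have h6 := S_half
      linarith
    · rcases hy1.eq_or_lt with h1 | h1
      · have h2 : α = 0 := by rw [hyA, A_zero h1]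
        have h3 : S y ≤ β := by
          rcases h with h | h
          · linarith
          · linarith [h.2]
        rw [h2]
        exact suf_zero hy0 h1 h3
      · have hpos := A_pos hy0 h1
        have h2 : S y < α + β := by
          rcases h with h | h
          · exact h
          · exfalso
            rw [← hyA, h.1] at hpos
            exact lt_irrefl _ hpos
        -- a slightly larger value of y
        have hc : ∀ᶠ t in nhdsWithin y (Set.Ioi y), S t < α + β ∧ t + t ^ 2 < 1 := by
          have e1 : ∀ᶠ t in nhds y, S t < α + β := (S_cont hy0).eventually_lt_const h2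
          have e2 : ∀ᶠ t in nhds y, t + t ^ 2 < 1 :=
            (by fun_prop : ContinuousAt (fun t : ℝ => t + t ^ 2) y).eventually_lt_const h1
          exact (e1.and e2).filter_mono nhdsWithin_le_nhds
        have hc2 : ∀ᶠ t in nhdsWithin y (Set.Ioi y), y < t := eventually_mem_nhdsWithin
        obtain ⟨t, ⟨ht1, ht2⟩, ht3⟩ := (hc.and hc2).exists
        have ht0 : 0 < t := hy0.trans ht3
        refine suf ht0 ht2 hβ ?_ ht1
        rw [hyA]
        exact A_anti hy0 ht3 ht2.le

/-- the infimum of `α + β` over the attained pairs, and it is not attained -/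
theorem main_inf : ∃ y : ℝ, 1 / 4 < y ∧ y < 1 / 2 ∧
    1 - y = y * (1 + y) * Real.log (1 + 1 / y) ∧
    (∀ α β : ℝ, 0 ≤ α → 0 ≤ β → Attained α β → A y < α + β) ∧
    (∀ α : ℝ, A y < α → Attained α 0) ∧ A y < 1 / 2 := by
  obtain ⟨y, h1, h2, h3, h4⟩ := y0_ex
  have hy0 : 0 < y := by linarith
  have hy1 : y + y ^ 2 < 1 := by nlinarith
  refine ⟨y, h1, h2, h4, ?_, ?_, ?_⟩
  · intro α β hα hβ h
    rcases (main_iff hα hβ).1 h with h5 | ⟨t, ht0, ht1, htA, ht⟩
    · have := A_lt_one hy0 hy1.le
      linarith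
    · rcases lt_trichotomy t y with h6 | h6 | h6
      · have := A_anti ht0 h6 hy1.le
        linarith
      · subst h6
        rcases ht with ht | ⟨ht, -⟩
        · linarith
        · have := A_pos hy0 hy1
          linarith
      · have h7 := S_mono hy0 h6
        rcases ht with ht | ⟨-, ht⟩
        · linarith
        · linarith
  · intro α hα
    have hpos := A_pos hy0 hy1
    exact suf hy0 hy1 le_rfl hα (by rw [add_zero, h3]; exact hα)
  · have h5 := S_mono hy0 h2
    have h6 := S_half
    linarith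

end Pool.Agent.MEN
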