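import Pool.Agent.MEN.Two

set_option autoImplicit false

/-!
MEN-LevA. The contribution of a low scale (Rankin with two weights).
-/

namespace Pool.Agent.MEN

open Finset

private theorem levA_card {s : Finset ℕ} {p : ℕ → Prop} [DecidablePred p] {f : ℕ → ℝ}
    (h0 : ∀ g ∈ s, 0 ≤ f g) (h1 : ∀ g ∈ s, p g → 1 ≤ f g) :
    ((s.filter p).card : ℝ) ≤ ∑ g ∈ s, f g := by
  calc ((s.filter p).card : ℝ) = ∑ g ∈ s.filter p, (1 : ℝ) := by simp
    _ ≤ ∑ g ∈ s.filter p, f g :=
        sum_le_sum fun g hg => h1 g (mem_filter.1 hg).1 (mem_filter.1 hg).2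
    _ ≤ ∑ g ∈ s, f g :=
        sum_le_sum_of_subset_of_nonneg (filter_subset _ _) fun g hg _ => h0 g hg

private theorem levA_key {y : ℝ} (h0 : 0 < y) (h1 : y + y ^ 2 ≤ 1) (a b c d : ℕ) {X₁ X₂ : ℝ}
    (hX₁ : (2 * a + c + d : ℝ) ≤ 2 * X₁) (hX₂ : (2 * (a + b) + c + d : ℝ) ≤ 2 * X₂) :
    1 ≤ (y ^ 2 / (y + y ^ 2)) ^ (-X₁) * (y + y ^ 2) ^ (-X₂) *
      (y ^ c * y ^ d * ((y ^ 2) ^ a * (y + y ^ 2) ^ b)) := by
  have hy2 : 0 < y ^ 2 := by positivity
  have hk : 0 < y + y ^ 2 := by positivity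
  have hρ : 0 < y ^ 2 / (y + y ^ 2) := div_pos hy2 hk
  have hlk : Real.log (y + y ^ 2) ≤ 0 := Real.log_nonpos hk.le h1
  have hlρ : Real.log (y ^ 2 / (y + y ^ 2)) ≤ 0 := by
    refine Real.log_nonpos hρ.le ?_
    rw [div_le_one hk]
    linarith
  have hlρ' : Real.log (y ^ 2 / (y + y ^ 2)) = 2 * Real.log y - Real.log (y + y ^ 2) := by
    rw [Real.log_div hy2.ne' hk.ne', Real.log_pow]
    push_cast
    ring
  have hpow : ∀ (x : ℝ) (n : ℕ), 0 < x → x ^ n = Real.exp (n * Real.log x) := by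
    intro x n hx
    rw [Real.exp_nat_mul, Real.exp_log hx]
  rw [Real.rpow_def_of_pos hρ, Real.rpow_def_of_pos hk, hpow y c h0, hpow y d h0,
    hpow (y ^ 2) a hy2, hpow (y + y ^ 2) b hk, Real.log_pow, ← Real.exp_add, ← Real.exp_add,
    ← Real.exp_add, ← Real.exp_add, ← Real.exp_add, Real.one_le_exp_iff]
  rw [hlρ'] at hlρ ⊢
  have h2 := mul_nonneg_of_nonpos_of_nonpos hlρ
    (show ((2 * a + c + d : ℝ) / 2 - X₁) ≤ 0 by linarith)
  have h3 := mul_nonneg_of_nonpos_of_nonpos hlk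
    (show ((2 * (a + b) + c + d : ℝ) / 2 - X₂) ≤ 0 by linarith)
  push_cast
  nlinarith [h2, h3]

private theorem levA_log {x : ℕ} (hx : 2 ≤ x) : 1 / 2 < Real.log x := by
  have h1 : Real.log 2 ≤ Real.log x :=
    Real.log_le_log (by norm_num) (by exact_mod_cast hx)
  have h2 := Real.log_two_gt_d9
  linarith

theorem lev_low {y : ℝ} (h0 : 0 < y) (h1 : y + y ^ 2 ≤ 1) : ∃ C : ℝ, 0 < C ∧
    ∀ (N v w : ℕ) (B : Finset ℕ) (X₁ X₂ : ℝ), 2 ≤ v → v ≤ w → w ^ 2 ≤ N → B ⊆ Icc 1 N →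
    (∀ n ∈ B, (om w n : ℝ) ≤ X₁) → (∀ n ∈ B, (om N n : ℝ) ≤ X₂) →
    GS B N v w ≤ C * (N * (y ^ 2 / (y + y ^ 2)) ^ (-X₁) * (y + y ^ 2) ^ (-X₂) *
      (Real.log v ^ (y - 1) * Real.log N ^ (y + y ^ 2 - 1))) := by
  obtain ⟨C₂, hC₂, h2⟩ := two_sum (z := 1) (by norm_num)
  obtain ⟨C₁, hC₁, hs⟩ := one_sum (z := 1) (by norm_num)
  obtain ⟨C₀, hC₀, hl⟩ := one_log (z := 1) (by norm_num)
  have hy1 : y ≤ 1 := by nlinarith [sq_nonneg y]
  have hy2 : 0 < y ^ 2 := by positivity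
  have hk : 0 < y + y ^ 2 := by positivity
  refine ⟨9 * C₀ * C₁ * C₂, by positivity, ?_⟩
  intro N v w B X₁ X₂ hv hvw hwN hB hX₁ hX₂
  have hw2 : 2 ≤ w := hv.trans hvw
  have hwN' : w ≤ N := by nlinarith
  have hlv : 0 < Real.log v := lt_trans (by norm_num) (levA_log hv)
  have hlw : 0 < Real.log w := lt_trans (by norm_num) (levA_log hw2)
  have hlN : 0 < Real.log N := lt_trans (by norm_num) (levA_log (hw2.trans hwN'))
  have hρ : 0 < y ^ 2 / (y + y ^ 2) := div_pos hy2 hk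
  set K : ℝ := (y ^ 2 / (y + y ^ 2)) ^ (-X₁) * (y + y ^ 2) ^ (-X₂) with hK
  have hK0 : 0 < K := mul_pos (Real.rpow_pos_of_pos hρ _) (Real.rpow_pos_of_pos hk _)
  set V : ℝ := Real.log v ^ (y - 1) with hV
  have hV0 : 0 < V := Real.rpow_pos_of_pos hlv _
  set W : ℝ := Real.log w ^ (y ^ 2 - (y + y ^ 2)) with hW
  have hW0 : 0 < W := Real.rpow_pos_of_pos hlw _
  set U : ℝ := Real.log N ^ (y + y ^ 2 - 1) with hU
  have hU0 : 0 < U := Real.rpow_pos_of_pos hlN _
  -- the bound for one `h`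
  have hone : ∀ h ∈ Ioc v w, (1 / (h : ℝ)) * ∑ h' ∈ Icc 1 h,
      (((Icc 1 (N / h)).filter (fun g => g * h ∈ B ∧ g * h' ∈ B)).card : ℝ) ≤
      (3 * C₁ * C₂ * (N * K * (V * (W * U)))) * (y ^ om w h / (h : ℝ)) := by
    intro h hh
    rw [mem_Ioc] at hh
    have hh0 : 0 < h := by omega
    have hhR : (0 : ℝ) < h := by exact_mod_cast hh0
    have hq : w ≤ N / h := by
      rw [Nat.le_div_iff_mul_le hh0]
      calc w * h ≤ w * w := Nat.mul_le_mul_left _ hh.2
        _ = w ^ 2 := by ring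
        _ ≤ N := hwN
    have hhN : h ≤ N := hh.2.trans hwN'
    set q : ℕ := N / h with hqdef
    have hqN : q ≤ N := Nat.div_le_self _ _
    have hq2 : 2 ≤ q := hw2.trans hq
    set G : ℝ := ∑ g ∈ Icc 1 q, (y ^ 2) ^ om w g * (y + y ^ 2) ^ (om q g - om w g) with hG
    have hG0 : 0 ≤ G := sum_nonneg fun g _ =>
      mul_nonneg (pow_nonneg hy2.le _) (pow_nonneg hk.le _)
    have hcard : ∀ h' ∈ Icc 1 h,
        (((Icc 1 q).filter (fun g => g * h ∈ B ∧ g * h' ∈ B)).card : ℝ) ≤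
        K * (y ^ om w h * y ^ om h h' * G) := by
      intro h' hh'
      rw [mem_Icc] at hh'
      have hh'0 : 0 < h' := hh'.1
      have h3 := levA_card (s := Icc 1 q) (p := fun g => g * h ∈ B ∧ g * h' ∈ B)
        (f := fun g => K * (y ^ om w h * y ^ om h h' *
          ((y ^ 2) ^ om w g * (y + y ^ 2) ^ (om q g - om w g)))) (by
          intro g _
          exact mul_nonneg hK0.le (mul_nonneg (mul_nonneg (pow_nonneg h0.le _)
            (pow_nonneg h0.le _)) (mul_nonneg (pow_nonneg hy2.le _) (pow_nonneg hk.le _)))) (by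
          intro g hg hgB
          rw [mem_Icc] at hg
          have hg0 : g ≠ 0 := by omega
          have ho1 : om w g ≤ om q g := om_mono hq g
          have e1 : om N g = om q g := om_eq (hg.2.trans hqN) hg.2
          have e2 : om N h = om w h := om_eq hhN hh.2
          have e3 : om N h' = om h h' := om_eq (hh'.2.trans hhN) hh'.2
          have e4 : om w h' = om h h' := om_eq (hh'.2.trans hh.2) hh'.2
          have a1 := hX₁ _ hgB.1
          have a2 := hX₁ _ hgB.2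
          have a3 := hX₂ _ hgB.1
          have a4 := hX₂ _ hgB.2
          rw [om_mul w hg0 hh0.ne'] at a1
          rw [om_mul w hg0 hh'0.ne', e4] at a2
          rw [om_mul N hg0 hh0.ne', e1, e2] at a3
          rw [om_mul N hg0 hh'0.ne', e1, e3] at a4
          push_cast at a1 a2 a3 a4
          rw [hK]
          refine levA_key h0 h1 (om w g) (om q g - om w g) (om w h) (om h h') ?_ ?_
          · linarith
          · rw [Nat.cast_sub ho1]
            linarith)
      refine h3.trans (le_of_eq ?_)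
      rw [hG, mul_sum, mul_sum]
    have hsum1 : ∑ h' ∈ Icc 1 h, y ^ om h h' ≤ C₁ * (h * V) := by
      refine (hs y h0.le hy1 h hh0).trans ?_
      refine mul_le_mul_of_nonneg_left ?_ (by linarith)
      refine mul_le_mul_of_nonneg_left ?_ hhR.le
      refine Real.rpow_le_rpow_of_nonpos hlv ?_ (by linarith)
      have h4 : Real.log v ≤ Real.log h := by
        refine Real.log_le_log ?_ ?_
        · exact_mod_cast (by omega : 0 < v)
        · exact_mod_cast hh.1.le
      linarith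
    have hlogq : Real.log N ≤ 3 * Real.log q := by
      have h5 : N ≤ q ^ 3 := by
        have h6 : N < (q + 1) * h := by
          have h7 := Nat.lt_div_mul_add (a := N) hh0
          rw [← hqdef] at h7
          calc N < q * h + h := h7
            _ = (q + 1) * h := by ring
        have h8 : (q + 1) * h ≤ (q + 1) * q := Nat.mul_le_mul_left _ (hh.2.trans hq)
        nlinarith
      have h9 : (N : ℝ) ≤ (q : ℝ) ^ 3 := by exact_mod_cast h5
      have h10 : Real.log N ≤ Real.log ((q : ℝ) ^ 3) := by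
        refine Real.log_le_log ?_ h9
        exact_mod_cast (by omega : 0 < N)
      rw [Real.log_pow] at h10
      push_cast at h10
      exact h10
    have hlq : 0 < Real.log q := lt_trans (by norm_num) (levA_log hq2)
    have hpowq : Real.log q ^ (y + y ^ 2 - 1) ≤ 3 * U := by
      have h5 : Real.log q ^ (y + y ^ 2 - 1) ≤ (Real.log N / 3) ^ (y + y ^ 2 - 1) :=
        Real.rpow_le_rpow_of_nonpos (by positivity) (by linarith) (by linarith)
      refine h5.trans ?_
      rw [Real.div_rpow hlN.le (by norm_num), ← hU, div_le_iff₀ (by positivity)]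
      have h6 : (3 : ℝ) ^ (-1 : ℝ) ≤ 3 ^ (y + y ^ 2 - 1) :=
        Real.rpow_le_rpow_of_exponent_le (by norm_num) (by linarith)
      rw [Real.rpow_neg_one] at h6
      have h7 : U * (3 * 3⁻¹) ≤ U * (3 * 3 ^ (y + y ^ 2 - 1)) :=
        mul_le_mul_of_nonneg_left (by linarith) hU0.le
      have h8 : (3 : ℝ) * 3⁻¹ = 1 := by norm_num
      rw [h8, mul_one] at h7
      calc U ≤ _ := h7
        _ = 3 * U * 3 ^ (y + y ^ 2 - 1) := by ring
    have hqR : (q : ℝ) ≤ N / h := by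
      rw [hqdef]
      exact Nat.cast_div_le
    have hGle : G ≤ C₂ * (N / h * (W * (3 * U))) := by
      have h5 := h2 (y ^ 2) (y + y ^ 2) hy2.le (by linarith) hk.le h1 w q hw2 hq
      refine h5.trans ?_
      refine mul_le_mul_of_nonneg_left ?_ (by linarith)
      refine mul_le_mul hqR ?_ (by positivity) (by positivity)
      exact mul_le_mul_of_nonneg_left hpowq hW0.le
    have hS0 : 0 ≤ ∑ h' ∈ Icc 1 h, y ^ om h h' := sum_nonneg fun _ _ => pow_nonneg h0.le _
    calc (1 / (h : ℝ)) * ∑ h' ∈ Icc 1 h,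
          (((Icc 1 q).filter (fun g => g * h ∈ B ∧ g * h' ∈ B)).card : ℝ)
        ≤ (1 / (h : ℝ)) * ∑ h' ∈ Icc 1 h, K * (y ^ om w h * y ^ om h h' * G) :=
          mul_le_mul_of_nonneg_left (sum_le_sum hcard) (by positivity)
      _ = (1 / (h : ℝ)) * (K * (y ^ om w h * (∑ h' ∈ Icc 1 h, y ^ om h h') * G)) := by
          congr 1
          rw [← mul_sum, ← sum_mul, ← mul_sum]
      _ ≤ (1 / (h : ℝ)) * (K * (y ^ om w h * (C₁ * (h * V)) *
            (C₂ * (N / h * (W * (3 * U)))))) := by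
          refine mul_le_mul_of_nonneg_left ?_ (by positivity)
          refine mul_le_mul_of_nonneg_left ?_ hK0.le
          refine mul_le_mul ?_ hGle hG0 (by positivity)
          exact mul_le_mul_of_nonneg_left hsum1 (pow_nonneg h0.le _)
      _ = (3 * C₁ * C₂ * (N * K * (V * (W * U)))) * (y ^ om w h / (h : ℝ)) := by
          field_simp
  have hsumh : ∑ h ∈ Ioc v w, y ^ om w h / (h : ℝ) ≤ C₀ * (3 * Real.log w ^ y) := by
    have h3 : ∑ h ∈ Ioc v w, y ^ om w h / (h : ℝ) ≤ ∑ h ∈ Icc 1 w, y ^ om w h / (h : ℝ) := by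
      refine sum_le_sum_of_subset_of_nonneg ?_ ?_
      · intro h hh
        rw [mem_Ioc] at hh
        rw [mem_Icc]
        omega
      · intro h _ _
        exact div_nonneg (pow_nonneg h0.le _) (Nat.cast_nonneg _)
    refine h3.trans ((hl y h0.le hy1 w (by omega)).trans ?_)
    refine mul_le_mul_of_nonneg_left ?_ (by linarith)
    have h4 : (1 + Real.log w) ^ y ≤ (3 * Real.log w) ^ y := by
      refine Real.rpow_le_rpow (by linarith) ?_ h0.le
      have := levA_log hw2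
      linarith
    refine h4.trans ?_
    rw [Real.mul_rpow (by norm_num) hlw.le]
    refine mul_le_mul_of_nonneg_right ?_ (Real.rpow_nonneg hlw.le _)
    have h5 : (3 : ℝ) ^ y ≤ 3 ^ (1 : ℝ) :=
      Real.rpow_le_rpow_of_exponent_le (by norm_num) hy1
    rwa [Real.rpow_one] at h5
  have hWy : W * Real.log w ^ y = 1 := by
    rw [hW, ← Real.rpow_add hlw]
    have h3 : y ^ 2 - (y + y ^ 2) + y = 0 := by ring
    rw [h3, Real.rpow_zero]
  unfold GS
  calc ∑ h ∈ Ioc v w, (1 / (h : ℝ)) * ∑ h' ∈ Icc 1 h,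
        (((Icc 1 (N / h)).filter (fun g => g * h ∈ B ∧ g * h' ∈ B)).card : ℝ)
      ≤ ∑ h ∈ Ioc v w, (3 * C₁ * C₂ * (N * K * (V * (W * U)))) * (y ^ om w h / (h : ℝ)) :=
        sum_le_sum hone
    _ = (3 * C₁ * C₂ * (N * K * (V * (W * U)))) * ∑ h ∈ Ioc v w, y ^ om w h / (h : ℝ) := by
        rw [mul_sum]
    _ ≤ (3 * C₁ * C₂ * (N * K * (V * (W * U)))) * (C₀ * (3 * Real.log w ^ y)) :=
        mul_le_mul_of_nonneg_left hsumh (by positivity)
    _ = 9 * C₀ * C₁ * C₂ * (N * K * (V * U)) * (W * Real.log w ^ y) := by ring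
    _ = 9 * C₀ * C₁ * C₂ * (N * (y ^ 2 / (y + y ^ 2)) ^ (-X₁) * (y + y ^ 2) ^ (-X₂) *
        (V * U)) := by
        rw [hWy, hK]
        ring

end Pool.Agent.MEN
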