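import Pool.Agent.MEN.Bas

set_option autoImplicit false

/-!
MEN-Sqf. The product of the logarithmic sums for `z` and `1 - z`: every `n ≤ x` is `2 ^ k * (b ^ 2 * s)` with `s` odd and
squarefree, so `1 + log x ≤ 8 ∑_s 1 / s`, and `1 = ∑_{d ∣ s} z ^ om d * (1 - z) ^ om (s / d)`.
-/

namespace Pool.Agent.MEN

open Finset

private noncomputable def zo (z : ℝ) (x : ℕ) : ArithmeticFunction ℝ :=
  ⟨fun n => if n = 0 then 0 else z ^ om x n, if_pos rfl⟩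

private theorem zo_apply (z : ℝ) (x : ℕ) {n : ℕ} (hn : n ≠ 0) : zo z x n = z ^ om x n :=
  if_neg hn

private theorem zo_zero (z : ℝ) (x : ℕ) : zo z x 0 = 0 := (zo z x).map_zero

private theorem zo_mult (z : ℝ) (x : ℕ) : (zo z x).IsMultiplicative := by
  refine ⟨?_, ?_⟩
  · rw [zo_apply z x one_ne_zero, om_one, pow_zero]
  · intro m n _
    by_cases hm : m = 0
    · rw [hm, zero_mul, zo_zero, zero_mul]
    by_cases hn : n = 0
    · rw [hn, mul_zero, zo_zero, mul_zero]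
    rw [zo_apply z x (mul_ne_zero hm hn), zo_apply z x hm, zo_apply z x hn, om_mul x hm hn,
      pow_add]

private noncomputable def sqo (x : ℕ) : Finset ℕ :=
  (Icc 1 x).filter (fun s => Squarefree s ∧ Odd s)

private theorem mem_sqo {x s : ℕ} : s ∈ sqo x ↔ (1 ≤ s ∧ s ≤ x) ∧ Squarefree s ∧ Odd s := by
  rw [sqo, mem_filter, mem_Icc]

private theorem sq_one (z : ℝ) {x s : ℕ} (hs : s ∈ sqo x) :
    ∑ p ∈ s.divisorsAntidiagonal, z ^ om x p.1 * (1 - z) ^ om x p.2 = 1 := by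
  obtain ⟨⟨h1, h2⟩, h3, h4⟩ := mem_sqo.1 hs
  have h5 := ArithmeticFunction.IsMultiplicative.prodPrimeFactors_add_of_squarefree
    (zo_mult z x) (zo_mult (1 - z) x) h3
  rw [ArithmeticFunction.prodPrimeFactors_apply h3.ne_zero, ArithmeticFunction.mul_apply] at h5
  have h6 : ∑ p ∈ s.divisorsAntidiagonal, z ^ om x p.1 * (1 - z) ^ om x p.2 =
      ∑ p ∈ s.divisorsAntidiagonal, zo z x p.1 * zo (1 - z) x p.2 := by
    refine sum_congr rfl fun p hp => ?_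
    have hp' := Nat.mem_divisorsAntidiagonal.1 hp
    have hne : p.1 * p.2 ≠ 0 := by
      rw [hp'.1]
      exact hp'.2
    rw [zo_apply z x (left_ne_zero_of_mul hne), zo_apply (1 - z) x (right_ne_zero_of_mul hne)]
  rw [h6, ← h5]
  refine prod_eq_one fun p hp => ?_
  have hpp := Nat.prime_of_mem_primeFactors hp
  have hps := Nat.dvd_of_mem_primeFactors hp
  have hp2 : p ≠ 2 := by
    rintro rfl
    exact (Nat.not_even_iff_odd.2 h4) (even_iff_two_dvd.2 hps)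
  have hpx : p ≤ x := (Nat.le_of_dvd h1 hps).trans h2
  rw [ArithmeticFunction.add_apply, zo_apply z x hpp.ne_zero, zo_apply (1 - z) x hpp.ne_zero,
    om_prime hpp, if_pos ⟨hp2, hpx⟩, pow_one, pow_one]
  ring

private theorem sq_sum {z : ℝ} (h0 : 0 ≤ z) (h1 : z ≤ 1) (x : ℕ) :
    ∑ s ∈ sqo x, 1 / (s : ℝ) ≤ (∑ n ∈ Icc 1 x, z ^ om x n / (n : ℝ)) *
      ∑ n ∈ Icc 1 x, (1 - z) ^ om x n / (n : ℝ) := by
  classical
  rw [sum_mul_sum, ← sum_product']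
  set F : ℕ × ℕ → ℝ := fun p => z ^ om x p.1 / (p.1 : ℝ) * ((1 - z) ^ om x p.2 / (p.2 : ℝ))
    with hF
  have hF0 : ∀ p, 0 ≤ F p := fun p =>
    mul_nonneg (div_nonneg (pow_nonneg h0 _) (Nat.cast_nonneg _))
      (div_nonneg (pow_nonneg (by linarith) _) (Nat.cast_nonneg _))
  set T : Finset (ℕ × ℕ) := (Icc 1 x ×ˢ Icc 1 x).filter (fun p => p.1 * p.2 ∈ sqo x) with hT
  have e1 : ∀ s ∈ sqo x, 1 / (s : ℝ) = ∑ p ∈ T with p.1 * p.2 = s, F p := by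
    intro s hs
    obtain ⟨⟨g1, g2⟩, g3, g4⟩ := mem_sqo.1 hs
    have e2 : T.filter (fun p => p.1 * p.2 = s) = s.divisorsAntidiagonal := by
      ext ⟨d, e⟩
      rw [hT, mem_filter, mem_filter, mem_product, mem_Icc, mem_Icc,
        Nat.mem_divisorsAntidiagonal]
      constructor
      · rintro ⟨-, h⟩
        exact ⟨h, g3.ne_zero⟩
      · rintro ⟨h, -⟩
        have h' : d * e = s := h
        have hd : d ≠ 0 := by
          rintro rfl
          rw [zero_mul] at h'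
          exact g3.ne_zero h'.symm
        have he : e ≠ 0 := by
          rintro rfl
          rw [mul_zero] at h'
          exact g3.ne_zero h'.symm
        have hds : d ≤ s := by
          rw [← h']
          exact Nat.le_mul_of_pos_right d (Nat.pos_of_ne_zero he)
        have hes : e ≤ s := by
          rw [← h']
          exact Nat.le_mul_of_pos_left e (Nat.pos_of_ne_zero hd)
        exact ⟨⟨⟨⟨Nat.pos_of_ne_zero hd, hds.trans g2⟩, ⟨Nat.pos_of_ne_zero he, hes.trans g2⟩⟩,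
          by rw [h']; exact hs⟩, h⟩
    rw [e2]
    have e3 : ∀ p ∈ s.divisorsAntidiagonal,
        F p = 1 / (s : ℝ) * (z ^ om x p.1 * (1 - z) ^ om x p.2) := by
      intro p hp
      have hp' := (Nat.mem_divisorsAntidiagonal.1 hp).1
      rw [← hp', hF]
      push_cast
      rw [div_mul_div_comm]
      ring
    rw [sum_congr rfl e3, ← mul_sum, sq_one z hs, mul_one]
  rw [sum_congr rfl e1, sum_fiberwise_of_maps_to (s := T) (t := sqo x)
    (g := fun p : ℕ × ℕ => p.1 * p.2) (fun p hp => (mem_filter.1 hp).2) F]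
  exact sum_le_sum_of_subset_of_nonneg (filter_subset _ _) fun p _ _ => hF0 p

private theorem sum_sq_le (x : ℕ) : ∑ b ∈ Icc 1 x, 1 / (b : ℝ) ^ 2 ≤ 2 := by
  have key : ∀ x : ℕ, ∑ b ∈ Icc 1 (x + 1), 1 / (b : ℝ) ^ 2 ≤ 2 - 1 / ((x : ℝ) + 1) := by
    intro x
    induction x with
    | zero => norm_num
    | succ x ih =>
      rw [sum_Icc_succ_top (by omega)]
      have h1 : (0 : ℝ) < (x : ℝ) + 1 := by positivity
      have h2 : 1 / (((x + 1 + 1 : ℕ)) : ℝ) ^ 2 ≤ 1 / ((x : ℝ) + 1) - 1 / ((x : ℝ) + 1 + 1) := by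
        push_cast
        rw [div_sub_div _ _ h1.ne' (by positivity), div_le_div_iff₀ (by positivity) (by positivity)]
        nlinarith
      push_cast at ih h2 ⊢
      linarith
  rcases Nat.eq_zero_or_pos x with h | h
  · subst h
    simp
  · obtain ⟨y, rfl⟩ := Nat.exists_eq_add_of_le' h
    have h1 := key y
    have h2 : (0 : ℝ) ≤ 1 / ((y : ℝ) + 1) := by positivity
    linarith

private theorem decomp {n : ℕ} (hn : 1 ≤ n) : ∃ s k b : ℕ, n = 2 ^ k * (b ^ 2 * s) ∧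
    Squarefree s ∧ Odd s ∧ 1 ≤ s ∧ s ≤ n ∧ k < n ∧ 1 ≤ b ∧ b ≤ n := by
  obtain ⟨k, m, hm, hnm⟩ := Nat.exists_eq_two_pow_mul_odd (n := n) (by omega)
  obtain ⟨s, b, hsb, hsq⟩ := Nat.sq_mul_squarefree m
  have hm0 : 0 < m := hm.pos
  have hs0 : 0 < s := Nat.pos_of_ne_zero hsq.ne_zero
  have hb0 : 0 < b := by
    rcases Nat.eq_zero_or_pos b with h | h
    · rw [h] at hsb
      simp at hsb
      omega
    · exact h
  have h2k : 0 < 2 ^ k := Nat.two_pow_pos k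
  have hmn : m ≤ n := by
    rw [hnm]
    exact Nat.le_mul_of_pos_left m h2k
  have hbm : b ≤ m := by
    rw [← hsb]
    calc b ≤ b ^ 2 := Nat.le_self_pow two_ne_zero b
      _ ≤ b ^ 2 * s := Nat.le_mul_of_pos_right _ hs0
  have hsm : s ≤ m := by
    rw [← hsb]
    exact Nat.le_mul_of_pos_left s (by positivity)
  refine ⟨s, k, b, by rw [hsb]; exact hnm, hsq, ?_, hs0, hsm.trans hmn, ?_, hb0, hbm.trans hmn⟩
  · rw [← hsb] at hm
    exact (Nat.odd_mul.1 hm).2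
  · calc k < 2 ^ k := Nat.lt_two_pow_self
      _ ≤ n := by
        rw [hnm]
        exact Nat.le_mul_of_pos_right _ hm0

private theorem harm_le (x : ℕ) :
    ∑ n ∈ Icc 1 x, 1 / (n : ℝ) ≤ 4 * ∑ s ∈ sqo x, 1 / (s : ℝ) := by
  classical
  have hch : ∀ n : ℕ, ∃ t : ℕ × ℕ × ℕ, n ∈ Icc 1 x → n = 2 ^ t.2.1 * (t.2.2 ^ 2 * t.1) ∧
      t ∈ sqo x ×ˢ (range x ×ˢ Icc 1 x) := by
    intro n
    by_cases hn : n ∈ Icc 1 x
    · obtain ⟨h1, h2⟩ := mem_Icc.1 hn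
      obtain ⟨s, k, b, e1, e2, e3, e4, e5, e6, e7, e8⟩ := decomp h1
      refine ⟨(s, k, b), fun _ => ⟨e1, ?_⟩⟩
      rw [mem_product, mem_product, mem_sqo, mem_range, mem_Icc]
      exact ⟨⟨⟨e4, e5.trans h2⟩, e2, e3⟩, e6.trans_le h2, e7, e8.trans h2⟩
    · exact ⟨(0, 0, 0), fun h => absurd h hn⟩
  choose f hf using hch
  set G : ℕ × ℕ × ℕ → ℝ := fun t => 1 / (t.1 : ℝ) * ((1 / (2 : ℝ)) ^ t.2.1 * (1 / (t.2.2 : ℝ) ^ 2))
    with hG
  have e1 : ∀ n ∈ Icc 1 x, 1 / (n : ℝ) = G (f n) := by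
    intro n hn
    have h1 := (hf n hn).1
    have h2 : (n : ℝ) = 2 ^ (f n).2.1 * (((f n).2.2 : ℝ) ^ 2 * ((f n).1 : ℝ)) := by
      conv_lhs => rw [h1]
      push_cast
      rfl
    rw [h2, hG]
    show 1 / (2 ^ (f n).2.1 * (((f n).2.2 : ℝ) ^ 2 * ((f n).1 : ℝ))) =
      1 / ((f n).1 : ℝ) * ((1 / (2 : ℝ)) ^ (f n).2.1 * (1 / ((f n).2.2 : ℝ) ^ 2))
    rw [one_div_pow, one_div_mul_one_div, one_div_mul_one_div]
    congr 1
    ring
  have hinj : Set.InjOn f (↑(Icc 1 x) : Set ℕ) := by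
    intro n hn n' hn' h
    rw [(hf n (mem_coe.1 hn)).1, (hf n' (mem_coe.1 hn')).1, h]
  rw [sum_congr rfl e1, ← sum_image (f := G) hinj]
  have hG0 : ∀ t, 0 ≤ G t := fun t => by
    rw [hG]
    positivity
  have h2 : ∑ t ∈ (Icc 1 x).image f, G t ≤ ∑ t ∈ sqo x ×ˢ (range x ×ˢ Icc 1 x), G t := by
    refine sum_le_sum_of_subset_of_nonneg ?_ fun t _ _ => hG0 t
    intro t ht
    obtain ⟨n, hn, rfl⟩ := mem_image.1 ht
    exact (hf n hn).2
  have h3 : ∑ t ∈ sqo x ×ˢ (range x ×ˢ Icc 1 x), G t = (∑ s ∈ sqo x, 1 / (s : ℝ)) *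
      ((∑ k ∈ range x, (1 / (2 : ℝ)) ^ k) * ∑ b ∈ Icc 1 x, 1 / (b : ℝ) ^ 2) := by
    rw [sum_mul_sum, ← sum_product', sum_mul_sum, ← sum_product']
  rw [h3] at h2
  have h4 : 0 ≤ ∑ s ∈ sqo x, 1 / (s : ℝ) := sum_nonneg fun _ _ => by positivity
  have h5 := sum_geometric_two_le x
  have h6 := sum_sq_le x
  have h7 : 0 ≤ ∑ b ∈ Icc 1 x, 1 / (b : ℝ) ^ 2 := sum_nonneg fun _ _ => by positivity
  have h8 : (∑ k ∈ range x, (1 / (2 : ℝ)) ^ k) * ∑ b ∈ Icc 1 x, 1 / (b : ℝ) ^ 2 ≤ 2 * 2 :=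
    mul_le_mul h5 h6 h7 (by norm_num)
  calc ∑ t ∈ (Icc 1 x).image f, G t ≤ _ := h2
    _ ≤ (∑ s ∈ sqo x, 1 / (s : ℝ)) * (2 * 2) := mul_le_mul_of_nonneg_left h8 h4
    _ = 4 * ∑ s ∈ sqo x, 1 / (s : ℝ) := by ring

theorem unit_conv {z : ℝ} (h0 : 0 ≤ z) (h1 : z ≤ 1) (x : ℕ) (hx : 1 ≤ x) :
    (1 + Real.log x) / 8 ≤ (∑ n ∈ Icc 1 x, z ^ om x n / (n : ℝ)) *
      ∑ n ∈ Icc 1 x, (1 - z) ^ om x n / (n : ℝ) := by
  refine le_trans ?_ (sq_sum h0 h1 x)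
  have h2 := harm_le x
  have h3 := log_add_one_le_harmonic x
  rw [harmonic_eq_sum_Icc] at h3
  push_cast at h3
  have h4 : Real.log x ≤ Real.log ((x : ℝ) + 1) :=
    Real.log_le_log (by exact_mod_cast hx) (by linarith)
  have h5 : ∑ i ∈ Icc 1 x, ((i : ℝ))⁻¹ = ∑ i ∈ Icc 1 x, 1 / (i : ℝ) :=
    sum_congr rfl fun i _ => (one_div _).symm
  rw [h5] at h3
  have h6 : (1 : ℝ) ≤ ∑ i ∈ Icc 1 x, 1 / (i : ℝ) := by
    have h7 : ∑ i ∈ ({1} : Finset ℕ), 1 / (i : ℝ) ≤ ∑ i ∈ Icc 1 x, 1 / (i : ℝ) := by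
      refine sum_le_sum_of_subset_of_nonneg ?_ fun _ _ _ => by positivity
      intro i hi
      rw [mem_singleton] at hi
      rw [hi, mem_Icc]
      exact ⟨le_rfl, hx⟩
    rw [sum_singleton] at h7
    simpa using h7
  linarith

end Pool.Agent.MEN
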