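import Pool.Agent.MEN.Two
import Pool.Agent.MEN.Sqf
import Pool.Agent.MEN.Cnv

set_option autoImplicit false

/-!
MEN-Low. Lower bounds for the logarithmic sums of `z ^ om x n`: for `z ≤ 1` from the product with
the sum for `1 - z`, for `z ≤ 3` by two convolutions from `z / 4`.
-/

namespace Pool.Agent.MEN

open Finset

theorem logsum_ge01 : ∃ c : ℝ, 0 < c ∧ ∀ z : ℝ, 0 ≤ z → z ≤ 1 → ∀ x : ℕ, 1 ≤ x →
    c * (1 + Real.log x) ^ z ≤ ∑ n ∈ Icc 1 x, z ^ om x n / (n : ℝ) := by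
  obtain ⟨C, hC, h⟩ := one_log (z := 1) (by norm_num)
  have hC0 : 0 < C := lt_of_lt_of_le one_pos hC
  refine ⟨1 / (8 * C), by positivity, fun z h0 h1 x hx => ?_⟩
  have hL : 0 < 1 + Real.log x := by
    have := Real.log_natCast_nonneg x
    linarith
  have h2 := unit_conv h0 h1 x hx
  have h3 := h (1 - z) (by linarith) (by linarith) x hx
  have hS : 0 ≤ ∑ n ∈ Icc 1 x, z ^ om x n / (n : ℝ) :=
    Finset.sum_nonneg fun n _ => div_nonneg (pow_nonneg h0 _) (Nat.cast_nonneg n)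
  have h4 : (1 + Real.log x) / 8 ≤ (∑ n ∈ Icc 1 x, z ^ om x n / (n : ℝ)) *
      (C * (1 + Real.log x) ^ (1 - z)) := h2.trans (mul_le_mul_of_nonneg_left h3 hS)
  have h5 : (1 + Real.log x) ^ z * (1 + Real.log x) ^ (1 - z) = 1 + Real.log x := by
    rw [← Real.rpow_add hL]
    have : z + (1 - z) = 1 := by ring
    rw [this, Real.rpow_one]
  have h6 : 0 < (1 + Real.log x) ^ (1 - z) := Real.rpow_pos_of_pos hL _
  have h7 : 1 / (8 * C) * (1 + Real.log x) ^ z * (C * (1 + Real.log x) ^ (1 - z)) =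
      (1 + Real.log x) / 8 := by
    have h9 : 1 / (8 * C) * (1 + Real.log x) ^ z * (C * (1 + Real.log x) ^ (1 - z)) =
        (1 / (8 * C) * C) * ((1 + Real.log x) ^ z * (1 + Real.log x) ^ (1 - z)) := by ring
    rw [h9, h5]
    field_simp
  have h8 : 1 / (8 * C) * (1 + Real.log x) ^ z * (C * (1 + Real.log x) ^ (1 - z)) ≤
      (∑ n ∈ Icc 1 x, z ^ om x n / (n : ℝ)) * (C * (1 + Real.log x) ^ (1 - z)) := by
    rw [h7]
    exact h4
  exact le_of_mul_le_mul_right h8 (mul_pos hC0 h6)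

private lemma log_sqrt {x : ℕ} (hx : 1 ≤ x) :
    1 ≤ Nat.sqrt x ∧ 1 + Real.log x ≤ 3 * (1 + Real.log (Nat.sqrt x)) := by
  have h1 : 1 ≤ Nat.sqrt x := Nat.sqrt_pos.2 hx
  refine ⟨h1, ?_⟩
  have h2 : x < (Nat.sqrt x + 1) ^ 2 := Nat.lt_succ_sqrt' x
  have h3 : x ≤ 4 * Nat.sqrt x ^ 2 := by
    have h4 : (Nat.sqrt x + 1) ^ 2 ≤ (2 * Nat.sqrt x) ^ 2 := Nat.pow_le_pow_left (by omega) 2
    have h5 : (2 * Nat.sqrt x) ^ 2 = 4 * Nat.sqrt x ^ 2 := by ring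
    omega
  have hs0 : (0 : ℝ) < Nat.sqrt x := by exact_mod_cast h1
  have hx0 : (0 : ℝ) < x := by exact_mod_cast hx
  have h6 : (x : ℝ) ≤ 4 * (Nat.sqrt x : ℝ) ^ 2 := by exact_mod_cast h3
  have h7 : Real.log x ≤ Real.log 4 + 2 * Real.log (Nat.sqrt x) := by
    have h8 := Real.log_le_log hx0 h6
    rw [Real.log_mul (by norm_num) (by positivity), Real.log_pow] at h8
    exact_mod_cast h8
  have h9 : Real.log 4 ≤ 2 := by
    have h10 : (4 : ℝ) = 2 ^ 2 := by norm_num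
    rw [h10, Real.log_pow]
    have := Real.log_two_lt_d9
    push_cast
    linarith
  have h11 : 0 ≤ Real.log (Nat.sqrt x) := Real.log_natCast_nonneg _
  linarith

private lemma sum_mono {u : ℝ} (hu : 0 ≤ u) {y x : ℕ} (h : y ≤ x) :
    ∑ n ∈ Icc 1 y, u ^ om y n / (n : ℝ) ≤ ∑ n ∈ Icc 1 x, u ^ om x n / (n : ℝ) := by
  have h1 : ∑ n ∈ Icc 1 y, u ^ om y n / (n : ℝ) = ∑ n ∈ Icc 1 y, u ^ om x n / (n : ℝ) := by
    apply Finset.sum_congr rfl
    intro n hn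
    have hn2 := (Finset.mem_Icc.1 hn).2
    rw [om_eq hn2 (hn2.trans h)]
  rw [h1]
  exact Finset.sum_le_sum_of_subset_of_nonneg (Finset.Icc_subset_Icc_right h)
    fun n _ _ => div_nonneg (pow_nonneg hu _) (Nat.cast_nonneg n)

theorem logsum_ge {z : ℝ} (h0 : 0 ≤ z) (h3 : z ≤ 3) : ∃ c : ℝ, 0 < c ∧ ∀ x : ℕ, 1 ≤ x →
    c * (1 + Real.log x) ^ z ≤ ∑ n ∈ Icc 1 x, z ^ om x n / (n : ℝ) := by
  obtain ⟨c, hc, h⟩ := logsum_ge01
  refine ⟨(c ^ 4 / 64) * (1 / 9) ^ z, by positivity, fun x hx => ?_⟩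
  obtain ⟨hs1, hs2⟩ := log_sqrt hx
  obtain ⟨hy1, hy2⟩ := log_sqrt hs1
  set s := Nat.sqrt x with hs
  set y := Nat.sqrt s with hy
  have hss : s ^ 2 ≤ x := Nat.sqrt_le' x
  have hyy : y ^ 2 ≤ s := Nat.sqrt_le' s
  have hz4 : 0 ≤ z / 4 := by linarith
  have hz2 : 0 ≤ z / 2 := by linarith
  have e1 := conv_le hz4 hz4 y
  have e2 := conv_le hz2 hz2 s
  have a1 : z / 4 + z / 4 = z / 2 := by ring
  have a2 : z / 2 + z / 2 = z := by ring
  rw [a1] at e1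
  rw [a2] at e2
  have e3 := sum_mono hz2 hyy
  have e4 := sum_mono h0 hss
  have e5 := h (z / 4) hz4 (by linarith) y hy1
  set F := ∑ n ∈ Icc 1 y, (z / 4) ^ om y n / (n : ℝ) with hF
  set G := ∑ n ∈ Icc 1 s, (z / 2) ^ om s n / (n : ℝ) with hG
  have hLy : 0 < 1 + Real.log y := by
    have := Real.log_natCast_nonneg y
    linarith
  have hLx : 0 ≤ 1 + Real.log x := by
    have := Real.log_natCast_nonneg x
    linarith
  have hF0 : 0 ≤ c * (1 + Real.log y) ^ (z / 4) := by positivity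
  have hFF : (c * (1 + Real.log y) ^ (z / 4)) ^ 2 ≤ F * F := by
    rw [sq]
    exact mul_le_mul e5 e5 hF0 (hF0.trans e5)
  have hG1 : (c * (1 + Real.log y) ^ (z / 4)) ^ 2 / 4 ≤ G := by linarith
  have hG0 : 0 ≤ (c * (1 + Real.log y) ^ (z / 4)) ^ 2 / 4 := by positivity
  have hGG : ((c * (1 + Real.log y) ^ (z / 4)) ^ 2 / 4) ^ 2 ≤ G * G := by
    rw [sq]
    exact mul_le_mul hG1 hG1 hG0 (hG0.trans hG1)
  have hfin : ((c * (1 + Real.log y) ^ (z / 4)) ^ 2 / 4) ^ 2 / 4 ≤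
      ∑ n ∈ Icc 1 x, z ^ om x n / (n : ℝ) := by linarith
  refine le_trans ?_ hfin
  have h4 : ((1 + Real.log y) ^ (z / 4)) ^ 4 = (1 + Real.log y) ^ z := by
    rw [← Real.rpow_natCast, ← Real.rpow_mul hLy.le]
    congr 1
    push_cast
    ring
  have h5 : ((c * (1 + Real.log y) ^ (z / 4)) ^ 2 / 4) ^ 2 / 4 =
      c ^ 4 / 64 * ((1 + Real.log y) ^ (z / 4)) ^ 4 := by ring
  rw [h5, h4, mul_assoc]
  apply mul_le_mul_of_nonneg_left _ (by positivity)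
  rw [← Real.mul_rpow (by norm_num) hLx]
  apply Real.rpow_le_rpow (by positivity) _ h0
  linarith

end Pool.Agent.MEN
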