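import Pool.Agent.MEN.Bas

set_option autoImplicit false

/-!
MEN-Lsu. Upper bound for the logarithmic sums of a completely multiplicative weight `g` with
`g 2 ≤ 1` and `g p ≤ z < 3`: Euler product over the primes up to `x`, each factor
`(1 - t)⁻¹ ≤ exp (t + t ^ 2 / (1 - t₀))` with `t = g p / p ≤ t₀ = max (1/2) (z / 3)`.
-/

namespace Pool.Agent.MEN

open Finset
open Helper52 (pr)

private noncomputable def wtHom (g : ℕ → ℝ) : ℕ →* ℝ where
  toFun n := wt g n / n
  map_one' := by simp [wt_one]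
  map_mul' m n := by
    by_cases hm : m = 0
    · simp [hm]
    by_cases hn : n = 0
    · simp [hn]
    rw [wt_mul g hm hn]
    push_cast
    field_simp

private theorem wtHom_apply (g : ℕ → ℝ) (n : ℕ) : wtHom g n = wt g n / n := rfl

private theorem inv_le_exp {t t₀ : ℝ} (h1 : t ≤ t₀) (h2 : t₀ < 1) :
    (1 - t)⁻¹ ≤ Real.exp (t + t ^ 2 / (1 - t₀)) := by
  have h3 : 0 < 1 - t := by linarith
  have h4 : 0 < 1 - t₀ := by linarith
  have h5 : (1 - t)⁻¹ = t + t ^ 2 / (1 - t) + 1 := by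
    field_simp
    ring
  have h6 : t ^ 2 / (1 - t) ≤ t ^ 2 / (1 - t₀) := by
    apply div_le_div_of_nonneg_left (by positivity) h4 (by linarith)
  rw [h5]
  refine le_trans ?_ (Real.add_one_le_exp _)
  linarith

private theorem sum_sq_le (x : ℕ) : ∑ n ∈ Icc 1 x, 1 / (n : ℝ) ^ 2 ≤ 2 - 1 / (x : ℝ) := by
  induction x with
  | zero => simp
  | succ x ih =>
    rw [Finset.sum_Icc_succ_top (by omega)]
    push_cast
    rcases Nat.eq_zero_or_pos x with h | h
    · subst h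
      norm_num
    · have h1 : (0 : ℝ) < (x : ℝ) := by exact_mod_cast h
      have h2 : 1 / ((x : ℝ) + 1) ^ 2 ≤ 1 / (x : ℝ) - 1 / ((x : ℝ) + 1) := by
        rw [div_sub_div _ _ h1.ne' (by positivity), div_le_div_iff₀ (by positivity) (by positivity)]
        nlinarith
      linarith

private theorem primesBelow_eq (x : ℕ) : (x + 1).primesBelow = pr 0 x := by
  ext p
  rw [Helper52.mem_pr, Nat.mem_primesBelow]
  constructor
  · rintro ⟨h1, h2⟩
    exact ⟨h2.pos, by omega, h2⟩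
  · rintro ⟨_, h1, h2⟩
    exact ⟨by omega, h2⟩

theorem logsum_le {z : ℝ} (hz : z < 3) : ∃ C : ℝ, 1 ≤ C ∧ ∀ g : ℕ → ℝ, (∀ p, 0 ≤ g p) →
    g 2 ≤ 1 → (∀ p, g p ≤ z) → ∀ x : ℕ,
    ∑ n ∈ Icc 1 x, wt g n / (n : ℝ) ≤ C * Real.exp (∑ p ∈ pr 0 x, g p / (p : ℝ)) := by
  set t₀ : ℝ := max (1 / 2) (z / 3) with ht₀
  have ht1 : t₀ < 1 := max_lt (by norm_num) (by linarith)
  have ht2 : 0 < 1 - t₀ := by linarith
  refine ⟨Real.exp (18 / (1 - t₀)), Real.one_le_exp (by positivity), ?_⟩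
  intro g hg0 hg2 hgz x
  have hz0 : 0 ≤ z := (hg0 0).trans (hgz 0)
  have hle : ∀ {p : ℕ}, p.Prime → g p / p ≤ t₀ := by
    intro p hp
    rcases hp.two_le.eq_or_lt with h | h
    · subst h
      refine le_trans ?_ (le_max_left _ _)
      push_cast
      linarith
    · refine le_trans ?_ (le_max_right _ _)
      have h3 : (3 : ℝ) ≤ p := by exact_mod_cast h
      exact div_le_div₀ hz0 (hgz p) (by norm_num) h3
  have hval : ∀ {p : ℕ}, p.Prime → wtHom g p = g p / p := by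
    intro p hp
    rw [wtHom_apply, wt_prime g hp]
  have hprime : ∀ {p : ℕ}, p.Prime → ‖wtHom g p‖ < 1 := by
    intro p hp
    have := hg0 p
    rw [hval hp, Real.norm_of_nonneg (by positivity)]
    exact (hle hp).trans_lt ht1
  have h1 := EulerProduct.summable_and_hasSum_smoothNumbers_prod_primesBelow_geometric
    (f := wtHom g) hprime (x + 1)
  have h2 : ∑ n ∈ Icc 1 x, wt g n / (n : ℝ) ≤
      ∏ p ∈ (x + 1).primesBelow, (1 - wtHom g p)⁻¹ := by
    rw [← h1.2.tsum_eq]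
    have hinj : Function.Injective (fun n : {n // n ∈ Icc 1 x} =>
        (⟨n.1, by
          have := mem_Icc.1 n.2
          exact Nat.mem_smoothNumbers_of_lt (by omega) (by omega)⟩ : (x + 1).smoothNumbers)) := by
      intro a b hab
      simp only [Subtype.mk.injEq] at hab
      exact Subtype.ext hab
    have h3 : ∑ n ∈ Icc 1 x, wt g n / (n : ℝ) =
        ∑ n : {n // n ∈ Icc 1 x}, wtHom g n.1 := by
      rw [← Finset.sum_coe_sort (Icc 1 x)]
      rfl
    rw [h3]
    have h4 := h1.1.of_norm.sum_le_tsum ((univ : Finset {n // n ∈ Icc 1 x}).image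
      (fun n : {n // n ∈ Icc 1 x} =>
        (⟨n.1, by
          have := mem_Icc.1 n.2
          exact Nat.mem_smoothNumbers_of_lt (by omega) (by omega)⟩ : (x + 1).smoothNumbers)))
      (fun i _ => by
        rw [wtHom_apply]
        have := wt_nonneg hg0 i.1
        positivity)
    rw [sum_image (fun a _ b _ h => hinj h)] at h4
    exact h4
  refine h2.trans ?_
  rw [primesBelow_eq]
  have h5 : ∀ p ∈ pr 0 x, (1 - wtHom g p)⁻¹ ≤
      Real.exp (g p / p + 9 * (1 / (p : ℝ) ^ 2) / (1 - t₀)) := by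
    intro p hp
    have hpp := (Helper52.mem_pr.1 hp).2.2
    have hp0 : (0 : ℝ) < p := by exact_mod_cast hpp.pos
    have := hg0 p
    rw [hval hpp]
    refine (inv_le_exp (hle hpp) ht1).trans ?_
    rw [Real.exp_le_exp]
    have h6 : (g p / p) ^ 2 ≤ 9 * (1 / (p : ℝ) ^ 2) := by
      rw [div_pow, mul_one_div]
      have : g p ^ 2 ≤ 9 := by nlinarith [hgz p]
      gcongr
    have h7 : (g p / p) ^ 2 / (1 - t₀) ≤ 9 * (1 / (p : ℝ) ^ 2) / (1 - t₀) := by
      gcongr
    linarith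
  have h6 : ∏ p ∈ pr 0 x, (1 - wtHom g p)⁻¹ ≤
      ∏ p ∈ pr 0 x, Real.exp (g p / p + 9 * (1 / (p : ℝ) ^ 2) / (1 - t₀)) := by
    refine prod_le_prod (fun p hp => ?_) h5
    have := hprime (Helper52.mem_pr.1 hp).2.2
    rw [Real.norm_eq_abs, abs_lt] at this
    have : 0 < 1 - wtHom g p := by linarith
    positivity
  refine h6.trans ?_
  rw [← Real.exp_sum, sum_add_distrib, Real.exp_add, mul_comm]
  refine mul_le_mul_of_nonneg_right ?_ (Real.exp_pos _).le
  rw [Real.exp_le_exp, ← sum_div, ← mul_sum]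
  have h7 : ∑ p ∈ pr 0 x, 1 / (p : ℝ) ^ 2 ≤ 2 := by
    have h8 : ∑ p ∈ pr 0 x, 1 / (p : ℝ) ^ 2 ≤ ∑ n ∈ Icc 1 x, 1 / (n : ℝ) ^ 2 := by
      refine sum_le_sum_of_subset_of_nonneg ?_ fun _ _ _ => by positivity
      intro p hp
      rw [Helper52.mem_pr] at hp
      rw [mem_Icc]
      exact ⟨hp.1, hp.2.1⟩
    have h9 := sum_sq_le x
    have h10 : (0 : ℝ) ≤ 1 / (x : ℝ) := by positivity
    linarith
  gcongr
  linarith

end Pool.Agent.MEN
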