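import Pool.Agent.MEN.Elow
import Pool.Agent.MEN.Ant
import Pool.Agent.MEN.Ana

set_option autoImplicit false

/-!
MEN-Nec. Necessity: the lower bound for the energy of a set of given density, compared with the
upper bound of an attained pair.
-/

namespace Pool.Agent.MEN

open Finset

private theorem half_card {B D : Finset ℕ} {t : ℝ} (hD : (D.card : ℝ) ≤ t / 2)
    (hB : t ≤ (B.card : ℝ)) : (B.card : ℝ) / 2 ≤ ((B \ D).card : ℝ) := by
  have h1 : B.card ≤ (B \ D).card + D.card := by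
    have h2 := Finset.card_le_card (show B ⊆ (B \ D) ∪ D from fun x hx => by
      by_cases h : x ∈ D
      · exact Finset.mem_union_right _ h
      · exact Finset.mem_union_left _ (Finset.mem_sdiff.2 ⟨hx, h⟩))
    exact h2.trans (Finset.card_union_le _ _)
  have h3 : (B.card : ℝ) ≤ (B \ D).card + D.card := by exact_mod_cast h1
  linarith

private theorem main_step {y : ℝ} (h0 : 0 < y) (h1 : y + y ^ 2 < 1) : ∃ c : ℝ, 0 < c ∧
    ∀ c₁ : ℝ, 0 < c₁ → ∀ (B : ℕ → Finset ℕ) (N₁ : ℕ),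
    (∀ N : ℕ, N₁ ≤ N → B N ⊆ Icc 1 N ∧ c₁ * (N * Real.log N ^ (-A y)) ≤ ((B N).card : ℝ)) →
    ∀ M : ℝ, ∃ N₀ : ℕ, ∀ N : ℕ, N₀ ≤ N →
      c * ((1 + y) ^ (2 * M) * ((B N).card : ℝ) ^ 2 * Real.log N ^ S y) ≤
        (energy (B N) N : ℝ) := by
  obtain ⟨c, hc, Na, hNa⟩ := energy_ge h0 h1.le
  refine ⟨c / 4, by positivity, fun c₁ hc₁ B N₁ hB M => ?_⟩
  obtain ⟨Nb, hNb⟩ := anti (κ := y + y ^ 2) (by positivity) h1 M (ε := c₁ / 2) (by positivity)
  refine ⟨max (max Na Nb) (max N₁ 3), fun N hN => ?_⟩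
  have hN1 : Na ≤ N := le_trans (le_trans (le_max_left _ _) (le_max_left _ _)) hN
  have hN2 : Nb ≤ N := le_trans (le_trans (le_max_right _ _) (le_max_left _ _)) hN
  have hN3 : N₁ ≤ N := le_trans (le_trans (le_max_left _ _) (le_max_right _ _)) hN
  have hN4 : 3 ≤ N := le_trans (le_trans (le_max_right _ _) (le_max_right _ _)) hN
  obtain ⟨hsub, hcard⟩ := hB N hN3
  have hlog : 0 < Real.log N := Real.log_pos (by exact_mod_cast (show 1 < N by omega))
  have hE := hNa N hN1 (B N) hsub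
  have hD := hNb N hN2
  have hA : (y + y ^ 2) * Real.log (y + y ^ 2) - (y + y ^ 2) + 1 = A y := rfl
  rw [hA] at hD
  set D := (Icc 1 N).filter (fun n => (om N n : ℝ) ≤ (y + y ^ 2) * LL N + M) with hDd
  have hG := half_card (B := B N) (D := D) (t := c₁ * (N * Real.log N ^ (-A y)))
    (by linarith) hcard
  have hpos : (0 : ℝ) < 1 + y := by linarith
  have hsum : ((B N).card : ℝ) / 2 * (1 + y) ^ ((y + y ^ 2) * LL N + M) ≤
      ∑ a ∈ B N, (1 + y) ^ om N a := by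
    calc ((B N).card : ℝ) / 2 * (1 + y) ^ ((y + y ^ 2) * LL N + M)
        ≤ ((B N \ D).card : ℝ) * (1 + y) ^ ((y + y ^ 2) * LL N + M) :=
          mul_le_mul_of_nonneg_right hG (Real.rpow_nonneg hpos.le _)
      _ = ∑ _a ∈ B N \ D, (1 + y) ^ ((y + y ^ 2) * LL N + M) := by
          rw [Finset.sum_const, nsmul_eq_mul]
      _ ≤ ∑ a ∈ B N \ D, (1 + y) ^ om N a := by
          refine Finset.sum_le_sum fun a ha => ?_
          rw [Finset.mem_sdiff] at ha
          have h2 : (y + y ^ 2) * LL N + M < (om N a : ℝ) := by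
            by_contra hcon
            exact ha.2 (Finset.mem_filter.2 ⟨hsub ha.1, not_lt.1 hcon⟩)
          rw [← Real.rpow_natCast (1 + y) (om N a)]
          exact Real.rpow_le_rpow_of_exponent_le (show (1 : ℝ) ≤ 1 + y by linarith) h2.le
      _ ≤ ∑ a ∈ B N, (1 + y) ^ om N a :=
          Finset.sum_le_sum_of_subset_of_nonneg Finset.sdiff_subset
            (fun a _ _ => pow_nonneg hpos.le _)
  have hsq := pow_le_pow_left₀ (by positivity) hsum 2
  have h3 : (((B N).card : ℝ) / 2 * (1 + y) ^ ((y + y ^ 2) * LL N + M)) ^ 2 =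
      ((B N).card : ℝ) ^ 2 / 4 * ((1 + y) ^ (2 * M) *
        Real.log N ^ (2 * (y + y ^ 2) * Real.log (1 + y))) := by
    have e1 : ((1 + y) ^ ((y + y ^ 2) * LL N + M)) ^ 2 =
        (1 + y) ^ (2 * M) * Real.log N ^ (2 * (y + y ^ 2) * Real.log (1 + y)) := by
      rw [Real.rpow_def_of_pos hpos, Real.rpow_def_of_pos hpos, Real.rpow_def_of_pos hlog,
        ← Real.exp_nat_mul, ← Real.exp_add]
      congr 1
      unfold LL
      push_cast
      ring
    rw [mul_pow, e1]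
    ring
  rw [h3] at hsq
  have h4 : Real.log N ^ (2 * (y + y ^ 2) * Real.log (1 + y)) * Real.log N ^ (-(y ^ 2)) =
      Real.log N ^ S y := by
    rw [← Real.rpow_add hlog]
    congr 1
  calc c / 4 * ((1 + y) ^ (2 * M) * ((B N).card : ℝ) ^ 2 * Real.log N ^ S y)
      = c * (((B N).card : ℝ) ^ 2 / 4 * ((1 + y) ^ (2 * M) *
        Real.log N ^ (2 * (y + y ^ 2) * Real.log (1 + y))) * Real.log N ^ (-(y ^ 2))) := by
        rw [← h4]; ring
    _ ≤ c * ((∑ a ∈ B N, (1 + y) ^ om N a) ^ 2 * Real.log N ^ (-(y ^ 2))) :=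
        mul_le_mul_of_nonneg_left (mul_le_mul_of_nonneg_right hsq
          (Real.rpow_nonneg hlog.le _)) hc.le
    _ ≤ (energy (B N) N : ℝ) := hE

private theorem finish {c c₁ P n N L s a β E K : ℝ} (hc : 0 < c) (hP : 0 < P)
    (hn : 0 < n) (hN : 0 < N) (hL : 0 < L) (h1 : c * (P * n ^ 2 * L ^ s) ≤ E)
    (h2 : E ≤ K * (N * n * L ^ β)) (h3 : c₁ * (N * L ^ (-a)) ≤ n) :
    c * c₁ * P * L ^ (s - a - β) ≤ K := by
  have hLs : 0 < L ^ s := Real.rpow_pos_of_pos hL _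
  have hLb : 0 < L ^ β := Real.rpow_pos_of_pos hL _
  have h4 : n * (c * P * n * L ^ s) ≤ n * (K * N * L ^ β) := by
    calc n * (c * P * n * L ^ s) = c * (P * n ^ 2 * L ^ s) := by ring
      _ ≤ K * (N * n * L ^ β) := h1.trans h2
      _ = n * (K * N * L ^ β) := by ring
  have h5 : c * P * n * L ^ s ≤ K * N * L ^ β := le_of_mul_le_mul_left h4 hn
  have h6 : c * P * L ^ s * (c₁ * (N * L ^ (-a))) ≤ c * P * L ^ s * n :=
    mul_le_mul_of_nonneg_left h3 (by positivity)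
  have h7 : L ^ (s - a - β) * L ^ β = L ^ s * L ^ (-a) := by
    rw [← Real.rpow_add hL, ← Real.rpow_add hL]
    congr 1
    ring
  have h8 : (N * L ^ β) * (c * c₁ * P * L ^ (s - a - β)) ≤ (N * L ^ β) * K := by
    calc (N * L ^ β) * (c * c₁ * P * L ^ (s - a - β))
        = N * c * c₁ * P * (L ^ (s - a - β) * L ^ β) := by ring
      _ = c * P * L ^ s * (c₁ * (N * L ^ (-a))) := by rw [h7]; ring
      _ ≤ c * P * L ^ s * n := h6
      _ = c * P * n * L ^ s := by ring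
      _ ≤ K * N * L ^ β := h5
      _ = (N * L ^ β) * K := by ring
  exact le_of_mul_le_mul_left h8 (by positivity)

private theorem log_ge_one {N : ℕ} (hN : 3 ≤ N) : 1 ≤ Real.log N := by
  have h3 : (3 : ℝ) ≤ N := by exact_mod_cast hN
  rw [Real.le_log_iff_exp_le (by linarith)]
  linarith [Real.exp_one_lt_d9]

theorem nec_lt {y : ℝ} (h0 : 0 < y) (h1 : y + y ^ 2 < 1) {β : ℝ} (h : Attained (A y) β) :
    S y < A y + β := by
  by_contra hcon
  push Not at hcon
  obtain ⟨B, N₁, c₁, C, K, hc₁, hB⟩ := h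
  obtain ⟨c, hc, hmain⟩ := main_step h0 h1
  obtain ⟨m, hm⟩ := pow_unbounded_of_one_lt (K / (c * c₁)) (show (1 : ℝ) < 1 + y by linarith)
  obtain ⟨N₂, hN₂⟩ := hmain c₁ hc₁ B N₁ (fun N hN => ⟨(hB N hN).1, (hB N hN).2.1⟩) ((m : ℝ) / 2)
  set N := max (max N₁ N₂) 3 with hNd
  have hN1 : N₁ ≤ N := (le_max_left _ _).trans (le_max_left _ _)
  have hN2 : N₂ ≤ N := (le_max_right _ _).trans (le_max_left _ _)
  have hN3 : 3 ≤ N := le_max_right _ _
  obtain ⟨-, hb1, -, hb2⟩ := hB N hN1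
  have hL1 := log_ge_one hN3
  have hL : 0 < Real.log N := by linarith
  have hNp : (0 : ℝ) < N := by
    have : (3 : ℝ) ≤ N := by exact_mod_cast hN3
    linarith
  have hn : (0 : ℝ) < (B N).card := lt_of_lt_of_le (by positivity) hb1
  have hpow : (1 + y) ^ (2 * ((m : ℝ) / 2)) = (1 + y) ^ m := by
    rw [show 2 * ((m : ℝ) / 2) = (m : ℝ) by ring, Real.rpow_natCast]
  have hk := hN₂ N hN2
  rw [hpow] at hk
  have hfin := finish (c := c) (c₁ := c₁) (P := (1 + y) ^ m) (n := ((B N).card : ℝ)) (N := (N : ℝ))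
    (L := Real.log N) (s := S y) (a := A y) (β := β) (E := (energy (B N) N : ℝ)) (K := K)
    hc (by positivity) hn hNp hL hk hb2 hb1
  have h5 : 1 ≤ Real.log N ^ (S y - A y - β) := Real.one_le_rpow hL1 (by linarith)
  rw [div_lt_iff₀ (by positivity)] at hm
  have h6 : c * c₁ * (1 + y) ^ m * 1 ≤ c * c₁ * (1 + y) ^ m * Real.log N ^ (S y - A y - β) :=
    mul_le_mul_of_nonneg_left h5 (by positivity)
  nlinarith

theorem nec_zero {y : ℝ} (h0 : 0 < y) (h1 : y + y ^ 2 = 1) {β : ℝ} (h : Attained 0 β) :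
    S y ≤ β := by
  by_contra hcon
  push Not at hcon
  obtain ⟨B, N₁, c₁, C, K, hc₁, hB⟩ := h
  have hev : ∀ᶠ z in nhdsWithin y (Set.Iio y), β < S z ∧ 0 < z :=
    ((S_cont h0).tendsto.mono_left nhdsWithin_le_nhds).eventually_const_lt hcon |>.and
      (mem_nhdsWithin_of_mem_nhds (Ioi_mem_nhds h0))
  obtain ⟨z, ⟨hz1, hz2⟩, hz3⟩ := (hev.and self_mem_nhdsWithin).exists
  have hz4 : z + z ^ 2 < 1 := by nlinarith
  have hAz := A_pos hz2 hz4
  obtain ⟨c, hc, hmain⟩ := main_step hz2 hz4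
  have hcard : ∀ N : ℕ, max N₁ 3 ≤ N → B N ⊆ Icc 1 N ∧
      c₁ * (N * Real.log N ^ (-A z)) ≤ ((B N).card : ℝ) := by
    intro N hN
    obtain ⟨hs, hb1, -, -⟩ := hB N ((le_max_left _ _).trans hN)
    refine ⟨hs, le_trans ?_ hb1⟩
    have hL1 := log_ge_one ((le_max_right _ _).trans hN)
    rw [neg_zero, Real.rpow_zero]
    have h5 : Real.log N ^ (-A z) ≤ 1 := Real.rpow_le_one_of_one_le_of_nonpos hL1 (by linarith)
    exact mul_le_mul_of_nonneg_left (mul_le_mul_of_nonneg_left h5 (Nat.cast_nonneg _)) hc₁.le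
  obtain ⟨N₂, hN₂⟩ := hmain c₁ hc₁ B _ hcard 0
  have htend : Filter.Tendsto (fun N : ℕ => Real.log N ^ (S z - β)) Filter.atTop Filter.atTop :=
    (tendsto_rpow_atTop (by linarith)).comp
      (Real.tendsto_log_atTop.comp tendsto_natCast_atTop_atTop)
  obtain ⟨N₃, hN₃⟩ := Filter.eventually_atTop.1 (htend.eventually_gt_atTop (K / (c * c₁)))
  set N := max (max N₁ N₂) (max N₃ 3) with hNd
  have hN1 : N₁ ≤ N := (le_max_left _ _).trans (le_max_left _ _)
  have hN2 : N₂ ≤ N := (le_max_right _ _).trans (le_max_left _ _)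
  have hN4 : N₃ ≤ N := (le_max_left _ _).trans (le_max_right _ _)
  have hN3 : 3 ≤ N := (le_max_right _ _).trans (le_max_right _ _)
  obtain ⟨-, hb1, -, hb2⟩ := hB N hN1
  have hL1 := log_ge_one hN3
  have hL : 0 < Real.log N := by linarith
  have hNp : (0 : ℝ) < N := by
    have : (3 : ℝ) ≤ N := by exact_mod_cast hN3
    linarith
  have hn : (0 : ℝ) < (B N).card := lt_of_lt_of_le (by positivity) hb1
  have hk := hN₂ N hN2
  rw [mul_zero, Real.rpow_zero] at hk
  have hfin := finish (c := c) (c₁ := c₁) (P := 1) (n := ((B N).card : ℝ)) (N := (N : ℝ))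
    (L := Real.log N) (s := S z) (a := 0) (β := β) (E := (energy (B N) N : ℝ)) (K := K)
    hc one_pos hn hNp hL hk hb2 hb1
  rw [sub_zero, mul_one] at hfin
  have h6 := hN₃ N hN4
  rw [div_lt_iff₀ (by positivity)] at h6
  nlinarith

end Pool.Agent.MEN
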