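import Mathlib

set_option autoImplicit false

/-!
MEN-Poi. The largest Poisson weight tends to zero: large indices by Stirling's bound, small indices
because powers are negligible against the exponential function.
-/

namespace Pool.Agent.MEN

private theorem pow_le {l : ℝ} (hl : 0 < l) {k : ℕ} (hk : 0 < k) :
    l ^ k ≤ Real.exp l * ((k : ℝ) / Real.exp 1) ^ k := by
  have hk' : (0 : ℝ) < k := by exact_mod_cast hk
  have he : (0 : ℝ) < Real.exp 1 := Real.exp_pos 1
  have h1 : l / k * Real.exp 1 ≤ Real.exp (l / k) := by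
    have h := Real.add_one_le_exp (l / k - 1)
    rw [sub_add_cancel, Real.exp_sub, le_div_iff₀ he] at h
    exact h
  have h2 : (l / k * Real.exp 1) ^ k ≤ Real.exp l := by
    have h3 : Real.exp l = Real.exp (l / k) ^ k := by
      rw [← Real.exp_nat_mul]
      congr 1
      field_simp
    rw [h3]
    exact pow_le_pow_left₀ (by positivity) h1 k
  have h4 : l ^ k = (l / k * Real.exp 1) ^ k * ((k : ℝ) / Real.exp 1) ^ k := by
    rw [← mul_pow]
    congr 1
    field_simp
  rw [h4]
  exact mul_le_mul_of_nonneg_right h2 (by positivity)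

theorem poisson_small {ε : ℝ} (hε : 0 < ε) : ∃ Λ : ℝ, 0 < Λ ∧ ∀ l : ℝ, Λ ≤ l → ∀ k : ℕ,
    l ^ k / (k.factorial : ℝ) ≤ ε * Real.exp l := by
  obtain ⟨K, hK⟩ := exists_nat_gt (1 / ε ^ 2)
  have hlo := (Real.isLittleO_pow_exp_atTop (n := K)).def hε
  obtain ⟨Λ, hΛ⟩ := Filter.eventually_atTop.1 hlo
  refine ⟨max Λ 1, lt_of_lt_of_le one_pos (le_max_right _ _), ?_⟩
  intro l hl k
  have hl1 : (1 : ℝ) ≤ l := (le_max_right _ _).trans hl
  have hl0 : (0 : ℝ) < l := lt_of_lt_of_le one_pos hl1
  have hf : (0 : ℝ) < (k.factorial : ℝ) := by exact_mod_cast k.factorial_pos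
  rw [div_le_iff₀ hf]
  by_cases hk : K ≤ k
  · have hK0 : 0 < K := by
      by_contra h0
      have : K = 0 := by omega
      rw [this, Nat.cast_zero] at hK
      exact absurd hK (not_lt.2 (by positivity))
    have hk0 : 0 < k := lt_of_lt_of_le hK0 hk
    have hkr : (1 : ℝ) / ε ^ 2 ≤ k := hK.le.trans (by exact_mod_cast hk)
    have h1 := pow_le hl0 hk0
    have h2 := Stirling.le_factorial_stirling k
    have h3 : 1 ≤ ε * √(2 * Real.pi * k) := by
      have h4 : 1 / ε ≤ √(2 * Real.pi * k) := by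
        apply Real.le_sqrt_of_sq_le
        rw [div_pow, one_pow]
        refine hkr.trans ?_
        have h5 : (1 : ℝ) ≤ 2 * Real.pi := by linarith [Real.pi_gt_three]
        have h6 : (0 : ℝ) ≤ k := Nat.cast_nonneg k
        nlinarith
      rw [div_le_iff₀ hε] at h4
      linarith
    have h7 : (0 : ℝ) ≤ ((k : ℝ) / Real.exp 1) ^ k := by positivity
    calc l ^ k ≤ Real.exp l * ((k : ℝ) / Real.exp 1) ^ k := h1
      _ ≤ Real.exp l * (ε * √(2 * Real.pi * k) * ((k : ℝ) / Real.exp 1) ^ k) := by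
          apply mul_le_mul_of_nonneg_left _ (Real.exp_pos l).le
          nlinarith
      _ = ε * Real.exp l * (√(2 * Real.pi * k) * ((k : ℝ) / Real.exp 1) ^ k) := by ring
      _ ≤ ε * Real.exp l * (k.factorial : ℝ) := by
          apply mul_le_mul_of_nonneg_left h2
          positivity
  · have hk' : k ≤ K := by omega
    have h1 : l ^ k ≤ l ^ K := pow_le_pow_right₀ hl1 hk'
    have h2 := hΛ l ((le_max_left _ _).trans hl)
    rw [Real.norm_of_nonneg (by positivity), Real.norm_of_nonneg (Real.exp_pos l).le] at h2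
    have h3 : (1 : ℝ) ≤ (k.factorial : ℝ) := by exact_mod_cast Nat.one_le_iff_ne_zero.2 (Nat.factorial_ne_zero k)
    calc l ^ k ≤ ε * Real.exp l := h1.trans h2
      _ = ε * Real.exp l * 1 := (mul_one _).symm
      _ ≤ ε * Real.exp l * (k.factorial : ℝ) := by
          apply mul_le_mul_of_nonneg_left h3
          positivity

end Pool.Agent.MEN
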