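import Pool.Agent.MEN.Two

set_option autoImplicit false

/-!
MEN-Rs. Two sums with logarithmic factors: dyadic blocks, `one_sum` on each block, and the discrete beta sum
`∑ (1 + k) ^ (t - 1) * (1 + K - k) ^ (y - 1) ≤ C (1 + K) ^ (t + y - 1)`.
-/

namespace Pool.Agent.MEN

open Finset

private lemma tele {t : ℝ} (h0 : 0 < t) (h1 : t ≤ 1) (n : ℕ) :
    ∑ k ∈ range n, ((1 : ℝ) + k) ^ (t - 1) ≤ (n : ℝ) ^ t / t := by
  induction n with
  | zero => simp [Real.zero_rpow h0.ne']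
  | succ n ih =>
    rw [sum_range_succ]
    have hX : (0 : ℝ) < (n : ℝ) + 1 := by positivity
    have hb := _root_.rpow_one_add_le_one_add_mul_self (s := -1 / ((n : ℝ) + 1))
      (by rw [le_div_iff₀ hX]; have : (0 : ℝ) ≤ n := Nat.cast_nonneg n; linarith) h0.le h1
    have hn : (n : ℝ) = ((n : ℝ) + 1) * (1 + -1 / ((n : ℝ) + 1)) := by
      field_simp
      ring
    have h2 : (n : ℝ) ^ t ≤ ((n : ℝ) + 1) ^ t - t * ((n : ℝ) + 1) ^ (t - 1) := by
      conv_lhs => rw [hn]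
      rw [Real.mul_rpow hX.le (by
        have : -1 / ((n : ℝ) + 1) = -(1 / ((n : ℝ) + 1)) := by ring
        rw [this]
        have h3 : 1 / ((n : ℝ) + 1) ≤ 1 := by
          rw [div_le_one hX]
          have : (0 : ℝ) ≤ n := Nat.cast_nonneg n
          linarith
        linarith), Real.rpow_sub_one hX.ne']
      calc ((n : ℝ) + 1) ^ t * (1 + -1 / ((n : ℝ) + 1)) ^ t
          ≤ ((n : ℝ) + 1) ^ t * (1 + t * (-1 / ((n : ℝ) + 1))) :=
            mul_le_mul_of_nonneg_left hb (Real.rpow_nonneg hX.le _)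
        _ = ((n : ℝ) + 1) ^ t - t * (((n : ℝ) + 1) ^ t / ((n : ℝ) + 1)) := by ring
    have h3 : ((1 : ℝ) + n) ^ (t - 1) ≤ (((n : ℝ) + 1) ^ t - (n : ℝ) ^ t) / t := by
      rw [le_div_iff₀ h0, add_comm (1 : ℝ)]
      linarith
    push_cast
    calc ∑ k ∈ range n, ((1 : ℝ) + k) ^ (t - 1) + ((1 : ℝ) + n) ^ (t - 1)
        ≤ (n : ℝ) ^ t / t + (((n : ℝ) + 1) ^ t - (n : ℝ) ^ t) / t := add_le_add ih h3
      _ = ((n : ℝ) + 1) ^ t / t := by ring

private lemma lg {n k : ℕ} (h : 2 ^ k ≤ n) : ((1 : ℝ) + k) / 2 ≤ 1 + Real.log n := by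
  have h1 : Real.log ((2 : ℝ) ^ k) ≤ Real.log n := by
    apply Real.log_le_log (by positivity)
    exact_mod_cast h
  rw [Real.log_pow] at h1
  have h2 := Real.log_two_gt_d9
  have h3 : (0 : ℝ) ≤ k := Nat.cast_nonneg k
  nlinarith

private lemma pw {s x X : ℝ} (hX : 0 < X) (h : X / 2 ≤ x) (hs : s ≤ 0) (hs1 : -1 ≤ s) :
    x ^ s ≤ 2 * X ^ s := by
  have h1 : x ^ s ≤ (X / 2) ^ s := Real.rpow_le_rpow_of_nonpos (by positivity) h hs
  have h2 : (X / 2) ^ s = X ^ s * (2 : ℝ) ^ (-s) := by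
    rw [Real.div_rpow hX.le (by norm_num), Real.rpow_neg (by norm_num)]
    rfl
  have h3 : (2 : ℝ) ^ (-s) ≤ 2 := by
    calc (2 : ℝ) ^ (-s) ≤ (2 : ℝ) ^ (1 : ℝ) := Real.rpow_le_rpow_of_exponent_le (by norm_num) (by linarith)
      _ = 2 := Real.rpow_one 2
  rw [h2] at h1
  calc x ^ s ≤ X ^ s * (2 : ℝ) ^ (-s) := h1
    _ ≤ X ^ s * 2 := mul_le_mul_of_nonneg_left h3 (Real.rpow_nonneg hX.le _)
    _ = 2 * X ^ s := mul_comm _ _

private lemma fin_pw {s : ℝ} (hs : s ≤ 1) (hs1 : -1 ≤ s) {N : ℕ} (hN : 1 ≤ N) :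
    ((1 : ℝ) + (Nat.log 2 N : ℕ)) ^ s ≤ 2 * (1 + Real.log N) ^ s := by
  have hK1 : 2 ^ Nat.log 2 N ≤ N := Nat.pow_log_le_self 2 (by omega)
  have hK2 : N < 2 ^ (Nat.log 2 N + 1) := Nat.lt_pow_succ_log_self (by norm_num) N
  have h1 := lg hK1
  have hN' : (1 : ℝ) ≤ N := by exact_mod_cast hN
  have hlog0 : 0 ≤ Real.log N := Real.log_nonneg hN'
  have h2 : Real.log N ≤ ((Nat.log 2 N : ℕ) : ℝ) + 1 := by
    have h3 : Real.log N ≤ Real.log ((2 : ℝ) ^ (Nat.log 2 N + 1)) := by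
      apply Real.log_le_log (by linarith)
      exact_mod_cast hK2.le
    rw [Real.log_pow] at h3
    push_cast at h3
    have h4 := Real.log_two_lt_d9
    have h5 : (0 : ℝ) ≤ ((Nat.log 2 N : ℕ) : ℝ) := Nat.cast_nonneg _
    nlinarith
  have hK0 : (0 : ℝ) ≤ ((Nat.log 2 N : ℕ) : ℝ) := Nat.cast_nonneg _
  rcases le_total s 0 with h | h
  · refine pw (by linarith) ?_ h hs1
    linarith
  · calc ((1 : ℝ) + (Nat.log 2 N : ℕ)) ^ s ≤ (2 * (1 + Real.log N)) ^ s :=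
          Real.rpow_le_rpow (by positivity) (by linarith) h
      _ = (2 : ℝ) ^ s * (1 + Real.log N) ^ s := Real.mul_rpow (by norm_num) (by linarith)
      _ ≤ 2 * (1 + Real.log N) ^ s := by
          refine mul_le_mul_of_nonneg_right ?_ (Real.rpow_nonneg (by linarith) _)
          calc (2 : ℝ) ^ s ≤ (2 : ℝ) ^ (1 : ℝ) :=
                Real.rpow_le_rpow_of_exponent_le (by norm_num) hs
            _ = 2 := Real.rpow_one 2

private lemma beta {t y : ℝ} (ht0 : 0 < t) (ht1 : t ≤ 1) (hy0 : 0 < y) (hy1 : y ≤ 1) (K : ℕ) :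
    ∑ k ∈ range (K + 1), ((1 : ℝ) + k) ^ (t - 1) * ((1 : ℝ) + (K - k : ℕ)) ^ (y - 1) ≤
      2 * (1 / t + 1 / y) * ((1 : ℝ) + K) ^ (t + y - 1) := by
  have hX : (0 : ℝ) < 1 + K := by positivity
  have h1 : ∀ k ∈ range (K + 1), ((1 : ℝ) + k) ^ (t - 1) * ((1 : ℝ) + (K - k : ℕ)) ^ (y - 1) ≤
      2 * ((1 : ℝ) + K) ^ (y - 1) * ((1 : ℝ) + k) ^ (t - 1) +
        2 * ((1 : ℝ) + K) ^ (t - 1) * ((1 : ℝ) + (K - k : ℕ)) ^ (y - 1) := by
    intro k hk
    have hk' : k ≤ K := by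
      have := mem_range.1 hk
      omega
    have ha : (0 : ℝ) < 1 + k := by positivity
    have hb : (0 : ℝ) < 1 + (K - k : ℕ) := by positivity
    have hab : ((1 : ℝ) + k) + (1 + (K - k : ℕ)) = K + 2 := by
      rw [Nat.cast_sub hk']
      ring
    have hA := Real.rpow_nonneg ha.le (t - 1)
    have hB := Real.rpow_nonneg hb.le (y - 1)
    have hC := Real.rpow_nonneg hX.le (t - 1)
    have hD := Real.rpow_nonneg hX.le (y - 1)
    rcases le_total ((1 + (K : ℝ)) / 2) (1 + (K - k : ℕ)) with h | h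
    · have h2 := pw hX h (by linarith) (by linarith : -1 ≤ y - 1)
      calc ((1 : ℝ) + k) ^ (t - 1) * ((1 : ℝ) + (K - k : ℕ)) ^ (y - 1)
          ≤ ((1 : ℝ) + k) ^ (t - 1) * (2 * (1 + (K : ℝ)) ^ (y - 1)) :=
            mul_le_mul_of_nonneg_left h2 hA
        _ = 2 * ((1 : ℝ) + K) ^ (y - 1) * ((1 : ℝ) + k) ^ (t - 1) := by ring
        _ ≤ _ := le_add_of_nonneg_right (by positivity)
    · have h3 : (1 + (K : ℝ)) / 2 ≤ 1 + k := by linarith
      have h2 := pw hX h3 (by linarith) (by linarith : -1 ≤ t - 1)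
      calc ((1 : ℝ) + k) ^ (t - 1) * ((1 : ℝ) + (K - k : ℕ)) ^ (y - 1)
          ≤ (2 * (1 + (K : ℝ)) ^ (t - 1)) * ((1 : ℝ) + (K - k : ℕ)) ^ (y - 1) :=
            mul_le_mul_of_nonneg_right h2 hB
        _ ≤ _ := le_add_of_nonneg_left (by positivity)
  refine (sum_le_sum h1).trans ?_
  rw [sum_add_distrib, ← mul_sum, ← mul_sum]
  have hr : ∑ k ∈ range (K + 1), ((1 : ℝ) + (K - k : ℕ)) ^ (y - 1) =
      ∑ k ∈ range (K + 1), ((1 : ℝ) + k) ^ (y - 1) := by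
    have := sum_range_reflect (fun k : ℕ => ((1 : ℝ) + k) ^ (y - 1)) (K + 1)
    rw [← this]
    refine sum_congr rfl (fun k _ => ?_)
    rw [Nat.add_sub_cancel]
  rw [hr]
  have e1 := tele ht0 ht1 (K + 1)
  have e2 := tele hy0 hy1 (K + 1)
  have hc : ((K + 1 : ℕ) : ℝ) = 1 + K := by push_cast; ring
  rw [hc] at e1 e2
  have p1 : ((1 : ℝ) + K) ^ (y - 1) * (1 + (K : ℝ)) ^ t = (1 + (K : ℝ)) ^ (t + y - 1) := by
    rw [← Real.rpow_add hX]
    congr 1
    ring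
  have p2 : ((1 : ℝ) + K) ^ (t - 1) * (1 + (K : ℝ)) ^ y = (1 + (K : ℝ)) ^ (t + y - 1) := by
    rw [← Real.rpow_add hX]
    congr 1
    ring
  have hC := Real.rpow_nonneg hX.le (t - 1)
  have hD := Real.rpow_nonneg hX.le (y - 1)
  calc 2 * ((1 : ℝ) + K) ^ (y - 1) * ∑ k ∈ range (K + 1), ((1 : ℝ) + k) ^ (t - 1) +
        2 * ((1 : ℝ) + K) ^ (t - 1) * ∑ k ∈ range (K + 1), ((1 : ℝ) + k) ^ (y - 1)
      ≤ 2 * ((1 : ℝ) + K) ^ (y - 1) * ((1 + (K : ℝ)) ^ t / t) +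
        2 * ((1 : ℝ) + K) ^ (t - 1) * ((1 + (K : ℝ)) ^ y / y) :=
        add_le_add (mul_le_mul_of_nonneg_left e1 (by positivity))
          (mul_le_mul_of_nonneg_left e2 (by positivity))
    _ = 2 * (((1 : ℝ) + K) ^ (y - 1) * (1 + (K : ℝ)) ^ t) / t +
        2 * (((1 : ℝ) + K) ^ (t - 1) * (1 + (K : ℝ)) ^ y) / y := by ring
    _ = 2 * (1 / t + 1 / y) * ((1 : ℝ) + K) ^ (t + y - 1) := by rw [p1, p2]; ring

theorem R_sum {y : ℝ} (h0 : 0 < y) (h1 : y < 1) : ∃ C : ℝ, 0 < C ∧ ∀ N : ℕ, 1 ≤ N →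
    ∑ h ∈ Icc 1 N, y ^ om N h / (h : ℝ) * (1 + Real.log ((N / h : ℕ) : ℝ)) ^ (y ^ 2 - 1) ≤
      C * (1 + Real.log N) ^ (y + y ^ 2 - 1) := by
  obtain ⟨C, hC1, hC⟩ := one_sum (z := 1) (by norm_num)
  have ht0 : 0 < y ^ 2 := by positivity
  have ht1 : y ^ 2 ≤ 1 := by nlinarith
  refine ⟨32 * C * (1 / y ^ 2 + 1 / y), by positivity, fun N hN => ?_⟩
  have hN' : (0 : ℝ) < N := by exact_mod_cast hN
  have hmaps : ∀ h ∈ Icc 1 N, Nat.log 2 (N / h) ∈ range (Nat.log 2 N + 1) := by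
    intro h _
    rw [mem_range]
    have := Nat.log_mono_right (b := 2) (Nat.div_le_self N h)
    omega
  rw [← sum_fiberwise_of_maps_to hmaps]
  have hblock : ∀ k ∈ range (Nat.log 2 N + 1),
      ∑ h ∈ Icc 1 N with Nat.log 2 (N / h) = k,
        y ^ om N h / (h : ℝ) * (1 + Real.log ((N / h : ℕ) : ℝ)) ^ (y ^ 2 - 1) ≤
      8 * C * (((1 : ℝ) + k) ^ (y ^ 2 - 1) * ((1 : ℝ) + (Nat.log 2 N - k : ℕ)) ^ (y - 1)) := by
    intro k hk
    have hkK : k ≤ Nat.log 2 N := by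
      have := mem_range.1 hk
      omega
    have hM2 : 2 ^ (Nat.log 2 N - k) ≤ N / 2 ^ k := by
      rw [Nat.le_div_iff_mul_le (by positivity), ← pow_add, Nat.sub_add_cancel hkK]
      exact Nat.pow_log_le_self 2 (by omega)
    have hM1 : 1 ≤ N / 2 ^ k := le_trans Nat.one_le_two_pow hM2
    have hterm : ∀ h ∈ (Icc 1 N).filter (fun h => Nat.log 2 (N / h) = k),
        y ^ om N h / (h : ℝ) * (1 + Real.log ((N / h : ℕ) : ℝ)) ^ (y ^ 2 - 1) ≤
        (2 ^ (k + 1) / (N : ℝ)) * (2 * ((1 : ℝ) + k) ^ (y ^ 2 - 1)) * y ^ om (N / 2 ^ k) h := by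
      intro h hh
      rw [mem_filter, mem_Icc] at hh
      obtain ⟨⟨hh1, hhN⟩, hlog⟩ := hh
      have hpos : 0 < N / h := Nat.div_pos hhN (by omega)
      have hle : 2 ^ k ≤ N / h := by
        rw [← hlog]
        exact Nat.pow_log_le_self 2 hpos.ne'
      have hlt : N / h < 2 ^ (k + 1) := by
        rw [← hlog]
        exact Nat.lt_pow_succ_log_self (by norm_num) _
      have hNlt : N < 2 ^ (k + 1) * h := (Nat.div_lt_iff_lt_mul (by omega)).1 hlt
      have hhM : h ≤ N / 2 ^ k := by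
        rw [Nat.le_div_iff_mul_le (by positivity)]
        have := (Nat.le_div_iff_mul_le (by omega : 0 < h)).1 hle
        rw [mul_comm]
        exact this
      rw [om_eq (w := N) (w' := N / 2 ^ k) hhN hhM]
      have hh0 : (0 : ℝ) < h := by exact_mod_cast hh1
      have a1 : 1 / (h : ℝ) ≤ 2 ^ (k + 1) / (N : ℝ) := by
        rw [div_le_div_iff₀ hh0 hN', one_mul]
        exact_mod_cast hNlt.le
      have a2 : (1 + Real.log ((N / h : ℕ) : ℝ)) ^ (y ^ 2 - 1) ≤ 2 * ((1 : ℝ) + k) ^ (y ^ 2 - 1) :=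
        pw (by positivity) (lg hle) (by linarith) (by linarith)
      have a3 : (0 : ℝ) ≤ (1 + Real.log ((N / h : ℕ) : ℝ)) ^ (y ^ 2 - 1) := by
        apply Real.rpow_nonneg
        have := Real.log_nonneg (show (1 : ℝ) ≤ ((N / h : ℕ) : ℝ) by exact_mod_cast hpos)
        linarith
      calc y ^ om (N / 2 ^ k) h / (h : ℝ) * (1 + Real.log ((N / h : ℕ) : ℝ)) ^ (y ^ 2 - 1)
          = (1 / (h : ℝ) * (1 + Real.log ((N / h : ℕ) : ℝ)) ^ (y ^ 2 - 1)) *
            y ^ om (N / 2 ^ k) h := by ring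
        _ ≤ (2 ^ (k + 1) / (N : ℝ)) * (2 * ((1 : ℝ) + k) ^ (y ^ 2 - 1)) *
            y ^ om (N / 2 ^ k) h := by
            refine mul_le_mul_of_nonneg_right ?_ (by positivity)
            exact mul_le_mul a1 a2 a3 (by positivity)
    have hpk : (0 : ℝ) ≤ ((1 : ℝ) + k) ^ (y ^ 2 - 1) := by positivity
    have hpK : (0 : ℝ) ≤ ((1 : ℝ) + (Nat.log 2 N - k : ℕ)) ^ (y - 1) := by positivity
    calc ∑ h ∈ Icc 1 N with Nat.log 2 (N / h) = k,
          y ^ om N h / (h : ℝ) * (1 + Real.log ((N / h : ℕ) : ℝ)) ^ (y ^ 2 - 1)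
        ≤ ∑ h ∈ (Icc 1 N).filter (fun h => Nat.log 2 (N / h) = k),
          (2 ^ (k + 1) / (N : ℝ)) * (2 * ((1 : ℝ) + k) ^ (y ^ 2 - 1)) * y ^ om (N / 2 ^ k) h :=
          sum_le_sum hterm
      _ = (2 ^ (k + 1) / (N : ℝ)) * (2 * ((1 : ℝ) + k) ^ (y ^ 2 - 1)) *
          ∑ h ∈ (Icc 1 N).filter (fun h => Nat.log 2 (N / h) = k), y ^ om (N / 2 ^ k) h := by
          rw [mul_sum]
      _ ≤ (2 ^ (k + 1) / (N : ℝ)) * (2 * ((1 : ℝ) + k) ^ (y ^ 2 - 1)) *
          ∑ h ∈ Icc 1 (N / 2 ^ k), y ^ om (N / 2 ^ k) h := by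
          refine mul_le_mul_of_nonneg_left ?_ (by positivity)
          refine sum_le_sum_of_subset_of_nonneg ?_ (fun _ _ _ => by positivity)
          intro h hh
          rw [mem_filter, mem_Icc] at hh
          obtain ⟨⟨hh1, hhN⟩, hlog⟩ := hh
          have hpos : 0 < N / h := Nat.div_pos hhN (by omega)
          have hle : 2 ^ k ≤ N / h := by
            rw [← hlog]
            exact Nat.pow_log_le_self 2 hpos.ne'
          rw [mem_Icc]
          refine ⟨hh1, ?_⟩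
          rw [Nat.le_div_iff_mul_le (by positivity)]
          have := (Nat.le_div_iff_mul_le (by omega : 0 < h)).1 hle
          rw [mul_comm]
          exact this
      _ ≤ (2 ^ (k + 1) / (N : ℝ)) * (2 * ((1 : ℝ) + k) ^ (y ^ 2 - 1)) *
          (C * (((N / 2 ^ k : ℕ) : ℝ) * (1 + Real.log ((N / 2 ^ k : ℕ) : ℝ)) ^ (y - 1))) :=
          mul_le_mul_of_nonneg_left (hC y h0.le h1.le _ hM1) (by positivity)
      _ = (2 ^ (k + 1) / (N : ℝ) * ((N / 2 ^ k : ℕ) : ℝ)) * (2 * ((1 : ℝ) + k) ^ (y ^ 2 - 1)) * C *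
          (1 + Real.log ((N / 2 ^ k : ℕ) : ℝ)) ^ (y - 1) := by ring
      _ ≤ 2 * (2 * ((1 : ℝ) + k) ^ (y ^ 2 - 1)) * C *
          (2 * ((1 : ℝ) + (Nat.log 2 N - k : ℕ)) ^ (y - 1)) := by
          have b1 : 2 ^ (k + 1) / (N : ℝ) * ((N / 2 ^ k : ℕ) : ℝ) ≤ 2 := by
            have b2 : ((N / 2 ^ k * 2 ^ k : ℕ) : ℝ) ≤ N := by
              exact_mod_cast Nat.div_mul_le_self N (2 ^ k)
            push_cast at b2
            rw [div_mul_eq_mul_div, div_le_iff₀ hN', pow_succ]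
            nlinarith
          have b3 : (1 + Real.log ((N / 2 ^ k : ℕ) : ℝ)) ^ (y - 1) ≤
              2 * ((1 : ℝ) + (Nat.log 2 N - k : ℕ)) ^ (y - 1) :=
            pw (by positivity) (lg hM2) (by linarith) (by linarith)
          have b4 : (0 : ℝ) ≤ (1 + Real.log ((N / 2 ^ k : ℕ) : ℝ)) ^ (y - 1) := by
            apply Real.rpow_nonneg
            have := Real.log_nonneg (show (1 : ℝ) ≤ ((N / 2 ^ k : ℕ) : ℝ) by exact_mod_cast hM1)
            linarith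
          refine mul_le_mul ?_ b3 b4 (by positivity)
          refine mul_le_mul_of_nonneg_right ?_ (by linarith)
          exact mul_le_mul_of_nonneg_right b1 (by positivity)
      _ = 8 * C * (((1 : ℝ) + k) ^ (y ^ 2 - 1) * ((1 : ℝ) + (Nat.log 2 N - k : ℕ)) ^ (y - 1)) := by
          ring
  refine (sum_le_sum hblock).trans ?_
  rw [← mul_sum]
  have hbeta := beta ht0 ht1 h0 h1.le (Nat.log 2 N)
  have hfin := fin_pw (s := y + y ^ 2 - 1) (by nlinarith) (by nlinarith) hN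
  have hs : y ^ 2 + y - 1 = y + y ^ 2 - 1 := by ring
  rw [hs] at hbeta
  calc 8 * C * ∑ k ∈ range (Nat.log 2 N + 1), ((1 : ℝ) + k) ^ (y ^ 2 - 1) *
        ((1 : ℝ) + (Nat.log 2 N - k : ℕ)) ^ (y - 1)
      ≤ 8 * C * (2 * (1 / y ^ 2 + 1 / y) * ((1 : ℝ) + (Nat.log 2 N : ℕ)) ^ (y + y ^ 2 - 1)) :=
        mul_le_mul_of_nonneg_left hbeta (by positivity)
    _ ≤ 8 * C * (2 * (1 / y ^ 2 + 1 / y) * (2 * (1 + Real.log N) ^ (y + y ^ 2 - 1))) := by
        refine mul_le_mul_of_nonneg_left ?_ (by positivity)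
        exact mul_le_mul_of_nonneg_left hfin (by positivity)
    _ = 32 * C * (1 / y ^ 2 + 1 / y) * (1 + Real.log N) ^ (y + y ^ 2 - 1) := by ring

theorem U_sum {y : ℝ} (h0 : 1 / 2 < y) (h1 : y < 1) : ∃ C : ℝ, 0 < C ∧ ∀ x : ℕ, 1 ≤ x →
    ∑ h ∈ Icc 1 x, y ^ om x h / (h : ℝ) * (1 + Real.log h) ^ (y - 1) ≤
      C * (1 + Real.log x) ^ (2 * y - 1) := by
  obtain ⟨C, hC1, hC⟩ := one_sum (z := 1) (by norm_num)
  have hy0 : 0 < y := by linarith
  have ht0 : 0 < 2 * y - 1 := by linarith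
  refine ⟨16 * C * (1 / (2 * y - 1)), by positivity, fun x hx => ?_⟩
  have hmaps : ∀ h ∈ Icc 1 x, Nat.log 2 h ∈ range (Nat.log 2 x + 1) := by
    intro h hh
    rw [mem_range]
    have := Nat.log_mono_right (b := 2) (mem_Icc.1 hh).2
    omega
  rw [← sum_fiberwise_of_maps_to hmaps]
  have hblock : ∀ k ∈ range (Nat.log 2 x + 1),
      ∑ h ∈ Icc 1 x with Nat.log 2 h = k, y ^ om x h / (h : ℝ) * (1 + Real.log h) ^ (y - 1) ≤
      8 * C * ((1 : ℝ) + k) ^ ((2 * y - 1) - 1) := by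
    intro k _
    have hterm : ∀ h ∈ (Icc 1 x).filter (fun h => Nat.log 2 h = k),
        y ^ om x h / (h : ℝ) * (1 + Real.log h) ^ (y - 1) ≤
        (1 / 2 ^ k) * (2 * ((1 : ℝ) + k) ^ (y - 1)) * y ^ om (2 ^ (k + 1)) h := by
      intro h hh
      rw [mem_filter, mem_Icc] at hh
      obtain ⟨⟨hh1, hhx⟩, hlog⟩ := hh
      have hle : 2 ^ k ≤ h := by
        rw [← hlog]
        exact Nat.pow_log_le_self 2 (by omega)
      have hlt : h < 2 ^ (k + 1) := by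
        rw [← hlog]
        exact Nat.lt_pow_succ_log_self (by norm_num) _
      rw [om_eq (w := x) (w' := 2 ^ (k + 1)) hhx hlt.le]
      have hh0 : (0 : ℝ) < h := by exact_mod_cast hh1
      have a1 : 1 / (h : ℝ) ≤ 1 / 2 ^ k := by
        refine one_div_le_one_div_of_le (by positivity) ?_
        exact_mod_cast hle
      have a2 : (1 + Real.log h) ^ (y - 1) ≤ 2 * ((1 : ℝ) + k) ^ (y - 1) :=
        pw (by positivity) (lg hle) (by linarith) (by linarith)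
      have a3 : (0 : ℝ) ≤ (1 + Real.log h) ^ (y - 1) := by
        apply Real.rpow_nonneg
        have := Real.log_nonneg (show (1 : ℝ) ≤ (h : ℝ) by exact_mod_cast hh1)
        linarith
      calc y ^ om (2 ^ (k + 1)) h / (h : ℝ) * (1 + Real.log h) ^ (y - 1)
          = (1 / (h : ℝ) * (1 + Real.log h) ^ (y - 1)) * y ^ om (2 ^ (k + 1)) h := by ring
        _ ≤ _ := by
            refine mul_le_mul_of_nonneg_right ?_ (by positivity)
            exact mul_le_mul a1 a2 a3 (by positivity)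
    calc ∑ h ∈ Icc 1 x with Nat.log 2 h = k, y ^ om x h / (h : ℝ) * (1 + Real.log h) ^ (y - 1)
        ≤ ∑ h ∈ (Icc 1 x).filter (fun h => Nat.log 2 h = k),
          (1 / 2 ^ k) * (2 * ((1 : ℝ) + k) ^ (y - 1)) * y ^ om (2 ^ (k + 1)) h := sum_le_sum hterm
      _ = (1 / 2 ^ k) * (2 * ((1 : ℝ) + k) ^ (y - 1)) *
          ∑ h ∈ (Icc 1 x).filter (fun h => Nat.log 2 h = k), y ^ om (2 ^ (k + 1)) h := by
          rw [mul_sum]
      _ ≤ (1 / 2 ^ k) * (2 * ((1 : ℝ) + k) ^ (y - 1)) *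
          ∑ h ∈ Icc 1 (2 ^ (k + 1)), y ^ om (2 ^ (k + 1)) h := by
          refine mul_le_mul_of_nonneg_left ?_ (by positivity)
          refine sum_le_sum_of_subset_of_nonneg ?_ (fun _ _ _ => by positivity)
          intro h hh
          rw [mem_filter, mem_Icc] at hh
          obtain ⟨⟨hh1, _⟩, hlog⟩ := hh
          rw [mem_Icc]
          refine ⟨hh1, ?_⟩
          rw [← hlog]
          exact (Nat.lt_pow_succ_log_self (by norm_num) _).le
      _ ≤ (1 / 2 ^ k) * (2 * ((1 : ℝ) + k) ^ (y - 1)) *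
          (C * (((2 ^ (k + 1) : ℕ) : ℝ) * (1 + Real.log ((2 ^ (k + 1) : ℕ) : ℝ)) ^ (y - 1))) :=
          mul_le_mul_of_nonneg_left (hC y hy0.le h1.le _ Nat.one_le_two_pow) (by positivity)
      _ ≤ (1 / 2 ^ k) * (2 * ((1 : ℝ) + k) ^ (y - 1)) *
          (C * (((2 ^ (k + 1) : ℕ) : ℝ) * (2 * ((1 : ℝ) + k) ^ (y - 1)))) := by
          refine mul_le_mul_of_nonneg_left ?_ (by positivity)
          refine mul_le_mul_of_nonneg_left ?_ (by linarith)
          refine mul_le_mul_of_nonneg_left ?_ (Nat.cast_nonneg _)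
          exact pw (by positivity) (lg (Nat.pow_le_pow_right (by norm_num) (Nat.le_succ k)))
            (by linarith) (by linarith)
      _ = 8 * C * (((1 : ℝ) + k) ^ (y - 1) * ((1 : ℝ) + k) ^ (y - 1)) := by
          push_cast
          rw [pow_succ]
          field_simp
          ring
      _ = 8 * C * ((1 : ℝ) + k) ^ ((2 * y - 1) - 1) := by
          rw [← Real.rpow_add (by positivity)]
          congr 2
          ring
  refine (sum_le_sum hblock).trans ?_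
  rw [← mul_sum]
  have ht := tele ht0 (by linarith) (Nat.log 2 x + 1)
  have hc : ((Nat.log 2 x + 1 : ℕ) : ℝ) = 1 + (Nat.log 2 x : ℕ) := by push_cast; ring
  rw [hc] at ht
  have hfin := fin_pw (s := 2 * y - 1) (by linarith) (by linarith) hx
  calc 8 * C * ∑ k ∈ range (Nat.log 2 x + 1), ((1 : ℝ) + k) ^ ((2 * y - 1) - 1)
      ≤ 8 * C * (((1 : ℝ) + (Nat.log 2 x : ℕ)) ^ (2 * y - 1) / (2 * y - 1)) :=
        mul_le_mul_of_nonneg_left ht (by positivity)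
    _ ≤ 8 * C * ((2 * (1 + Real.log x) ^ (2 * y - 1)) / (2 * y - 1)) := by
        refine mul_le_mul_of_nonneg_left ?_ (by positivity)
        exact div_le_div_of_nonneg_right hfin ht0.le
    _ = 16 * C * (1 / (2 * y - 1)) * (1 + Real.log x) ^ (2 * y - 1) := by ring

end Pool.Agent.MEN
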