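import Pool.Agent.MEN.Defs

set_option autoImplicit false

/-!
MEN-Thi. Thinning (Defs only).

The element with the largest off-diagonal row sum is removed again and again.
-/

namespace Pool.Agent.MEN

open Finset

/-- the off-diagonal sum -/
private def off (e : ℕ → ℕ → ℝ) (B : Finset ℕ) : ℝ := ∑ a ∈ B, ∑ c ∈ B.erase a, e a c

private theorem off_nonneg {e : ℕ → ℕ → ℝ} (h0 : ∀ a c, 0 ≤ e a c) (B : Finset ℕ) : 0 ≤ off e B :=
  sum_nonneg fun a _ => sum_nonneg fun c _ => h0 a c

private theorem off_erase {e : ℕ → ℕ → ℝ} (hs : ∀ a c, e a c = e c a) {B : Finset ℕ} {a : ℕ}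
    (ha : a ∈ B) : off e B = 2 * (∑ c ∈ B.erase a, e a c) + off e (B.erase a) := by
  unfold off
  rw [← add_sum_erase B _ ha]
  have h1 : ∀ x ∈ B.erase a, ∑ c ∈ B.erase x, e x c = e a x + ∑ c ∈ (B.erase a).erase x, e x c := by
    intro x hx
    have hax : a ∈ B.erase x := mem_erase.2 ⟨(ne_of_mem_erase hx).symm, ha⟩
    rw [← add_sum_erase (B.erase x) _ hax, hs x a, erase_right_comm]
  rw [sum_congr rfl h1, sum_add_distrib]
  ring

private theorem thin_abs {e : ℕ → ℕ → ℝ} (hs : ∀ a c, e a c = e c a) (h0 : ∀ a c, 0 ≤ e a c)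
    (m : ℕ) : ∀ (k : ℕ) (B : Finset ℕ), B.card = m + k →
      ∃ B' ⊆ B, B'.card = m ∧ off e B' ≤ ((m : ℝ) / B.card) ^ 2 * off e B := by
  intro k
  induction k with
  | zero =>
    intro B hB
    rw [add_zero] at hB
    refine ⟨B, Subset.refl _, hB, ?_⟩
    rcases Nat.eq_zero_or_pos m with hm | hm
    · rw [hm, card_eq_zero] at hB
      subst hB
      simp [off]
    · have hm' : (m : ℝ) ≠ 0 := by exact_mod_cast hm.ne'
      rw [hB, div_self hm', one_pow, one_mul]
  | succ k ih =>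
    intro B hB
    have hpos : 0 < B.card := by omega
    have hne : B.Nonempty := card_pos.1 hpos
    have hc : (0 : ℝ) < B.card := by exact_mod_cast hpos
    obtain ⟨a, ha, hra⟩ : ∃ a ∈ B, off e B / B.card ≤ ∑ c ∈ B.erase a, e a c := by
      refine exists_le_of_sum_le hne ?_
      rw [sum_const, nsmul_eq_mul, mul_div_cancel₀ _ hc.ne']
      exact le_refl _
    have hca : (B.erase a).card = m + k := by
      rw [card_erase_of_mem ha]
      omega
    obtain ⟨B', hB', hm', hle⟩ := ih (B.erase a) hca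
    refine ⟨B', hB'.trans (erase_subset a B), hm', hle.trans ?_⟩
    have h1 := off_erase hs ha
    have h2 := off_nonneg h0 B
    have h3 : off e (B.erase a) ≤ ((B.card - 1 : ℝ) / B.card) ^ 2 * off e B := by
      have h4 : ((B.card - 1 : ℝ) / B.card) ^ 2 * off e B =
          off e B - 2 * (off e B / B.card) + off e B / (B.card : ℝ) ^ 2 := by
        field_simp
        ring
      have h5 : 0 ≤ off e B / (B.card : ℝ) ^ 2 := by positivity
      rw [h4]
      linarith
    have h6 : (((B.erase a).card : ℕ) : ℝ) = B.card - 1 := by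
      rw [hca, hB]
      push_cast
      ring
    rcases Nat.eq_zero_or_pos (m + k) with h7 | h7
    · have hm0 : m = 0 := by omega
      rw [hm0]
      simp
    · have h8 : (0 : ℝ) < (B.erase a).card := by
        rw [hca]
        exact_mod_cast h7
      rw [h6] at h8 ⊢
      calc ((m : ℝ) / (B.card - 1)) ^ 2 * off e (B.erase a)
          ≤ ((m : ℝ) / (B.card - 1)) ^ 2 * (((B.card - 1 : ℝ) / B.card) ^ 2 * off e B) :=
            mul_le_mul_of_nonneg_left h3 (sq_nonneg _)
        _ = ((m : ℝ) / B.card) ^ 2 * off e B := by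
            rw [← mul_assoc, ← mul_pow]
            congr 2
            field_simp

/-- number of solutions of `a * b = c * d` -/
private def ee (N a c : ℕ) : ℕ := ((Icc 1 N ×ˢ Icc 1 N).filter (fun p => a * p.1 = c * p.2)).card

private theorem ee_comm (N a c : ℕ) : ee N a c = ee N c a := by
  unfold ee
  refine card_bij (fun p _ => (p.2, p.1)) ?_ ?_ ?_
  · intro p hp
    rw [mem_filter, mem_product] at hp ⊢
    exact ⟨⟨hp.1.2, hp.1.1⟩, hp.2.symm⟩
  · intro p _ q _ h
    rw [Prod.mk.injEq] at h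
    exact Prod.ext h.2 h.1
  · intro p hp
    rw [mem_filter, mem_product] at hp
    exact ⟨(p.2, p.1), by rw [mem_filter, mem_product]; exact ⟨⟨hp.1.2, hp.1.1⟩, hp.2.symm⟩, rfl⟩

private theorem ee_self {N a : ℕ} (ha : 1 ≤ a) : ee N a a = N := by
  unfold ee
  have h : (Icc 1 N ×ˢ Icc 1 N).filter (fun p => a * p.1 = a * p.2) =
      (Icc 1 N).image (fun b => (b, b)) := by
    ext ⟨b, d⟩
    rw [mem_filter, mem_product, mem_image]
    constructor
    · rintro ⟨⟨hb, _⟩, h⟩
      have h2 : b = d := Nat.eq_of_mul_eq_mul_left ha h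
      exact ⟨b, hb, by rw [h2]⟩
    · rintro ⟨b', hb', h⟩
      rw [Prod.mk.injEq] at h
      obtain ⟨rfl, rfl⟩ := h
      exact ⟨⟨hb', hb'⟩, rfl⟩
  rw [h, card_image_of_injective _ (fun x y hxy => (Prod.mk.injEq _ _ _ _ ▸ hxy).1)]
  simp

private theorem energy_eq (B : Finset ℕ) (N : ℕ) :
    energy B N = ∑ a ∈ B, ∑ c ∈ B, ee N a c := by
  unfold energy ee
  simp only [card_filter, sum_product]
  refine sum_congr rfl fun a _ => ?_
  rw [sum_comm]

private theorem energy_off {B : Finset ℕ} {N : ℕ} (hB : B ⊆ Icc 1 N) :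
    (energy B N : ℝ) = N * B.card + off (fun a c => (ee N a c : ℝ)) B := by
  rw [energy_eq]
  unfold off
  push_cast
  have h : ∀ a ∈ B, ∑ c ∈ B, (ee N a c : ℝ) = N + ∑ c ∈ B.erase a, (ee N a c : ℝ) := by
    intro a ha
    rw [← add_sum_erase B _ ha, ee_self (mem_Icc.1 (hB ha)).1]
  rw [sum_congr rfl h, sum_add_distrib, sum_const, nsmul_eq_mul]
  ring

theorem thin (B : Finset ℕ) (N : ℕ) (hB : B ⊆ Icc 1 N) (m : ℕ) (hm : m ≤ B.card)
    (hB0 : 0 < B.card) : ∃ B' ⊆ B, B'.card = m ∧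
    (energy B' N : ℝ) ≤ N * m + ((m : ℝ) / B.card) ^ 2 * energy B N := by
  obtain ⟨k, hk⟩ := Nat.exists_eq_add_of_le hm
  obtain ⟨B', hB', hm', hle⟩ := thin_abs (e := fun a c => (ee N a c : ℝ))
    (fun a c => by simp only [ee_comm N a c]) (fun a c => Nat.cast_nonneg _) m k B hk
  refine ⟨B', hB', hm', ?_⟩
  rw [energy_off (hB'.trans hB), energy_off hB, hm']
  have h1 : (0 : ℝ) ≤ ((m : ℝ) / B.card) ^ 2 * (N * B.card) := by positivity
  rw [mul_add]
  linarith

end Pool.Agent.MEN
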